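import Pool.Agent.Lib.MP_9dcf40_lc.DT.Spec3
import Pool.Agent.Lib.MP_9dcf40_lc.SR.Cir

/-!
# A circuit for a quartic polynomial (CIRQ)
-/

namespace SRBP

open Finset

open CirAux in
/-- CIRQ with the exact number of gates. -/
theorem cirQ_aux (h1 : S_Gat) (h2 : S_Mon) (n m : ℕ) (c : Coef n → Bool)
    (hm : 6 * Fintype.card (Coef n) + 1 ≤ m) :
    ∃ const : (Fin m × Fin (n + m)) ⊕ Fin (n + m) → Bool, ∀ y : Fin n → Bool,
      cv n m (fun a => match a with
        | Sum.inl p => const (Sum.inl p)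
        | Sum.inr (Sum.inl o) => const (Sum.inr o)
        | Sum.inr (Sum.inr i) => y i) ↔ quartic c y = 1 := by
  obtain ⟨g1, g2, g3, g4⟩ := h1
  set L0 : List ((ℕ → Bool) → Bool) := (List.range n).map (fun i => fun y : ℕ → Bool => y i)
    with hL0
  have hmem : ∀ i < n, (fun y : ℕ → Bool => y i) ∈ L0 := fun i hi =>
    List.mem_map.2 ⟨i, List.mem_range.2 hi, rfl⟩
  have s0 : Has n 0 L0 := g2 n
  have s1 := h2 n 0 L0 (T1 c) s0 hmem (by
    intro M hM i hi
    obtain ⟨S, -, rfl⟩ := List.mem_map.1 hM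
    obtain ⟨j, -, rfl⟩ := List.mem_map.1 hi
    exact Fin.is_lt _)
  set φ1 : (ℕ → Bool) → Bool := fun y =>
    ((T1 c).map (fun M => M.all (fun i => y i))).foldr xor false with hφ1
  have hle : 0 + 6 * (T1 c).length + 1 ≤ m := by
    have := T1_length c
    omega
  obtain ⟨A, hA⟩ := g3 n _ m _ hle s1
  obtain ⟨i1, hi1, hw1⟩ := hA φ1 (by simp)
  refine ⟨fun a => match a with
    | Sum.inl p => A (n + p.1) p.2
    | Sum.inr o => decide ((o : ℕ) = i1), fun y => ?_⟩
  have hwire : ∀ o : Fin (n + m),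
      wire n (fun i j => if h : i - n < m ∧ j < n + m then A (n + (i - n)) j else false)
        (ext y) o = wire n A (ext y) o := by
    intro o
    rw [wire, wire, wires_congr n _ A (ext y) (o + 1)]
    intro i j h1 h2 h3
    have h4 : i - n < m ∧ j < n + m := by omega
    rw [dif_pos h4]
    congr 1
    omega
  have hkey : cv n m (fun a => match a with
      | Sum.inl p => A (n + p.1) p.2
      | Sum.inr (Sum.inl o) => decide ((o : ℕ) = i1)
      | Sum.inr (Sum.inr i) => y i) ↔ ∀ o : Fin (n + m), ((o : ℕ) = i1) →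
        wire n A (ext y) o = true := by
    unfold cv
    refine forall_congr' fun o => ?_
    rw [← hwire o]
    simp only [decide_eq_true_eq]
    exact Iff.rfl
  refine Iff.trans hkey ?_
  rw [← T1_sum, one_iff]
  constructor
  · intro h
    have e1 := h ⟨i1, hi1⟩ rfl
    rw [hw1] at e1
    exact e1
  · rintro e1 o ho
    rw [ho, hw1]; exact e1

/-- CIRQ. -/
theorem tCirQ (h1 : S_Gat) (h2 : S_Mon) : S_CirQ := by
  intro n m c hm
  exact cirQ_aux h1 h2 n m c (by omega)

end SRBP
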