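import Pool.Agent.Lib.MP_9dcf40_lc.DT.Spec

/-!
# Theorem DT (MP_9dcf40_lc): estimates
-/

namespace SRBP

open Finset

/-- Small subsets of a set. -/
theorem log_small {n : ℕ} (G : Finset (Fin n)) (d : ℕ) (z : ℝ) (h0 : 0 < z) (h1 : z ≤ 1) :
    Real.log ((G.powerset.filter (fun S => S.card ≤ d)).card) ≤ z * G.card + d * (-Real.log z) := by
  have hs : ∑ S ∈ G.powerset, z ^ S.card = (z + 1) ^ G.card := by
    have h := Finset.sum_pow_mul_eq_add_pow z (1 : ℝ) G
    simpa only [one_pow, mul_one] using h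
  have h2 : ((G.powerset.filter (fun S => S.card ≤ d)).card : ℝ) * z ^ d ≤ (z + 1) ^ G.card := by
    rw [← hs]
    calc ((G.powerset.filter (fun S => S.card ≤ d)).card : ℝ) * z ^ d
        = ∑ S ∈ G.powerset.filter (fun S => S.card ≤ d), z ^ d := by
          rw [sum_const, nsmul_eq_mul]
      _ ≤ ∑ S ∈ G.powerset.filter (fun S => S.card ≤ d), z ^ S.card := by
          refine sum_le_sum fun S hS => ?_
          exact pow_le_pow_of_le_one h0.le h1 (mem_filter.1 hS).2
      _ ≤ ∑ S ∈ G.powerset, z ^ S.card := by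
          refine sum_le_sum_of_subset_of_nonneg (filter_subset _ _) ?_
          intro S _ _
          positivity
  have h3 : (0 : ℝ) < ((G.powerset.filter (fun S => S.card ≤ d)).card : ℝ) := by
    have : (G.powerset.filter (fun S => S.card ≤ d)).Nonempty :=
      ⟨∅, mem_filter.2 ⟨mem_powerset.2 (empty_subset _), by simp⟩⟩
    exact_mod_cast this.card_pos
  have h4 := Real.log_le_log (by positivity) h2
  rw [Real.log_mul h3.ne' (by positivity), Real.log_pow, Real.log_pow] at h4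
  have h5 : Real.log (z + 1) ≤ z := by
    have := Real.log_le_sub_one_of_pos (x := z + 1) (by linarith)
    linarith
  have h6 : (G.card : ℝ) * Real.log (z + 1) ≤ G.card * z :=
    mul_le_mul_of_nonneg_left h5 (Nat.cast_nonneg _)
  linarith

theorem ball_eq (n s : ℕ) :
    ball n s = ((univ : Finset (Fin n)).powerset.filter (fun S => S.card ≤ s)).card := by
  unfold ball
  rw [powerset_univ]

theorem choose_le_ball (n s : ℕ) :
    n.choose s ≤ ((univ : Finset (Fin n)).powerset.filter (fun S => S.card ≤ s)).card := by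
  have h : n.choose s = (powersetCard s (univ : Finset (Fin n))).card := by
    rw [card_powersetCard, card_univ, Fintype.card_fin]
  rw [h]
  refine card_le_card ?_
  intro S hS
  rw [mem_powersetCard] at hS
  rw [mem_filter, mem_powerset]
  exact ⟨hS.1, hS.2.le⟩

theorem ball_le_pow (r m : ℕ) (hr : 2 ≤ r) : ball r m ≤ r ^ (m + 2) := by
  have hr' : (2 : ℝ) ≤ r := by exact_mod_cast hr
  have h1 := log_small (univ : Finset (Fin r)) m ((r : ℝ)⁻¹) (by positivity)
    (inv_le_one_of_one_le₀ (by linarith))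
  rw [← ball_eq, card_univ, Fintype.card_fin, Real.log_inv, inv_mul_cancel₀ (by linarith)] at h1
  have h2 : (0 : ℝ) < ball r m := by
    have : 0 < ball r m := by
      unfold ball
      exact card_pos.2 ⟨∅, by simp⟩
    exact_mod_cast this
  have h3 : 1 / 2 ≤ Real.log r := by
    have h4 : Real.log 2 ≤ Real.log r := Real.log_le_log (by norm_num) hr'
    linarith [Real.log_two_gt_d9]
  have h4 : Real.log (ball r m) ≤ Real.log ((r : ℝ) ^ (m + 2)) := by
    rw [Real.log_pow]
    push_cast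
    nlinarith
  have h5 := (Real.log_le_log_iff h2 (by positivity)).1 h4
  exact_mod_cast h5

/-- Estimate of the rows. -/
theorem numA (K W δ lM lf s lbl : ℝ) (hK : 2 ≤ K) (hW : 2 ^ 18 * K ^ 2 ≤ W) (hδ : δ ≤ W / 1000)
    (hlM : lM ≤ 160 * K ^ 2) (hlf : -δ - 3 * Real.log 2 - lM ≤ lf) (hs : W / 8 - 1 ≤ s)
    (hbl : lbl ≤ W / 1000) : δ ≤ lf + s * Real.log 2 - 2 * Real.log 2 - lbl := by
  have h1 := Real.log_two_gt_d9
  have h2 := Real.log_two_lt_d9
  have hK2 : 4 ≤ K ^ 2 := by nlinarith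
  have h3 : (W / 8 - 1) * 0.69 ≤ s * Real.log 2 := by
    have h4 : 0 ≤ W / 8 - 1 := by nlinarith
    calc (W / 8 - 1) * 0.69 ≤ (W / 8 - 1) * Real.log 2 :=
          mul_le_mul_of_nonneg_left (by linarith) h4
      _ ≤ s * Real.log 2 := mul_le_mul_of_nonneg_right hs (by linarith)
  nlinarith

/-- Estimate of the columns. -/
theorem numB (K W δ lM lf t lC : ℝ) (hK : 2 ≤ K) (hW : 2 ^ 18 * K ^ 2 ≤ W) (hδ : δ ≤ W / 1000)
    (hlM : lM ≤ 160 * K ^ 2) (hlf : -δ - 3 * Real.log 2 - lM ≤ lf)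
    (ht : 4096 * (K ^ 2 * W) - 1 - W ≤ t) (hC : lC ≤ W + 20 * (K ^ 2 * W)) :
    δ ≤ lf + t * Real.log 2 - 2 * Real.log 2 - lC := by
  have h1 := Real.log_two_gt_d9
  have h2 := Real.log_two_lt_d9
  have hK2 : 4 ≤ K ^ 2 := by nlinarith
  have hW0 : 0 < W := by nlinarith
  obtain ⟨p, hp⟩ : ∃ p, p = K ^ 2 * W := ⟨_, rfl⟩
  rw [← hp] at ht hC
  have hpW : 4 * W ≤ p := by rw [hp]; nlinarith
  have h3 : (4096 * p - 1 - W) * 0.69 ≤ t * Real.log 2 := by
    have h4 : 0 ≤ 4096 * p - 1 - W := by nlinarith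
    calc (4096 * p - 1 - W) * 0.69 ≤ (4096 * p - 1 - W) * Real.log 2 :=
          mul_le_mul_of_nonneg_left (by linarith) h4
      _ ≤ t * Real.log 2 := mul_le_mul_of_nonneg_right ht (by linarith)
  nlinarith

end SRBP
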