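import Pool.Agent.Lib.MP_9dcf40_lc.DT.Spec

/-!
# Theorem DT (MP_9dcf40_lc): choice of the segments, of the inputs and of the block
-/

namespace SRBP

open Finset

open scoped Classical in
/-- Many variables have few readers. -/
private theorem few {n r : ℕ} (D : Fin r → Finset (Fin n)) (m : ℕ)
    (h : 2 * ∑ j, (D j).card ≤ (m + 1) * n) :
    n ≤ 2 * (univ.filter (fun v : Fin n => (univ.filter (fun j => v ∈ D j)).card ≤ m)).card := by
  have h1 : ∑ v : Fin n, (univ.filter (fun j => v ∈ D j)).card = ∑ j, (D j).card := by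
    simp_rw [card_filter]
    rw [sum_comm]
    refine sum_congr rfl (fun j _ => ?_)
    rw [← card_filter]
    congr 1
    ext v
    simp
  obtain ⟨A, hA⟩ : ∃ A, A = univ.filter (fun v : Fin n =>
    (univ.filter (fun j => v ∈ D j)).card ≤ m) := ⟨_, rfl⟩
  rw [← hA]
  have h2 : (m + 1) * (Aᶜ).card ≤ ∑ v : Fin n, (univ.filter (fun j => v ∈ D j)).card := by
    calc (m + 1) * (Aᶜ).card = ∑ v ∈ Aᶜ, (m + 1) := by rw [sum_const, smul_eq_mul, mul_comm]
      _ ≤ ∑ v ∈ Aᶜ, (univ.filter (fun j => v ∈ D j)).card := by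
          refine sum_le_sum (fun v hv => ?_)
          rw [hA, mem_compl, mem_filter] at hv
          by_contra hc
          exact hv ⟨mem_univ _, by omega⟩
      _ ≤ _ := sum_le_univ_sum_of_nonneg (fun _ => Nat.zero_le _)
  rw [h1] at h2
  have h3 : A.card + (Aᶜ).card = n := by
    rw [card_add_card_compl, Fintype.card_fin]
  have h4 : (m + 1) * (2 * (Aᶜ).card) ≤ (m + 1) * n := by
    calc (m + 1) * (2 * (Aᶜ).card) = 2 * ((m + 1) * (Aᶜ).card) := by ring
      _ ≤ _ := by omega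
  have h5 := Nat.le_of_mul_le_mul_left h4 (Nat.succ_pos m)
  omega

open scoped Classical in
theorem selT {n r : ℕ} {β : Type} (F : Finset (Fin n → Bool)) (sg : Fin r → (Fin n → Bool) → β)
    (dm : β → Finset (Fin n)) (m : ℕ)
    (h : ∀ x ∈ F, 2 * ∑ j, (dm (sg j x)).card ≤ (m + 1) * n) :
    ∃ T : Finset (Fin r), T.card ≤ m ∧
      F.card * n ≤ 2 * ball r m * ∑ x ∈ F, (univ \ DJ sg dm Tᶜ x).card := by
  obtain ⟨TT, hTT⟩ : ∃ TT, TT = (univ : Finset (Finset (Fin r))).filter (fun S => S.card ≤ m) :=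
    ⟨_, rfl⟩
  have hM : ball r m = TT.card := by
    rw [hTT]
    rfl
  have hx : ∀ x ∈ F, n ≤ 2 * ∑ T ∈ TT, (univ \ DJ sg dm Tᶜ x).card := by
    intro x hx
    refine (few (fun j => dm (sg j x)) m (h x hx)).trans (Nat.mul_le_mul_left 2 ?_)
    refine le_trans (card_le_card ?_) (card_biUnion_le (s := TT)
      (t := fun T => univ \ DJ sg dm Tᶜ x))
    intro v hv
    rw [mem_filter] at hv
    rw [mem_biUnion]
    refine ⟨univ.filter (fun j => v ∈ dm (sg j x)), ?_, ?_⟩
    · rw [hTT, mem_filter]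
      exact ⟨mem_univ _, hv.2⟩
    · rw [mem_sdiff]
      refine ⟨mem_univ _, ?_⟩
      unfold DJ
      rw [mem_biUnion]
      rintro ⟨j, hj, hvj⟩
      rw [mem_compl, mem_filter] at hj
      exact hj ⟨mem_univ _, hvj⟩
  have hsum : F.card * n ≤ 2 * ∑ T ∈ TT, ∑ x ∈ F, (univ \ DJ sg dm Tᶜ x).card := by
    rw [sum_comm, mul_sum]
    calc F.card * n = ∑ x ∈ F, n := by rw [sum_const, smul_eq_mul]
      _ ≤ _ := sum_le_sum hx
  have hne : TT.Nonempty := ⟨∅, by rw [hTT, mem_filter]; simp⟩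
  by_contra hcon
  push Not at hcon
  have h1 : ∑ T ∈ TT, (2 * ball r m * ∑ x ∈ F, (univ \ DJ sg dm Tᶜ x).card) <
      ∑ _T ∈ TT, F.card * n := by
    refine sum_lt_sum_of_nonempty hne (fun T hT => ?_)
    rw [hTT, mem_filter] at hT
    exact hcon T hT.2
  rw [← mul_sum, sum_const, smul_eq_mul, ← hM] at h1
  have h2 : ball r m * (F.card * n) ≤
      2 * ball r m * ∑ T ∈ TT, ∑ x ∈ F, (univ \ DJ sg dm Tᶜ x).card := by
    calc ball r m * (F.card * n) ≤ ball r m * (2 * ∑ T ∈ TT, ∑ x ∈ F,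
          (univ \ DJ sg dm Tᶜ x).card) := Nat.mul_le_mul_left _ hsum
      _ = _ := by ring
  omega

theorem selF {X : Type} (F : Finset X) (u : X → ℕ) (n M : ℕ) (hn : 0 < n)
    (hu : ∀ x ∈ F, u x ≤ n) (h : F.card * n ≤ 2 * M * ∑ x ∈ F, u x) :
    F.card ≤ 4 * M * (F.filter (fun x => n ≤ 4 * M * u x)).card := by
  have h1 := sum_filter_add_sum_filter_not F (fun x => n ≤ 4 * M * u x) (fun x => 4 * M * u x)
  have h2 : ∑ x ∈ F.filter (fun x => n ≤ 4 * M * u x), 4 * M * u x ≤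
      (F.filter (fun x => n ≤ 4 * M * u x)).card * (4 * M * n) := by
    calc _ ≤ ∑ x ∈ F.filter (fun x => n ≤ 4 * M * u x), 4 * M * n :=
          sum_le_sum (fun x hx => Nat.mul_le_mul_left _ (hu x (mem_filter.1 hx).1))
      _ = _ := by rw [sum_const, smul_eq_mul]
  have h3 : ∑ x ∈ F.filter (fun x => ¬ n ≤ 4 * M * u x), 4 * M * u x ≤ F.card * n := by
    calc _ ≤ ∑ x ∈ F.filter (fun x => ¬ n ≤ 4 * M * u x), n :=
          sum_le_sum (fun x hx => (not_le.1 (mem_filter.1 hx).2).le)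
      _ = (F.filter (fun x => ¬ n ≤ 4 * M * u x)).card * n := by rw [sum_const, smul_eq_mul]
      _ ≤ _ := Nat.mul_le_mul_right _ (card_filter_le _ _)
  have h4 : ∑ x ∈ F, 4 * M * u x = 4 * M * ∑ x ∈ F, u x := by rw [mul_sum]
  obtain ⟨f, hf⟩ : ∃ f, f = (F.filter (fun x => n ≤ 4 * M * u x)).card := ⟨_, rfl⟩
  rw [← hf] at h2 ⊢
  obtain ⟨S, hS⟩ : ∃ S, S = ∑ x ∈ F, u x := ⟨_, rfl⟩
  rw [← hS] at h h4
  have h5 : F.card * n ≤ 4 * M * f * n := by
    have e1 : 4 * M * S = 2 * (2 * M * S) := by ring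
    have e2 : f * (4 * M * n) = 4 * M * f * n := by ring
    omega
  exact Nat.le_of_mul_le_mul_right h5 hn

/-- The blocks. -/
private def blG (n q b : ℕ) : Finset (Fin n) :=
  univ.filter (fun v : Fin n => b * q ≤ v.1 ∧ v.1 < (b + 1) * q)

private theorem blG_card (n q b B : ℕ) (hb : b < B) (hq : B * q ≤ n) : (blG n q b).card = q := by
  have h1 : (blG n q b).map Fin.valEmbedding = Ico (b * q) ((b + 1) * q) := by
    ext v
    rw [mem_map, mem_Ico]
    unfold blG
    constructor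
    · rintro ⟨w, hw, rfl⟩
      exact (mem_filter.1 hw).2
    · rintro ⟨h1, h2⟩
      have h3 : (b + 1) * q ≤ B * q := Nat.mul_le_mul_right q hb
      exact ⟨⟨v, by omega⟩, mem_filter.2 ⟨mem_univ _, h1, h2⟩, rfl⟩
  rw [← card_map Fin.valEmbedding, h1, Nat.card_Ico]
  rw [add_mul, one_mul]
  omega

private theorem blG_disj (n q b b' : ℕ) (h : b ≠ b') : Disjoint (blG n q b) (blG n q b') := by
  rw [disjoint_left]
  intro v hv hv'
  unfold blG at hv hv'
  obtain ⟨-, h1, h2⟩ := mem_filter.1 hv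
  obtain ⟨-, h3, h4⟩ := mem_filter.1 hv'
  rcases lt_or_gt_of_ne h with h | h
  · have : (b + 1) * q ≤ b' * q := Nat.mul_le_mul_right q h
    omega
  · have : (b' + 1) * q ≤ b * q := Nat.mul_le_mul_right q h
    omega

private theorem bl_sum {n q : ℕ} (S : Finset ℕ) (W : Finset (Fin n)) :
    ∑ b ∈ S, (W ∩ blG n q b).card ≤ W.card := by
  rw [← card_biUnion]
  · refine card_le_card ?_
    intro v hv
    obtain ⟨b, -, hb⟩ := mem_biUnion.1 hv
    exact (mem_inter.1 hb).1
  · intro b _ b' _ hbb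
    exact (blG_disj n q b b' hbb).mono inter_subset_right inter_subset_right

theorem selG {n : ℕ} {X : Type} (F : Finset X) (U D : X → Finset (Fin n)) (B q t0 : ℕ)
    (hB : 4 ≤ B) (hq : B * q ≤ n) (hD : ∀ x ∈ F, (D x).card ≤ t0) :
    ∃ G : Finset (Fin n), G.card = q ∧ F.card ≤ 2 * (F.filter (fun x =>
      2 * (U x ∩ G).card ≤ (U x).card ∧ B * (D x ∩ G).card ≤ 4 * t0)).card := by
  have hx : ∀ x ∈ F, B ≤ 2 * ((range B).filter (fun b =>
      2 * (U x ∩ blG n q b).card ≤ (U x).card ∧ B * (D x ∩ blG n q b).card ≤ 4 * t0)).card := by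
    intro x hx
    obtain ⟨b1, hb1⟩ : ∃ b1, b1 = (range B).filter (fun b =>
      (U x).card < 2 * (U x ∩ blG n q b).card) := ⟨_, rfl⟩
    obtain ⟨b2, hb2⟩ : ∃ b2, b2 = (range B).filter (fun b =>
      4 * t0 < B * (D x ∩ blG n q b).card) := ⟨_, rfl⟩
    have c1 : b1.card ≤ 1 := by
      rw [card_le_one]
      intro a ha b hb
      by_contra hab
      rw [hb1, mem_filter] at ha hb
      have h1 := bl_sum (q := q) {a, b} (U x)
      rw [sum_pair hab] at h1
      omega
    have c2 : 4 * b2.card ≤ B := by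
      have h1 : b2.card * (4 * t0 + 1) ≤ B * t0 := by
        calc b2.card * (4 * t0 + 1) = ∑ b ∈ b2, (4 * t0 + 1) := by rw [sum_const, smul_eq_mul]
          _ ≤ ∑ b ∈ b2, B * (D x ∩ blG n q b).card := by
              refine sum_le_sum (fun b hb => ?_)
              rw [hb2, mem_filter] at hb
              exact hb.2
          _ = B * ∑ b ∈ b2, (D x ∩ blG n q b).card := by rw [mul_sum]
          _ ≤ B * t0 := Nat.mul_le_mul_left _ ((bl_sum b2 (D x)).trans (hD x hx))
      rcases Nat.eq_zero_or_pos t0 with h0 | h0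
      · subst h0
        omega
      · have h2 : (4 * b2.card) * t0 ≤ B * t0 := by
          have : b2.card * (4 * t0 + 1) = 4 * b2.card * t0 + b2.card := by ring
          omega
        exact Nat.le_of_mul_le_mul_right h2 h0
    have c3 : range B ⊆ ((range B).filter (fun b =>
      2 * (U x ∩ blG n q b).card ≤ (U x).card ∧ B * (D x ∩ blG n q b).card ≤ 4 * t0)) ∪
        (b1 ∪ b2) := by
      intro b hb
      rw [mem_union, mem_union, hb1, hb2, mem_filter, mem_filter, mem_filter]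
      by_cases h1 : 2 * (U x ∩ blG n q b).card ≤ (U x).card
      · by_cases h2 : B * (D x ∩ blG n q b).card ≤ 4 * t0
        · exact Or.inl ⟨hb, h1, h2⟩
        · exact Or.inr (Or.inr ⟨hb, not_le.1 h2⟩)
      · exact Or.inr (Or.inl ⟨hb, not_le.1 h1⟩)
    have c4 := card_le_card c3
    have c5 := card_union_le ((range B).filter (fun b =>
      2 * (U x ∩ blG n q b).card ≤ (U x).card ∧ B * (D x ∩ blG n q b).card ≤ 4 * t0)) (b1 ∪ b2)
    have c6 := card_union_le b1 b2
    rw [card_range] at c4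
    omega
  have hsum : F.card * B ≤ 2 * ∑ b ∈ range B, (F.filter (fun x =>
      2 * (U x ∩ blG n q b).card ≤ (U x).card ∧ B * (D x ∩ blG n q b).card ≤ 4 * t0)).card := by
    have h1 : ∑ b ∈ range B, (F.filter (fun x =>
      2 * (U x ∩ blG n q b).card ≤ (U x).card ∧ B * (D x ∩ blG n q b).card ≤ 4 * t0)).card =
      ∑ x ∈ F, ((range B).filter (fun b =>
      2 * (U x ∩ blG n q b).card ≤ (U x).card ∧ B * (D x ∩ blG n q b).card ≤ 4 * t0)).card := by
      simp_rw [card_filter]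
      exact sum_comm
    rw [h1, mul_sum]
    calc F.card * B = ∑ x ∈ F, B := by rw [sum_const, smul_eq_mul]
      _ ≤ _ := sum_le_sum hx
  by_contra hcon
  push Not at hcon
  have h1 : ∑ b ∈ range B, (2 * (F.filter (fun x =>
      2 * (U x ∩ blG n q b).card ≤ (U x).card ∧ B * (D x ∩ blG n q b).card ≤ 4 * t0)).card) <
      ∑ _b ∈ range B, F.card := by
    refine sum_lt_sum_of_nonempty ⟨0, by rw [mem_range]; omega⟩ (fun b hb => ?_)
    exact hcon (blG n q b) (blG_card n q b B (mem_range.1 hb) hq)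
  rw [← mul_sum, sum_const, smul_eq_mul, card_range, mul_comm B] at h1
  omega

end SRBP
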