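import Pool.Agent.Lib.MP_9dcf40_lc.DT.Rec
import Pool.Agent.Lib.MP_9dcf40_lc.DT.Sel
import Pool.Agent.Lib.MP_9dcf40_lc.DT.Num

/-!
# Theorem DT (MP_9dcf40_lc): the core
-/

namespace SRBP

open Finset

private theorem div_ge (a b : ℕ) (hb : 0 < b) : (a : ℝ) / b - 1 ≤ ((a / b : ℕ) : ℝ) := by
  have h1 : a < b * (a / b + 1) := Nat.lt_mul_div_succ a hb
  have h2 : (a : ℝ) < b * (((a / b : ℕ) : ℝ) + 1) := by exact_mod_cast h1
  have hb' : (0 : ℝ) < b := by exact_mod_cast hb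
  rw [sub_le_iff_le_add, div_le_iff₀ hb']
  linarith

/-- The numbers. -/
private theorem nums (k n : ℕ) (hk : 2 ≤ k) (hn : (k : ℝ) ^ (170 * k) ≤ n) (M Bn : ℕ)
    (hM : M = k ^ (80 * k + 160)) (hBn : Bn = k ^ (80 * k + 146)) :
    (0 : ℝ) < M ∧ (0 : ℝ) < Bn ∧ 2 ^ 18 * (k : ℝ) ^ 2 ≤ n / M ∧
    (n : ℝ) / (k : ℝ) ^ (170 * k) ≤ (n / M) / 1000 ∧ Real.log M ≤ 160 * (k : ℝ) ^ 2 ∧
    (n : ℝ) / Bn = (n / M) * (k : ℝ) ^ 14 ∧ k ^ 40 ≤ n ∧ 4 ≤ Bn := by
  obtain ⟨K, hKdef⟩ : ∃ K : ℝ, K = k := ⟨_, rfl⟩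
  rw [← hKdef] at hn ⊢
  have hK : 2 ≤ K := by
    rw [hKdef]
    exact_mod_cast hk
  have hK1 : 1 ≤ K := by linarith
  have hMR : (M : ℝ) = K ^ (80 * k + 160) := by
    rw [hM, hKdef]
    push_cast
    rfl
  have hBR : (Bn : ℝ) = K ^ (80 * k + 146) := by
    rw [hBn, hKdef]
    push_cast
    rfl
  have hM0 : (0 : ℝ) < M := by rw [hMR]; positivity
  have hB0 : (0 : ℝ) < Bn := by rw [hBR]; positivity
  have hn0 : (0 : ℝ) < n := lt_of_lt_of_le (by positivity) hn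
  have hMB : (M : ℝ) = Bn * K ^ 14 := by rw [hMR, hBR, ← pow_add]
  have hK10 : K ^ 20 ≤ K ^ (10 * k) := pow_le_pow_right₀ hK1 (by omega)
  refine ⟨hM0, hB0, ?_, ?_, ?_, ?_, ?_, ?_⟩
  · rw [le_div_iff₀ hM0]
    refine le_trans ?_ hn
    calc 2 ^ 18 * K ^ 2 * M ≤ K ^ 18 * K ^ 2 * M := by
          refine mul_le_mul_of_nonneg_right (mul_le_mul_of_nonneg_right
            (pow_le_pow_left₀ (by norm_num) hK 18) (by positivity)) hM0.le
      _ = K ^ (18 + 2 + (80 * k + 160)) := by rw [hMR, ← pow_add, ← pow_add]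
      _ ≤ K ^ (170 * k) := pow_le_pow_right₀ hK1 (by omega)
  · have h1 : (M : ℝ) * 1000 ≤ K ^ (170 * k) := by
      calc (M : ℝ) * 1000 ≤ K ^ (80 * k + 160) * K ^ 20 := by
            rw [hMR]
            refine mul_le_mul_of_nonneg_left ?_ (by positivity)
            calc (1000 : ℝ) ≤ 2 ^ 20 := by norm_num
              _ ≤ K ^ 20 := pow_le_pow_left₀ (by norm_num) hK 20
        _ = K ^ (80 * k + 160 + 20) := (pow_add _ _ _).symm
        _ ≤ _ := pow_le_pow_right₀ hK1 (by omega)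
    rw [div_div]
    exact div_le_div_of_nonneg_left hn0.le (by positivity) h1
  · have h1 : Real.log K ≤ K := by
      have := Real.log_le_sub_one_of_pos (x := K) (by linarith)
      linarith
    rw [hMR, Real.log_pow]
    push_cast
    rw [← hKdef]
    calc (80 * K + 160) * Real.log K ≤ (80 * K + 160) * K :=
          mul_le_mul_of_nonneg_left h1 (by linarith)
      _ ≤ _ := by nlinarith
  · rw [hMB]
    field_simp
  · have h1 : K ^ 40 ≤ n := le_trans (pow_le_pow_right₀ hK1 (by omega)) hn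
    rw [hKdef] at h1
    exact_mod_cast h1
  · rw [hBn]
    calc 4 = 2 ^ 2 := by norm_num
      _ ≤ k ^ 2 := Nat.pow_le_pow_left hk 2
      _ ≤ _ := Nat.pow_le_pow_right (by omega) (by omega)

/-- The number of readings in the block. -/
private theorem d_le (K W nR bR t0 d : ℝ) (hK : 2 ≤ K) (hb : 0 < bR) (hn : K ^ 40 ≤ nR)
    (hW : nR / bR = W * K ^ 14) (ht : t0 ≤ (2 * K + 2) * (K * nR / K ^ 40 + 1))
    (hd : d ≤ 4 * t0 / bR) : d ≤ W / K ^ 19 := by
  have hK0 : 0 < K := by linarith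
  have hn0 : 0 < nR := lt_of_lt_of_le (by positivity) hn
  have h1 : 1 ≤ K * nR / K ^ 40 := by
    rw [le_div_iff₀ (by positivity)]
    nlinarith
  have h2 : t0 ≤ 4 * (K + 1) * (K * nR / K ^ 40) := by
    refine ht.trans ?_
    calc (2 * K + 2) * (K * nR / K ^ 40 + 1) ≤ (2 * K + 2) * (K * nR / K ^ 40 + K * nR / K ^ 40) :=
          mul_le_mul_of_nonneg_left (by linarith) (by linarith)
      _ = _ := by ring
  have h3 : 16 * (K + 1) ≤ K ^ 6 := by
    have : K + 1 ≤ K ^ 2 := by nlinarith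
    have h16 : (16 : ℝ) ≤ K ^ 4 := by
      calc (16 : ℝ) = 2 ^ 4 := by norm_num
        _ ≤ K ^ 4 := pow_le_pow_left₀ (by norm_num) hK 4
    calc 16 * (K + 1) ≤ K ^ 4 * K ^ 2 := mul_le_mul h16 this (by linarith) (by positivity)
      _ = K ^ 6 := by ring
  have hWn : W = nR / bR / K ^ 14 := by
    rw [hW]
    field_simp
  calc d ≤ 4 * t0 / bR := hd
    _ ≤ 4 * (4 * (K + 1) * (K * nR / K ^ 40)) / bR := by
        gcongr
    _ = (16 * (K + 1)) * (K * nR / K ^ 40 / bR) := by ring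
    _ ≤ K ^ 6 * (K * nR / K ^ 40 / bR) := mul_le_mul_of_nonneg_right h3 (by positivity)
    _ = W / K ^ 19 := by
        rw [hWn]
        field_simp

theorem tCoreD : S_CoreD := by
  classical
  refine ⟨170, by norm_num, fun k hk => ⟨k ^ 40, Nat.one_le_pow _ _ (by omega), ?_, ?_⟩⟩
  · push_cast
    exact pow_le_pow_right₀ (by exact_mod_cast (by omega : 1 ≤ k)) (by norm_num)
  intro n hn β F sg dm h hFne hdm hdens
  obtain ⟨M, hM⟩ : ∃ M : ℕ, M = k ^ (80 * k + 160) := ⟨_, rfl⟩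
  obtain ⟨Bn, hBn⟩ : ∃ Bn : ℕ, Bn = k ^ (80 * k + 146) := ⟨_, rfl⟩
  obtain ⟨hM0, hB0, hWK, hδ, hlM, hnB, hnr, hB4⟩ := nums k n hk hn M Bn hM hBn
  have hK : (2 : ℝ) ≤ k := by exact_mod_cast hk
  have hM0' : 0 < M := by exact_mod_cast hM0
  have hB0' : 0 < Bn := by exact_mod_cast hB0
  have hr2 : 2 ≤ k ^ 40 := by
    calc 2 ≤ 2 ^ 40 := by norm_num
      _ ≤ k ^ 40 := Nat.pow_le_pow_left hk 40
  have hnpos : 0 < n := by omega
  -- the segments
  obtain ⟨T, hTm, hT⟩ := selT F sg dm (2 * k + 2) (by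
    intro x hx
    have h1 : ∑ j, (dm (sg j x)).card ≤ k ^ 40 * (k * n / k ^ 40 + 1) := by
      calc _ ≤ ∑ _j : Fin (k ^ 40), (k * n / k ^ 40 + 1) := sum_le_sum (fun j _ => hdm x hx j)
        _ = _ := by rw [sum_const, card_univ, Fintype.card_fin, smul_eq_mul]
    have h2 : k ^ 40 * (k * n / k ^ 40) ≤ k * n := Nat.mul_div_le _ _
    have h3 : k ^ 40 * (k * n / k ^ 40 + 1) ≤ k * n + n := by
      rw [mul_add, mul_one]
      omega
    calc 2 * ∑ j, (dm (sg j x)).card ≤ 2 * (k * n + n) := by omega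
      _ = (2 * k + 2) * n := by ring
      _ ≤ (2 * k + 2 + 1) * n := Nat.mul_le_mul_right _ (Nat.le_succ _))
  have hballM : ball (k ^ 40) (2 * k + 2) ≤ M := by
    refine (ball_le_pow _ _ hr2).trans (le_of_eq ?_)
    rw [hM, ← pow_mul]
    congr 1
    ring
  -- the inputs
  have hF1 := selF F (fun x => (univ \ DJ sg dm Tᶜ x).card) n M hnpos
    (fun x _ => by simpa using card_le_univ (univ \ DJ sg dm Tᶜ x))
    (hT.trans (Nat.mul_le_mul_right _ (Nat.mul_le_mul_left _ hballM)))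
  obtain ⟨F1, hF1def⟩ : ∃ F1, F1 = F.filter
    (fun x => n ≤ 4 * M * (univ \ DJ sg dm Tᶜ x).card) := ⟨_, rfl⟩
  rw [← hF1def] at hF1
  have hF1s : F1 ⊆ F := by
    rw [hF1def]
    exact filter_subset _ _
  obtain ⟨t0, ht0⟩ : ∃ t0, t0 = (2 * k + 2) * (k * n / k ^ 40 + 1) := ⟨_, rfl⟩
  obtain ⟨q, hq⟩ : ∃ q, q = n / Bn := ⟨_, rfl⟩
  -- the block
  obtain ⟨G, hGq, hG⟩ := selG F1 (fun x => univ \ DJ sg dm Tᶜ x) (fun x => DJ sg dm T x) Bn q t0
    hB4 (by rw [hq]; exact Nat.mul_div_le n Bn) (by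
      intro x hx
      unfold DJ
      refine card_biUnion_le.trans ?_
      calc ∑ j ∈ T, (dm (sg j x)).card ≤ ∑ _j ∈ T, (k * n / k ^ 40 + 1) :=
            sum_le_sum (fun j _ => hdm x (hF1s hx) j)
        _ = T.card * (k * n / k ^ 40 + 1) := by rw [sum_const, smul_eq_mul]
        _ ≤ _ := by
            rw [ht0]
            exact Nat.mul_le_mul_right _ hTm)
  obtain ⟨F2, hF2def⟩ : ∃ F2, F2 = F1.filter (fun x =>
      2 * ((univ \ DJ sg dm Tᶜ x) ∩ G).card ≤ (univ \ DJ sg dm Tᶜ x).card ∧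
      Bn * (DJ sg dm T x ∩ G).card ≤ 4 * t0) := ⟨_, rfl⟩
  rw [← hF2def] at hG
  have hF2s : F2 ⊆ F := by
    rw [hF2def]
    exact (filter_subset _ _).trans hF1s
  obtain ⟨s, hs⟩ : ∃ s, s = n / (8 * M) := ⟨_, rfl⟩
  obtain ⟨d, hd⟩ : ∃ d, d = 4 * t0 / Bn := ⟨_, rfl⟩
  have hsU : ∀ x ∈ F2, s ≤ ((univ \ DJ sg dm Tᶜ x) \ G).card := by
    intro x hx
    rw [hF2def, mem_filter, hF1def, mem_filter] at hx
    obtain ⟨⟨-, h1⟩, h2, -⟩ := hx
    have h3 := card_sdiff_add_card_inter (univ \ DJ sg dm Tᶜ x) G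
    rw [hs]
    refine Nat.div_le_of_le_mul ?_
    calc n ≤ 4 * M * (univ \ DJ sg dm Tᶜ x).card := h1
      _ ≤ 4 * M * (2 * ((univ \ DJ sg dm Tᶜ x) \ G).card) := Nat.mul_le_mul_left _ (by omega)
      _ = _ := by ring
  have hDU : ∀ x ∈ F2, (DJ sg dm Tᶜᶜ x ∩ G).card ≤ d := by
    intro x hx
    rw [hF2def, mem_filter] at hx
    rw [compl_compl, hd, Nat.le_div_iff_mul_le hB0', mul_comm]
    exact hx.2.2
  -- the sizes
  obtain ⟨bl, hbl⟩ : ∃ bl, bl = (G.powerset.filter (fun S => S.card ≤ d)).card := ⟨_, rfl⟩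
  have hbl0 : 0 < bl := by
    rw [hbl]
    exact card_pos.2 ⟨∅, mem_filter.2 ⟨mem_powerset.2 (empty_subset _), by simp⟩⟩
  have hsn : s ≤ n := by
    rw [hs]
    exact Nat.div_le_self _ _
  have hC0 : 0 < n.choose s := Nat.choose_pos hsn
  have hFF : F.card ≤ 8 * M * F2.card := by
    calc F.card ≤ 4 * M * F1.card := hF1
      _ ≤ 4 * M * (2 * F2.card) := Nat.mul_le_mul_left _ hG
      _ = _ := by ring
  have hf0 : 0 < F2.card := by
    rcases Nat.eq_zero_or_pos F2.card with h0 | h0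
    · rw [h0, mul_zero] at hFF
      have := hFne.card_pos
      omega
    · exact h0
  have hf0' : (0 : ℝ) < F2.card := by exact_mod_cast hf0
  have hbl0' : (0 : ℝ) < bl := by exact_mod_cast hbl0
  have hC0' : (0 : ℝ) < n.choose s := by exact_mod_cast hC0
  obtain ⟨W, hW⟩ : ∃ W : ℝ, W = n / M := ⟨_, rfl⟩
  rw [← hW] at hWK hδ hnB
  obtain ⟨δ, hδdef⟩ : ∃ δ : ℝ, δ = n / (k : ℝ) ^ (170 * k) := ⟨_, rfl⟩
  rw [← hδdef] at hδ hdens ⊢
  have hlog8 : Real.log 8 = 3 * Real.log 2 := by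
    rw [show (8 : ℝ) = 2 ^ 3 by norm_num, Real.log_pow]
    norm_num
  have hlog4 : Real.log 4 = 2 * Real.log 2 := by
    rw [show (4 : ℝ) = 2 ^ 2 by norm_num, Real.log_pow]
    norm_num
  have hlf : -δ - 3 * Real.log 2 - Real.log M ≤ Real.log F2.card - n * Real.log 2 := by
    have h1 : (F.card : ℝ) ≤ 8 * M * F2.card := by exact_mod_cast hFF
    have h2 := Real.log_le_log (by exact_mod_cast hFne.card_pos) h1
    rw [Real.log_mul (by positivity) hf0'.ne', Real.log_mul (by norm_num) hM0.ne', hlog8] at h2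
    linarith
  have hKR : (0 : ℝ) < k := by linarith
  have hW0 : 0 < W := lt_of_lt_of_le (by positivity) hWK
  have hlogK : Real.log k ≤ k := by
    have := Real.log_le_sub_one_of_pos hKR
    linarith
  have hlogK0 : 0 ≤ Real.log k := Real.log_nonneg (by linarith)
  have hs1 : W / 8 - 1 ≤ s := by
    have h1 := div_ge n (8 * M) (by omega)
    rw [← hs] at h1
    refine le_trans (le_of_eq ?_) h1
    rw [hW]
    push_cast
    field_simp
  have hs2 : (s : ℝ) ≤ W / 8 := by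
    rw [hs, hW]
    refine Nat.cast_div_le.trans (le_of_eq ?_)
    push_cast
    field_simp
  have hdR : (d : ℝ) ≤ W / (k : ℝ) ^ 19 := by
    refine d_le (k : ℝ) W n Bn t0 d hK hB0 (by exact_mod_cast hnr) hnB ?_ ?_
    · rw [ht0]
      push_cast
      refine mul_le_mul_of_nonneg_left ?_ (by positivity)
      have h1 : ((k * n / k ^ 40 : ℕ) : ℝ) ≤ ((k * n : ℕ) : ℝ) / ((k ^ 40 : ℕ) : ℝ) :=
        Nat.cast_div_le
      push_cast at h1
      linarith
    · rw [hd]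
      refine Nat.cast_div_le.trans (le_of_eq ?_)
      push_cast
      rfl
  have hq1 : W * (k : ℝ) ^ 14 - 1 ≤ q := by
    rw [← hnB, hq]
    exact div_ge n Bn hB0'
  have hq2 : (q : ℝ) ≤ W * (k : ℝ) ^ 14 := by
    rw [← hnB, hq]
    exact Nat.cast_div_le
  have hk18 : (2 : ℝ) ^ 18 ≤ (k : ℝ) ^ 18 := pow_le_pow_left₀ (by norm_num) hK 18
  have hlbl : Real.log bl ≤ W / 1000 := by
    have h1 := log_small G d (((k : ℝ) ^ 32)⁻¹) (by positivity)
      (inv_le_one_of_one_le₀ (one_le_pow₀ (by linarith)))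
    rw [← hbl, hGq, Real.log_inv, neg_neg, Real.log_pow] at h1
    push_cast at h1
    have h2 : ((k : ℝ) ^ 32)⁻¹ * q ≤ W / (k : ℝ) ^ 18 := by
      calc ((k : ℝ) ^ 32)⁻¹ * q ≤ ((k : ℝ) ^ 32)⁻¹ * (W * (k : ℝ) ^ 14) :=
            mul_le_mul_of_nonneg_left hq2 (by positivity)
        _ = _ := by field_simp
    have h3 : (d : ℝ) * (32 * Real.log k) ≤ 32 * (W / (k : ℝ) ^ 18) := by
      calc (d : ℝ) * (32 * Real.log k) ≤ (W / (k : ℝ) ^ 19) * (32 * k) :=
            mul_le_mul hdR (by linarith) (by linarith) (by positivity)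
        _ = _ := by field_simp
    have h4 : W / (k : ℝ) ^ 18 ≤ W / 2 ^ 18 :=
      div_le_div_of_nonneg_left hW0.le (by positivity) hk18
    have h5 : W / 2 ^ 18 * 33 ≤ W / 1000 := by
      rw [div_mul_eq_mul_div, div_le_div_iff₀ (by positivity) (by norm_num)]
      nlinarith
    linarith
  have hlC : Real.log (n.choose s) ≤ W + 20 * ((k : ℝ) ^ 2 * W) := by
    have h0 : (n.choose s : ℝ) ≤
        (((univ : Finset (Fin n)).powerset.filter (fun S => S.card ≤ s)).card : ℝ) := by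
      exact_mod_cast choose_le_ball n s
    have hM1 : (1 : ℝ) ≤ M := by exact_mod_cast hM0'
    have h1 := log_small (univ : Finset (Fin n)) s ((M : ℝ)⁻¹) (by positivity)
      (inv_le_one_of_one_le₀ hM1)
    rw [card_univ, Fintype.card_fin, Real.log_inv, neg_neg] at h1
    have h2 := Real.log_le_log hC0' h0
    have h3 : (M : ℝ)⁻¹ * n = W := by
      rw [hW]
      field_simp
    have h4 : (s : ℝ) * Real.log M ≤ (W / 8) * (160 * (k : ℝ) ^ 2) :=
      mul_le_mul hs2 hlM (Real.log_nonneg hM1) (by positivity)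
    rw [h3] at h1
    linarith
  have ht : 4096 * ((k : ℝ) ^ 2 * W) - 1 - W ≤ ((q - d : ℕ) : ℝ) := by
    have h1 : (q : ℝ) - d ≤ ((q - d : ℕ) : ℝ) := by
      rcases le_total d q with h | h
      · rw [Nat.cast_sub h]
      · have : (q : ℝ) ≤ d := by exact_mod_cast h
        have h2 : (0 : ℝ) ≤ ((q - d : ℕ) : ℝ) := Nat.cast_nonneg _
        linarith
    have h2 : W / (k : ℝ) ^ 19 ≤ W := div_le_self hW0.le (one_le_pow₀ (by linarith))
    have h3 : 4096 * ((k : ℝ) ^ 2 * W) ≤ W * (k : ℝ) ^ 14 := by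
      have h4 : (4096 : ℝ) ≤ (k : ℝ) ^ 12 := by
        calc (4096 : ℝ) = 2 ^ 12 := by norm_num
          _ ≤ _ := pow_le_pow_left₀ (by norm_num) hK 12
      calc 4096 * ((k : ℝ) ^ 2 * W) ≤ (k : ℝ) ^ 12 * ((k : ℝ) ^ 2 * W) :=
            mul_le_mul_of_nonneg_right h4 (by positivity)
        _ = _ := by ring
    linarith
  -- the rectangle
  obtain ⟨a, ha⟩ : ∃ a : ℝ, a = F2.card * 2 ^ s / (4 * 2 ^ n * bl) := ⟨_, rfl⟩
  obtain ⟨b, hb⟩ : ∃ b : ℝ, b = F2.card * 2 ^ (q - d) / (4 * 2 ^ n * n.choose s) := ⟨_, rfl⟩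
  have ha0 : 0 < a := by rw [ha]; positivity
  have hb0 : 0 < b := by rw [hb]; positivity
  have hrect := rectD (h.mono hF2s) Tᶜ G s d hsU hDU a b ha0.le hb0.le (by
    rw [← hbl, hGq]
    have e1 : a * (2 ^ n * bl / 2 ^ s) = F2.card / 4 := by
      rw [ha]
      field_simp
    have e2 : b * (2 ^ n * n.choose s / 2 ^ (q - d)) = F2.card / 4 := by
      rw [hb]
      field_simp
    rw [e1, e2]
    linarith)
  refine hrect.mono hF2s (le_min ?_ ?_)
  · rw [← Real.le_log_iff_exp_le ha0, ha, Real.log_div (by positivity) (by positivity),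
      Real.log_mul hf0'.ne' (by positivity), Real.log_mul (by positivity) hbl0'.ne',
      Real.log_mul (by norm_num) (by positivity), Real.log_pow, Real.log_pow, hlog4]
    have := numA (k : ℝ) W δ (Real.log M) (Real.log F2.card - n * Real.log 2) s (Real.log bl) hK
      hWK hδ hlM hlf hs1 hlbl
    linarith
  · rw [← Real.le_log_iff_exp_le hb0, hb, Real.log_div (by positivity) (by positivity),
      Real.log_mul hf0'.ne' (by positivity), Real.log_mul (by positivity) hC0'.ne',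
      Real.log_mul (by norm_num) (by positivity), Real.log_pow, Real.log_pow, hlog4]
    have := numB (k : ℝ) W δ (Real.log M) (Real.log F2.card - n * Real.log 2)
      ((q - d : ℕ) : ℝ) (Real.log (n.choose s)) hK hWK hδ hlM hlf ht hlC
    linarith

end SRBP
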