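import Pool.Agent.Lib.MP_9dcf40_lc.DT.Spec3
import Pool.Agent.Lib.MP_9dcf40_lc.LIN.QuaQ

/-! # Theorem DT, module DisQ: quartic polynomials with small discrepancy on all large rectangles -/

namespace SRBP

open Finset

namespace DisQAux

open scoped Classical in
/-- Peeling: if every large subset contains an `m`-set on which the sum is at most `δ m`, the sum is at most
`δ |B| + M t`. -/
theorem peel {α : Type} (φ : α → ℝ) (M δ : ℝ) (t m : ℕ) (hm : 0 < m) (hM : 0 ≤ M) (hδ : 0 ≤ δ)
    (B : Finset α) (hφ : ∀ b ∈ B, |φ b| ≤ M)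
    (h : ∀ B' ⊆ B, t < B'.card → ∃ B₁ ⊆ B', B₁.card = m ∧ |∑ b ∈ B₁, φ b| ≤ δ * m) :
    |∑ b ∈ B, φ b| ≤ δ * B.card + M * t := by
  have key : ∀ (k : ℕ) (B' : Finset α), B' ⊆ B → B'.card = k →
      |∑ b ∈ B', φ b| ≤ δ * B'.card + M * t := by
    intro k
    induction k using Nat.strong_induction_on with
    | _ k ih =>
      intro B' hB' hk
      rcases Nat.lt_or_ge t B'.card with ht | ht
      · obtain ⟨B₁, hB₁, hc, hs⟩ := h B' hB' ht
        have h1 : (B' \ B₁).card = B'.card - m := by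
          rw [card_sdiff_of_subset hB₁, hc]
        have h2 : m ≤ B'.card := by rw [← hc]; exact card_le_card hB₁
        have h3 := ih (B' \ B₁).card (by omega) (B' \ B₁) (sdiff_subset.trans hB') rfl
        have h4 : ∑ b ∈ B', φ b = ∑ b ∈ B' \ B₁, φ b + ∑ b ∈ B₁, φ b :=
          (sum_sdiff hB₁).symm
        have h5 : ((B' \ B₁).card : ℝ) = B'.card - m := by
          rw [h1, Nat.cast_sub h2]
        rw [h5] at h3
        calc |∑ b ∈ B', φ b| ≤ |∑ b ∈ B' \ B₁, φ b| + |∑ b ∈ B₁, φ b| := by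
              rw [h4]
              exact abs_add_le _ _
          _ ≤ (δ * (B'.card - m) + M * t) + δ * m := add_le_add h3 hs
          _ = δ * B'.card + M * t := by ring
      · calc |∑ b ∈ B', φ b| ≤ ∑ b ∈ B', |φ b| := abs_sum_le_sum_abs _ _
          _ ≤ ∑ _b ∈ B', M := sum_le_sum fun b hb => hφ b (hB' hb)
          _ = B'.card * M := by rw [sum_const, nsmul_eq_mul]
          _ ≤ t * M := mul_le_mul_of_nonneg_right (by exact_mod_cast ht) hM
          _ ≤ δ * B'.card + M * t := by nlinarith [mul_nonneg hδ (Nat.cast_nonneg (α := ℝ) B'.card)]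
  exact key B.card B (Subset.refl _) rfl

/-- A configuration for `W`. -/
def Conf {n : ℕ} (W : Finset (Fin n)) (a : Finset (Fin n) → Fin n → Bool) : Prop :=
  ∀ S ∈ two W, ∀ v ∈ W, (a S v = true ↔ v ∈ S)

theorem two_sub {n : ℕ} {W S : Finset (Fin n)} (h : S ∈ two W) : S ⊆ W :=
  mem_powerset.1 (mem_filter.1 h).1

theorem Conf.inj {n : ℕ} {W : Finset (Fin n)} {a : Finset (Fin n) → Fin n → Bool}
    (h : Conf W a) : ∀ S ∈ two W, ∀ S' ∈ two W, a S = a S' → S = S' := by
  intro S hS S' hS' he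
  ext v
  constructor
  · intro hv
    have h1 := (h S hS v (two_sub hS hv)).2 hv
    rw [he] at h1
    exact (h S' hS' v (two_sub hS hv)).1 h1
  · intro hv
    have h1 := (h S' hS' v (two_sub hS' hv)).2 hv
    rw [← he] at h1
    exact (h S hS v (two_sub hS' hv)).1 h1

open scoped Classical in
/-- A set with more than `(n+1)^d` elements contains a configuration for a set with `d` elements. -/
theorem shatter {n d : ℕ} (A : Finset (Fin n → Bool)) (hA : (n + 1) ^ d < A.card) :
    ∃ W : Finset (Fin n), W.card = d ∧ ∃ a : Finset (Fin n) → Fin n → Bool,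
      Conf W a ∧ ∀ S ∈ two W, a S ∈ A := by
  obtain ⟨𝒜, h𝒜⟩ : ∃ 𝒜 : Finset (Finset (Fin n)), 𝒜 = A.image QuaQAux.spp := ⟨_, rfl⟩
  have hcard : 𝒜.card = A.card := by
    rw [h𝒜]
    exact card_image_of_injective _ QuaQAux.spp_inj
  have hex : ∃ W ∈ 𝒜.shatterer, d ≤ W.card := by
    by_contra hcon
    push Not at hcon
    have h2 : 𝒜.shatterer ⊆ (univ : Finset (Finset (Fin n))).filter (fun S => S.card ≤ d) := by
      intro S hS
      exact mem_filter.2 ⟨mem_univ _, (hcon S hS).le⟩
    have h3 : A.card ≤ (n + 1) ^ d := by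
      rw [← hcard]
      exact le_trans (card_le_card_shatterer 𝒜) (le_trans (card_le_card h2) (QuaQAux.few _ _))
    omega
  obtain ⟨W', hW', hWc⟩ := hex
  obtain ⟨W, hWW, hWcard⟩ := exists_subset_card_eq hWc
  have hsh : 𝒜.Shatters W := (mem_shatterer.1 hW').mono_right hWW
  have h1 : ∀ S : Finset (Fin n), ∃ a : Fin n → Bool, S ∈ two W →
      a ∈ A ∧ ∀ v ∈ W, (a v = true ↔ v ∈ S) := by
    intro S
    by_cases hS : S ∈ two W
    · obtain ⟨u, hu, hWu⟩ := hsh (two_sub hS)
      rw [h𝒜] at hu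
      obtain ⟨a, ha, rfl⟩ := mem_image.1 hu
      refine ⟨a, fun _ => ⟨ha, fun v hv => ?_⟩⟩
      rw [← hWu, mem_inter]
      simp only [QuaQAux.spp, mem_filter, mem_univ, true_and]
      exact ⟨fun h => ⟨hv, h⟩, fun h => h.2⟩
    · exact ⟨fun _ => false, fun h => absurd h hS⟩
  choose a ha using h1
  exact ⟨W, hWcard, a, fun S hS => (ha S hS).2, fun S hS => (ha S hS).1⟩

/-- The coordinates on which the elements of a configuration differ. -/
theorem conf_diff {n : ℕ} {W : Finset (Fin n)} {a : Finset (Fin n) → Fin n → Bool}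
    {A : Finset (Fin n → Bool)} (h : Conf W a) (hA : ∀ S ∈ two W, a S ∈ A) (v : Fin n)
    (hv : ∀ x ∈ A, ∀ x' ∈ A, x v = x' v) : v ∉ W := by
  intro hvW
  have h0 : (∅ : Finset (Fin n)) ∈ two W := by simp [two]
  have h1 : ({v} : Finset (Fin n)) ∈ two W := by
    unfold two
    rw [mem_filter, mem_powerset, singleton_subset_iff, card_singleton]
    exact ⟨hvW, by norm_num⟩
  have e1 := hv _ (hA _ h0) _ (hA _ h1)
  have e2 : a {v} v = true := (h _ h1 v hvW).2 (mem_singleton_self v)
  rw [e2] at e1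
  exact absurd ((h _ h0 v hvW).1 e1) (notMem_empty v)

theorem chi_abs {n : ℕ} (f : (Fin n → Bool) → Prop) (y : Fin n → Bool) : |chi f y| ≤ 1 := by
  unfold chi
  split_ifs <;> simp

open scoped Classical in
/-- The union bound over the triples `(U, a, b)`. -/
theorem union (n m : ℕ) (η : ℝ) (hη : 0 ≤ η) (hH : S_Hoe) :
    (((univ : Finset (Coef n → Bool)).filter (fun c => ∃ (U : Finset (Fin n))
      (a b : Fin m → Fin n → Bool),
      (∀ x : Fin m → Fin m → ZMod 2, ((univ : Finset (Coef n → Bool)).filter (fun c' => ∀ i j,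
        quartic c' (glue U (a i) (b j)) = x i j)).card * 2 ^ (m * m) ≤
          2 ^ Fintype.card (Coef n)) ∧
      η * (m * m : ℕ) < |∑ i, ∑ j, chi (fun y => quartic c y = 1) (glue U (a i) (b j))|)).card : ℝ) ≤
    2 ^ (n + 2 * n * m) * (2 * Real.exp (-(η ^ 2 * (m * m : ℕ) / 2)) *
      2 ^ Fintype.card (Coef n)) := by
  set Nice : Finset (Fin n) × (Fin m → Fin n → Bool) × (Fin m → Fin n → Bool) → Prop := fun t =>
    ∀ x : Fin m → Fin m → ZMod 2, ((univ : Finset (Coef n → Bool)).filter (fun c' => ∀ i j,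
        quartic c' (glue t.1 (t.2.1 i) (t.2.2 j)) = x i j)).card * 2 ^ (m * m) ≤
          2 ^ Fintype.card (Coef n) with hNice
  set G : Finset (Fin n) × (Fin m → Fin n → Bool) × (Fin m → Fin n → Bool) →
      Finset (Coef n → Bool) := fun t =>
    (univ : Finset (Coef n → Bool)).filter (fun c => η * (m * m : ℕ) <
      |∑ i, ∑ j, chi (fun y => quartic c y = 1) (glue t.1 (t.2.1 i) (t.2.2 j))|) with hG
  set H : Finset (Fin n) × (Fin m → Fin n → Bool) × (Fin m → Fin n → Bool) →
      Finset (Coef n → Bool) := fun t => if Nice t then G t else ∅ with hHd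
  have hcardα : Fintype.card (Fin m × Fin m) = m * m := by simp
  -- one triple
  have hone : ∀ t, Nice t → ((G t).card : ℝ) ≤ 2 * Real.exp (-(η ^ 2 * (m * m : ℕ) / 2)) *
      2 ^ Fintype.card (Coef n) := by
    intro t ht
    set Bd : Finset (Fin m × Fin m → Bool) := (univ : Finset (Fin m × Fin m → Bool)).filter
      (fun x => η * Fintype.card (Fin m × Fin m) < |∑ i, (if x i then (1 : ℝ) else -1)|) with hBd
    set pat : (Coef n → Bool) → Fin m × Fin m → Bool := fun c p =>
      decide (quartic c (glue t.1 (t.2.1 p.1) (t.2.2 p.2)) = 1) with hpat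
    have h1 : ∀ c ∈ G t, pat c ∈ Bd := by
      intro c hc
      have h2 := (mem_filter.1 hc).2
      refine mem_filter.2 ⟨mem_univ _, ?_⟩
      have h3 : ∑ p : Fin m × Fin m, (if pat c p then (1 : ℝ) else -1) =
          ∑ i, ∑ j, chi (fun y => quartic c y = 1) (glue t.1 (t.2.1 i) (t.2.2 j)) := by
        rw [Fintype.sum_prod_type]
        refine sum_congr rfl fun i _ => sum_congr rfl fun j _ => ?_
        unfold chi
        simp only [hpat, decide_eq_true_eq]
        by_cases hq : quartic c (glue t.1 (t.2.1 i) (t.2.2 j)) = 1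
        · rw [if_pos hq, if_pos hq]
        · rw [if_neg hq, if_neg hq]
      rw [h3, hcardα]
      exact h2
    have h2 : ∀ x ∈ Bd, (((G t).filter (fun c => pat c = x)).card : ℝ) ≤
        2 ^ Fintype.card (Coef n) / 2 ^ (m * m) := by
      intro x _
      have h3 := ht (fun i j => if x (i, j) then 1 else 0)
      have h4 : ((G t).filter (fun c => pat c = x)) ⊆
          ((univ : Finset (Coef n → Bool)).filter (fun c' => ∀ i j,
            quartic c' (glue t.1 (t.2.1 i) (t.2.2 j)) = if x (i, j) then 1 else 0)) := by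
        intro c hc
        have h5 := (mem_filter.1 hc).2
        refine mem_filter.2 ⟨mem_univ _, fun i j => ?_⟩
        have h6 : pat c (i, j) = x (i, j) := by rw [h5]
        simp only [hpat] at h6
        cases hx : x (i, j)
        · rw [hx, decide_eq_false_iff_not] at h6
          simp only [Bool.false_eq_true, if_false]
          revert h6
          generalize quartic c (glue t.1 (t.2.1 i) (t.2.2 j)) = z
          revert z
          decide
        · rw [hx, decide_eq_true_iff] at h6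
          simp only [if_true]
          exact h6
      rw [le_div_iff₀ (by positivity)]
      have h5 : ((G t).filter (fun c => pat c = x)).card * 2 ^ (m * m) ≤
          2 ^ Fintype.card (Coef n) := (Nat.mul_le_mul_right _ (card_le_card h4)).trans h3
      exact_mod_cast h5
    have h3 : ((G t).card : ℝ) ≤ Bd.card * (2 ^ Fintype.card (Coef n) / 2 ^ (m * m)) := by
      rw [card_eq_sum_card_fiberwise (f := pat) (t := Bd) (fun c hc => h1 c hc)]
      push_cast
      calc ∑ x ∈ Bd, (((G t).filter (fun c => pat c = x)).card : ℝ) ≤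
            ∑ _x ∈ Bd, ((2 : ℝ) ^ Fintype.card (Coef n) / 2 ^ (m * m)) := sum_le_sum h2
        _ = _ := by rw [sum_const, nsmul_eq_mul]
    have h4 := hH (Fin m × Fin m) η hη
    rw [← hBd, hcardα] at h4
    calc ((G t).card : ℝ) ≤ Bd.card * (2 ^ Fintype.card (Coef n) / 2 ^ (m * m)) := h3
      _ ≤ (2 * 2 ^ (m * m) * Real.exp (-(η ^ 2 * (m * m : ℕ) / 2))) *
            (2 ^ Fintype.card (Coef n) / 2 ^ (m * m)) :=
          mul_le_mul_of_nonneg_right h4 (by positivity)
      _ = _ := by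
          field_simp
  have hHle : ∀ t, ((H t).card : ℝ) ≤ 2 * Real.exp (-(η ^ 2 * (m * m : ℕ) / 2)) *
      2 ^ Fintype.card (Coef n) := by
    intro t
    show ((if Nice t then G t else ∅ : Finset (Coef n → Bool)).card : ℝ) ≤ _
    split_ifs with h
    · exact hone t h
    · rw [card_empty, Nat.cast_zero]
      positivity
  have h1 : ((univ : Finset (Coef n → Bool)).filter (fun c => ∃ (U : Finset (Fin n))
      (a b : Fin m → Fin n → Bool),
      (∀ x : Fin m → Fin m → ZMod 2, ((univ : Finset (Coef n → Bool)).filter (fun c' => ∀ i j,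
        quartic c' (glue U (a i) (b j)) = x i j)).card * 2 ^ (m * m) ≤
          2 ^ Fintype.card (Coef n)) ∧
      η * (m * m : ℕ) < |∑ i, ∑ j, chi (fun y => quartic c y = 1) (glue U (a i) (b j))|)) ⊆
      univ.biUnion H := by
    intro c hc
    obtain ⟨U, a, b, h2, h3⟩ := (mem_filter.1 hc).2
    refine mem_biUnion.2 ⟨(U, a, b), mem_univ _, ?_⟩
    show c ∈ if Nice (U, a, b) then G (U, a, b) else ∅
    rw [if_pos h2]
    exact mem_filter.2 ⟨mem_univ _, h3⟩
  have hT : Fintype.card (Finset (Fin n) × (Fin m → Fin n → Bool) × (Fin m → Fin n → Bool)) =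
      2 ^ (n + 2 * n * m) := by
    simp only [Fintype.card_prod, Fintype.card_finset, Fintype.card_fun, Fintype.card_fin,
      Fintype.card_bool, ← pow_mul, ← pow_add]
    congr 1
    ring
  refine le_trans (Nat.cast_le.2 ((card_le_card h1).trans card_biUnion_le)) ?_
  push_cast
  calc ∑ t, ((H t).card : ℝ) ≤ ∑ _t : Finset (Fin n) × (Fin m → Fin n → Bool) ×
        (Fin m → Fin n → Bool), (2 * Real.exp (-(η ^ 2 * (m * m : ℕ) / 2)) *
        2 ^ Fintype.card (Coef n)) := by
        push_cast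
        exact sum_le_sum fun t _ => by simpa using hHle t
    _ = _ := by
        rw [sum_const, card_univ, hT, nsmul_eq_mul]
        push_cast
        ring

/-- The numbers. -/
theorem nums {n : ℕ} (hn : 13 ^ 16 ≤ n) : ∃ d : ℕ,
    4 * (n : ℝ) ≤ ((n : ℝ) ^ (-(1 / 16) : ℝ)) ^ 2 * ((1 + d + d.choose 2 : ℕ) : ℝ) ∧
    (((n : ℝ) + 1) ^ d) ≤ (n : ℝ) ^ (-(1 / 16) : ℝ) * Real.exp ((n : ℝ) ^ (3 / 4 : ℝ)) := by
  have hn0 : (0 : ℝ) ≤ n := Nat.cast_nonneg n
  have hnR : (13 : ℝ) ^ 16 ≤ n := by exact_mod_cast hn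
  obtain ⟨u, hu⟩ : ∃ u : ℝ, u = (n : ℝ) ^ (1 / 16 : ℝ) := ⟨_, rfl⟩
  have hu0 : 0 ≤ u := by
    rw [hu]
    exact Real.rpow_nonneg hn0 _
  have hu16 : u ^ 16 = n := by
    rw [hu, ← Real.rpow_natCast, ← Real.rpow_mul hn0]
    norm_num
  have hu13 : 13 ≤ u := by
    by_contra h
    rw [not_le] at h
    have h1 : u ^ 16 < 13 ^ 16 := pow_lt_pow_left₀ h hu0 (by norm_num)
    rw [hu16] at h1
    linarith
  have hupos : 0 < u := by linarith
  have h34 : (n : ℝ) ^ (3 / 4 : ℝ) = u ^ 12 := by
    rw [hu, ← Real.rpow_natCast, ← Real.rpow_mul hn0]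
    norm_num
  have hm16 : (n : ℝ) ^ (-(1 / 16) : ℝ) = u⁻¹ := by
    rw [hu, Real.rpow_neg hn0]
  have hlog : Real.log ((n : ℝ) + 1) ≤ 32 * u := by
    have h1 : Real.log ((n : ℝ) + 1) ≤ ((n : ℝ) + 1) ^ (1 / 16 : ℝ) / (1 / 16) :=
      Real.log_le_rpow_div (by linarith) (by norm_num)
    have h2 : ((n : ℝ) + 1) ^ (1 / 16 : ℝ) ≤ 2 * u := by
      have h3 : (n : ℝ) + 1 ≤ (2 * u) ^ 16 := by
        rw [mul_pow, hu16]
        have : (1 : ℝ) ≤ n := le_trans (by norm_num) hnR
        linarith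
      calc ((n : ℝ) + 1) ^ (1 / 16 : ℝ) ≤ ((2 * u) ^ 16) ^ (1 / 16 : ℝ) :=
            Real.rpow_le_rpow (by linarith) h3 (by norm_num)
        _ = 2 * u := by
          rw [← Real.rpow_natCast, ← Real.rpow_mul (by linarith)]
          norm_num
    linarith
  have hlog0 : 0 ≤ Real.log ((n : ℝ) + 1) := Real.log_nonneg (by linarith)
  refine ⟨⌈4 * u ^ 9⌉₊, ?_, ?_⟩
  · set d := ⌈4 * u ^ 9⌉₊ with hd
    have h1 : 4 * u ^ 9 ≤ d := Nat.le_ceil _
    have h2 : ((1 + d + d.choose 2 : ℕ) : ℝ) = 1 + d + (d : ℝ) * (d - 1) / 2 := by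
      push_cast
      rw [Nat.cast_choose_two]
    have h3 : 4 * u ^ 18 ≤ ((1 + d + d.choose 2 : ℕ) : ℝ) := by
      rw [h2]
      have h4 : (4 * u ^ 9) ^ 2 ≤ (d : ℝ) ^ 2 := pow_le_pow_left₀ (by positivity) h1 2
      have h5 : (4 * u ^ 9) ^ 2 = 16 * u ^ 18 := by ring
      have h6 : (0 : ℝ) ≤ d := Nat.cast_nonneg d
      nlinarith [pow_pos hupos 18]
    rw [hm16, ← hu16]
    calc 4 * u ^ 16 = (u⁻¹) ^ 2 * (4 * u ^ 18) := by
          field_simp
      _ ≤ (u⁻¹) ^ 2 * ((1 + d + d.choose 2 : ℕ) : ℝ) :=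
          mul_le_mul_of_nonneg_left h3 (by positivity)
  · set d := ⌈4 * u ^ 9⌉₊ with hd
    have h1 : (d : ℝ) ≤ 5 * u ^ 9 := by
      have h2 : (d : ℝ) < 4 * u ^ 9 + 1 := Nat.ceil_lt_add_one (by positivity)
      have h3 : 1 ≤ u ^ 9 := one_le_pow₀ (by linarith)
      linarith
    rw [hm16, h34]
    have h2 : (n : ℝ) + 1 = Real.exp (Real.log ((n : ℝ) + 1)) :=
      (Real.exp_log (by linarith)).symm
    have h3 : u⁻¹ = Real.exp (-Real.log u) := by
      rw [Real.exp_neg, Real.exp_log hupos]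
    rw [h2, h3, ← Real.exp_nat_mul, ← Real.exp_add]
    refine Real.exp_le_exp.2 ?_
    have h4 : Real.log u ≤ u := by
      have := Real.log_le_sub_one_of_pos hupos
      linarith
    have h5 : (d : ℝ) * Real.log ((n : ℝ) + 1) ≤ (5 * u ^ 9) * (32 * u) :=
      mul_le_mul h1 hlog hlog0 (by positivity)
    have h6 : (5 * u ^ 9) * (32 * u) = 160 * u ^ 10 := by ring
    have h7 : u ≤ u ^ 10 := by
      calc u = u ^ 1 := (pow_one u).symm
        _ ≤ u ^ 10 := pow_le_pow_right₀ (by linarith) (by norm_num)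
    have h8 : 161 * u ^ 10 ≤ u ^ 12 := by
      have h9 : u ^ 12 = u ^ 2 * u ^ 10 := by ring
      rw [h9]
      refine mul_le_mul_of_nonneg_right ?_ (by positivity)
      nlinarith
    linarith

end DisQAux

open scoped Classical in
open DisQAux in
theorem tDisQ (hP : S_Pat) (hH : S_Hoe) : S_DisQ := by
  refine ⟨13 ^ 16, ?_⟩
  intro n hn
  have hn1 : 1 ≤ n := le_trans (by norm_num) hn
  obtain ⟨d, hd1, hd2⟩ := nums hn
  set η : ℝ := (n : ℝ) ^ (-(1 / 16) : ℝ) with hη
  have hη0 : 0 < η := Real.rpow_pos_of_pos (by exact_mod_cast hn1) _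
  have hη1 : η ≤ 1 := Real.rpow_le_one_of_one_le_of_nonpos (by exact_mod_cast hn1) (by norm_num)
  set m : ℕ := 1 + d + d.choose 2 with hm
  have hnR : (1 : ℝ) ≤ n := by exact_mod_cast hn1
  -- a good coefficient vector
  have hU := union n m η hη0.le hH
  set X : Finset (Coef n → Bool) := (univ : Finset (Coef n → Bool)).filter (fun c =>
      ∃ (U : Finset (Fin n)) (a b : Fin m → Fin n → Bool),
      (∀ x : Fin m → Fin m → ZMod 2, ((univ : Finset (Coef n → Bool)).filter (fun c' => ∀ i j,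
        quartic c' (glue U (a i) (b j)) = x i j)).card * 2 ^ (m * m) ≤
          2 ^ Fintype.card (Coef n)) ∧
      η * (m * m : ℕ) < |∑ i, ∑ j, chi (fun y => quartic c y = 1) (glue U (a i) (b j))|) with hX
  have hlt : X.card < (univ : Finset (Coef n → Bool)).card := by
    have h1 : (univ : Finset (Coef n → Bool)).card = 2 ^ Fintype.card (Coef n) := by
      rw [card_univ, Fintype.card_fun, Fintype.card_bool]
    rw [h1]
    have h2 : (2 : ℝ) ^ (n + 2 * n * m) * (2 * Real.exp (-(η ^ 2 * (m * m : ℕ) / 2))) < 1 := by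
      have h3 : (2 : ℝ) ^ (n + 2 * n * m) * 2 = Real.exp ((n + 2 * n * m + 1 : ℕ) * Real.log 2) := by
        rw [Real.exp_nat_mul, Real.exp_log (by norm_num), pow_succ]
      rw [← mul_assoc, h3, ← Real.exp_add, Real.exp_lt_one_iff]
      have h4 : Real.log 2 < 0.7 := lt_of_lt_of_le Real.log_two_lt_d9 (by norm_num)
      have hmR : (4 : ℝ) ≤ m := by
        have h5 : η ^ 2 ≤ 1 := pow_le_one₀ hη0.le hη1
        have h6 : (0 : ℝ) ≤ m := Nat.cast_nonneg m
        nlinarith
      have h5 : 2 * (n : ℝ) * m ≤ η ^ 2 * (m * m : ℕ) / 2 := by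
        push_cast
        have h6 : (0 : ℝ) ≤ m := Nat.cast_nonneg m
        nlinarith [mul_le_mul_of_nonneg_right hd1 h6]
      have h6 : ((n + 2 * n * m + 1 : ℕ) : ℝ) * Real.log 2 < 2 * (n : ℝ) * m := by
        push_cast
        have h7 : ((n : ℝ) + 2 * n * m + 1) * Real.log 2 ≤ ((n : ℝ) + 2 * n * m + 1) * 0.7 :=
          mul_le_mul_of_nonneg_left h4.le (by positivity)
        nlinarith
      linarith
    have h3 : (X.card : ℝ) < 2 ^ Fintype.card (Coef n) := by
      calc (X.card : ℝ) ≤ 2 ^ (n + 2 * n * m) * (2 * Real.exp (-(η ^ 2 * (m * m : ℕ) / 2)) *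
            2 ^ Fintype.card (Coef n)) := hU
        _ = (2 ^ (n + 2 * n * m) * (2 * Real.exp (-(η ^ 2 * (m * m : ℕ) / 2)))) *
            2 ^ Fintype.card (Coef n) := by ring
        _ < 1 * 2 ^ Fintype.card (Coef n) := mul_lt_mul_of_pos_right h2 (by positivity)
        _ = _ := one_mul _
    exact_mod_cast h3
  obtain ⟨c, -, hcX⟩ : ∃ c ∈ (univ : Finset (Coef n → Bool)), c ∉ X := by
    by_contra hcon
    push Not at hcon
    exact absurd (card_le_card hcon) (not_le.2 hlt)
  refine ⟨c, ?_⟩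
  -- configurations are balanced
  have hconf : ∀ (U W W' : Finset (Fin n)) (a b : Finset (Fin n) → Fin n → Bool), W ⊆ U →
      Disjoint W' U → W.card = d → W'.card = d → Conf W a → Conf W' b →
      |∑ S ∈ two W, ∑ S' ∈ two W', chi (fun y => quartic c y = 1) (glue U (a S) (b S'))| ≤
        η * (m * m : ℕ) := by
    intro U W W' a b hWU hWU' hWc hWc' ha hb
    by_contra hcon
    rw [not_le] at hcon
    have hcW : (two W).card = m := by rw [QuaQAux.card_two, hWc]
    have hcW' : (two W').card = m := by rw [QuaQAux.card_two, hWc']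
    set p := (two W).equivFinOfCardEq hcW with hp
    set p' := (two W').equivFinOfCardEq hcW' with hp'
    apply hcX
    rw [hX, mem_filter]
    refine ⟨mem_univ _, U, fun i => a (p.symm i), fun j => b (p'.symm j), ?_, ?_⟩
    · intro x
      have h1 := hP n U W W' hWU hWU' a b ha hb
        (fun S S' => if h : S ∈ two W ∧ S' ∈ two W' then x (p ⟨S, h.1⟩) (p' ⟨S', h.2⟩) else 0)
      rw [hcW, hcW'] at h1
      refine le_trans (le_of_eq ?_) h1
      congr 1
      refine congrArg card ?_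
      ext c'
      rw [mem_filter, mem_filter]
      constructor
      · rintro ⟨_, h⟩
        refine ⟨mem_univ _, fun S hS S' hS' => ?_⟩
        have h5 := h (p ⟨S, hS⟩) (p' ⟨S', hS'⟩)
        simp only [Equiv.symm_apply_apply] at h5
        rw [dif_pos ⟨hS, hS'⟩]
        exact h5
      · rintro ⟨_, h⟩
        refine ⟨mem_univ _, fun i j => ?_⟩
        have h5 := h _ (p.symm i).2 _ (p'.symm j).2
        rw [dif_pos ⟨(p.symm i).2, (p'.symm j).2⟩] at h5
        simp only [Subtype.coe_eta, Equiv.apply_symm_apply] at h5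
        exact h5
    · refine lt_of_lt_of_eq hcon ?_
      congr 1
      rw [← Finset.sum_coe_sort (two W), ← Equiv.sum_comp p.symm]
      refine sum_congr rfl fun i _ => ?_
      rw [← Finset.sum_coe_sort (two W'), ← Equiv.sum_comp p'.symm]
  -- rectangles
  intro t ht U A B hA hB hAU hBU
  set h : (Fin n → Bool) → (Fin n → Bool) → ℝ := fun a b =>
    chi (fun y => quartic c y = 1) (glue U a b) with hh
  set T : ℕ := (n + 1) ^ d with hT
  have hmpos : 0 < m := by omega
  have habs : ∀ (s : Finset (Fin n → Bool)) (φ : (Fin n → Bool) → ℝ), (∀ x, |φ x| ≤ 1) →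
      |∑ x ∈ s, φ x| ≤ s.card := by
    intro s φ hφ
    calc |∑ x ∈ s, φ x| ≤ ∑ x ∈ s, |φ x| := abs_sum_le_sum_abs _ _
      _ ≤ ∑ _x ∈ s, (1 : ℝ) := sum_le_sum fun x _ => hφ x
      _ = s.card := by simp
  -- one configuration on the left, everything on the right
  have hleft : ∀ (W : Finset (Fin n)) (a : Finset (Fin n) → Fin n → Bool), W ⊆ U →
      W.card = d → Conf W a → |∑ b ∈ B, ∑ S ∈ two W, h (a S) b| ≤ (η * m) * B.card + m * T := by
    intro W a hWU hWc ha
    have hcW : (two W).card = m := by rw [QuaQAux.card_two, hWc]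
    refine peel (fun b => ∑ S ∈ two W, h (a S) b) m (η * m) T m hmpos (Nat.cast_nonneg _)
      (by positivity) B ?_ ?_
    · intro b _
      calc |∑ S ∈ two W, h (a S) b| ≤ ∑ S ∈ two W, |h (a S) b| := abs_sum_le_sum_abs _ _
        _ ≤ ∑ _S ∈ two W, (1 : ℝ) := sum_le_sum fun S _ => chi_abs _ _
        _ = m := by simp [hcW]
    · intro B' hB' hBc
      obtain ⟨W', hWc', b, hb, hbB⟩ := shatter (d := d) B' hBc
      have hcW' : (two W').card = m := by rw [QuaQAux.card_two, hWc']
      have hWU' : Disjoint W' U := by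
        rw [disjoint_left]
        intro v hv hvU
        exact conf_diff hb hbB v (fun x hx x' hx' => hBU x (hB' hx) x' (hB' hx') v hvU) hv
      refine ⟨(two W').image b, ?_, ?_, ?_⟩
      · intro x hx
        obtain ⟨S, hS, rfl⟩ := mem_image.1 hx
        exact hbB S hS
      · rw [card_image_of_injOn (fun S hS S' hS' he => hb.inj S hS S' hS' he), hcW']
      · rw [sum_image (fun S hS S' hS' he => hb.inj S hS S' hS' he), sum_comm]
        refine (hconf U W W' a b hWU hWU' hWc hWc' ha hb).trans (le_of_eq ?_)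
        push_cast
        ring
  have hmain : |∑ a ∈ A, ∑ b ∈ B, h a b| ≤ (η * B.card + T) * A.card + B.card * T := by
    refine peel (fun a => ∑ b ∈ B, h a b) B.card (η * B.card + T) T m hmpos (Nat.cast_nonneg _)
      (by positivity) A ?_ ?_
    · intro a _
      exact habs B _ fun b => chi_abs _ _
    · intro A' hA' hAc
      obtain ⟨W, hWc, a, ha, haA⟩ := shatter (d := d) A' hAc
      have hcW : (two W).card = m := by rw [QuaQAux.card_two, hWc]
      have hWU : W ⊆ U := by
        intro v hv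
        by_contra hvU
        exact conf_diff ha haA v (fun x hx x' hx' => hAU x (hA' hx) x' (hA' hx') v hvU) hv
      refine ⟨(two W).image a, ?_, ?_, ?_⟩
      · intro x hx
        obtain ⟨S, hS, rfl⟩ := mem_image.1 hx
        exact haA S hS
      · rw [card_image_of_injOn (fun S hS S' hS' he => ha.inj S hS S' hS' he), hcW]
      · rw [sum_image (fun S hS S' hS' he => ha.inj S hS S' hS' he), sum_comm]
        refine (hleft W a hWU hWc ha).trans (le_of_eq ?_)
        ring
  -- numbers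
  have hTA : (T : ℝ) ≤ η * A.card := by
    have h1 : (T : ℝ) = ((n : ℝ) + 1) ^ d := by
      rw [hT]
      push_cast
      ring
    rw [h1]
    refine hd2.trans (mul_le_mul_of_nonneg_left ?_ hη0.le)
    exact ht.trans (by exact_mod_cast hA)
  have hTB : (T : ℝ) ≤ η * B.card := by
    have h1 : (T : ℝ) = ((n : ℝ) + 1) ^ d := by
      rw [hT]
      push_cast
      ring
    rw [h1]
    refine hd2.trans (mul_le_mul_of_nonneg_left ?_ hη0.le)
    exact ht.trans (by exact_mod_cast hB)
  have hA0 : (0 : ℝ) ≤ A.card := Nat.cast_nonneg _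
  have hB0 : (0 : ℝ) ≤ B.card := Nat.cast_nonneg _
  calc |∑ a ∈ A, ∑ b ∈ B, chi (fun y => quartic c y = 1) (glue U a b)| ≤
        (η * B.card + T) * A.card + B.card * T := hmain
    _ ≤ (η * B.card + η * B.card) * A.card + B.card * (η * A.card) := by
        gcongr
    _ = 3 * η * (A.card * B.card) := by ring

end SRBP
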