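import Pool.Agent.Lib.MP_9dcf40_lc.DT.Spec3

/-! # Theorem DT, module Hoe: Hoeffding's inequality for signs -/

namespace SRBP

open Finset

namespace HoeAux

variable {α : Type} [Fintype α] [DecidableEq α]

/-- The exponential moment. -/
theorem mom (η : ℝ) : ∑ x : α → Bool, Real.exp (η * ∑ i, (if x i then (1 : ℝ) else -1)) =
    (Real.exp η + Real.exp (-η)) ^ Fintype.card α := by
  have h1 : ∀ x : α → Bool, Real.exp (η * ∑ i, (if x i then (1 : ℝ) else -1)) =
      ∏ i, (if x i then Real.exp η else Real.exp (-η)) := by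
    intro x
    rw [Finset.mul_sum, Real.exp_sum]
    refine Finset.prod_congr rfl fun i _ => ?_
    cases x i <;> simp
  have h2 : (Real.exp η + Real.exp (-η)) ^ Fintype.card α =
      ∏ _i : α, ∑ b : Bool, (if b then Real.exp η else Real.exp (-η)) := by
    rw [Finset.prod_const, Finset.card_univ]
    simp
  rw [h2, Finset.prod_univ_sum, Fintype.piFinset_univ]
  exact Finset.sum_congr rfl fun x _ => h1 x

theorem mom_le (η : ℝ) : ∑ x : α → Bool, Real.exp (η * ∑ i, (if x i then (1 : ℝ) else -1)) ≤
    2 ^ Fintype.card α * Real.exp (η ^ 2 * Fintype.card α / 2) := by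
  rw [mom]
  have h1 : Real.exp η + Real.exp (-η) ≤ 2 * Real.exp (η ^ 2 / 2) := by
    have := Real.cosh_le_exp_half_sq η
    rw [Real.cosh_eq] at this
    linarith
  calc (Real.exp η + Real.exp (-η)) ^ Fintype.card α ≤
        (2 * Real.exp (η ^ 2 / 2)) ^ Fintype.card α :=
        pow_le_pow_left₀ (by positivity) h1 _
    _ = 2 ^ Fintype.card α * Real.exp (η ^ 2 * Fintype.card α / 2) := by
        rw [mul_pow, ← Real.exp_nat_mul]
        congr 2
        ring

/-- One side. -/
theorem side (s η : ℝ) (hs : s ^ 2 = 1) (hη : 0 ≤ η) :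
    (((univ : Finset (α → Bool)).filter
      (fun x => η * Fintype.card α < s * ∑ i, (if x i then (1 : ℝ) else -1))).card : ℝ) ≤
      2 ^ Fintype.card α * Real.exp (-(η ^ 2 * Fintype.card α / 2)) := by
  set N : ℝ := (Fintype.card α : ℝ) with hN
  set X := (univ : Finset (α → Bool)).filter
      (fun x => η * N < s * ∑ i, (if x i then (1 : ℝ) else -1)) with hX
  have h1 : (X.card : ℝ) * Real.exp (η ^ 2 * N) ≤
      2 ^ Fintype.card α * Real.exp (η ^ 2 * N / 2) := by
    calc (X.card : ℝ) * Real.exp (η ^ 2 * N) = ∑ _x ∈ X, Real.exp (η ^ 2 * N) := by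
          rw [Finset.sum_const, nsmul_eq_mul]
      _ ≤ ∑ x ∈ X, Real.exp ((s * η) * ∑ i, (if x i then (1 : ℝ) else -1)) := by
          refine Finset.sum_le_sum fun x hx => Real.exp_le_exp.2 ?_
          have h2 := (mem_filter.1 hx).2
          have h3 := mul_le_mul_of_nonneg_left h2.le hη
          calc η ^ 2 * N = η * (η * N) := by ring
            _ ≤ η * (s * ∑ i, (if x i then (1 : ℝ) else -1)) := h3
            _ = _ := by ring
      _ ≤ ∑ x : α → Bool, Real.exp ((s * η) * ∑ i, (if x i then (1 : ℝ) else -1)) :=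
          Finset.sum_le_sum_of_subset_of_nonneg (Finset.subset_univ _)
            fun x _ _ => (Real.exp_pos _).le
      _ ≤ 2 ^ Fintype.card α * Real.exp ((s * η) ^ 2 * Fintype.card α / 2) := mom_le _
      _ = _ := by rw [mul_pow, hs, one_mul]
  have h4 : Real.exp (-(η ^ 2 * N / 2)) * Real.exp (η ^ 2 * N) = Real.exp (η ^ 2 * N / 2) := by
    rw [← Real.exp_add]
    congr 1
    ring
  have h5 : (X.card : ℝ) * Real.exp (η ^ 2 * N) ≤
      (2 ^ Fintype.card α * Real.exp (-(η ^ 2 * N / 2))) * Real.exp (η ^ 2 * N) := by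
    rw [mul_assoc, h4]
    exact h1
  exact le_of_mul_le_mul_right h5 (Real.exp_pos _)

end HoeAux

open scoped Classical in
open HoeAux in
theorem tHoe : S_Hoe := by
  intro α _ _ η hη
  have h1 := side (α := α) 1 η (by norm_num) hη
  have h2 := side (α := α) (-1) η (by norm_num) hη
  have h3 : ((univ : Finset (α → Bool)).filter
      (fun x => η * Fintype.card α < |∑ i, (if x i then (1 : ℝ) else -1)|)) ⊆
      ((univ : Finset (α → Bool)).filter
        (fun x => η * Fintype.card α < 1 * ∑ i, (if x i then (1 : ℝ) else -1))) ∪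
      ((univ : Finset (α → Bool)).filter
        (fun x => η * Fintype.card α < (-1) * ∑ i, (if x i then (1 : ℝ) else -1))) := by
    intro x hx
    have h4 := (mem_filter.1 hx).2
    rw [mem_union]
    rcases lt_abs.1 h4 with h5 | h5
    · left
      exact mem_filter.2 ⟨mem_univ _, by rwa [one_mul]⟩
    · right
      exact mem_filter.2 ⟨mem_univ _, by rwa [neg_one_mul]⟩
  have h4 : (((univ : Finset (α → Bool)).filter
      (fun x => η * Fintype.card α < |∑ i, (if x i then (1 : ℝ) else -1)|)).card : ℝ) ≤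
      (((univ : Finset (α → Bool)).filter
        (fun x => η * Fintype.card α < 1 * ∑ i, (if x i then (1 : ℝ) else -1))).card : ℝ) +
      (((univ : Finset (α → Bool)).filter
        (fun x => η * Fintype.card α < (-1) * ∑ i, (if x i then (1 : ℝ) else -1))).card : ℝ) := by
    exact_mod_cast (card_le_card h3).trans (card_union_le _ _)
  linarith

end SRBP
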