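import Pool.Agent.Lib.MP_9dcf40_lc.DT.Pat
import Pool.Agent.Lib.MP_9dcf40_lc.DT.Hoe
import Pool.Agent.Lib.MP_9dcf40_lc.DT.DisQ
import Pool.Agent.Lib.MP_9dcf40_lc.DTR.Spec
import Pool.Agent.Lib.MP_9dcf40_lc.RD.Defs

/-! # Theorem DT, module DisC: the discrepancy of quartic polynomials, final forms -/

namespace SRBP

open Finset

/-- Quartic polynomials with small discrepancy. -/
theorem disQ : S_DisQ := tDisQ tPat tHoe

open RBP in
theorem sgq_eq {n : ℕ} (c : Coef n → Bool) (y : Fin n → Bool) :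
    sgq c y = -chi (fun y => quartic c y = 1) y := by
  unfold sgq chi
  by_cases h : quartic c y = 1
  · rw [if_pos h, if_pos h]
  · rw [if_neg h, if_neg h, neg_neg]

open RBP in
/-- The same for the sign `sgq`, with a real bound for the sides. -/
theorem discSgq : ∃ N : ℕ, ∀ n ≥ N, ∃ c : Coef n → Bool,
    Disc (sgq c) (Real.exp ((n : ℝ) ^ (3 / 4 : ℝ))) (3 * (n : ℝ) ^ (-(1 / 16) : ℝ)) := by
  obtain ⟨N, hN⟩ := disQ
  refine ⟨N, fun n hn => ?_⟩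
  obtain ⟨c, hc⟩ := hN n hn
  refine ⟨c, ?_⟩
  intro U A B hA hB hAU hBU
  have h1 := hc ⌈Real.exp ((n : ℝ) ^ (3 / 4 : ℝ))⌉₊ (Nat.le_ceil _) U A B
    (Nat.ceil_le.2 hA) (Nat.ceil_le.2 hB) hAU hBU
  have h2 : ∑ a ∈ A, ∑ b ∈ B, sgq c (glue U a b) =
      -∑ a ∈ A, ∑ b ∈ B, chi (fun y => quartic c y = 1) (glue U a b) := by
    simp only [sgq_eq, sum_neg_distrib]
  rw [h2, abs_neg]
  refine h1.trans (le_of_eq ?_)
  ring

open RBP in
theorem balSgq : ∃ N : ℕ, ∀ n ≥ N, ∃ c : Coef n → Bool,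
    Balanced (sgq c) (Real.exp ((n : ℝ) ^ (3 / 4 : ℝ))) (3 * (n : ℝ) ^ (-(1 / 16) : ℝ)) :=
  discSgq

end SRBP
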