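import Pool.Agent.Lib.MP_9dcf40_lc.DT.Spec3

/-!
# Theorem DT (MP_9dcf40_lc): consequences of small discrepancy
-/

namespace SRBP

open Finset

theorem noRect_of_lowDisc {n : ℕ} {f : (Fin n → Bool) → Prop} {t : ℕ} {η : ℝ} (hη : η < 1)
    (ht : 1 ≤ t) (h : LowDisc f t η) : NoRect f t := by
  intro U A B hA hB hAU hBU
  by_contra hcon
  push Not at hcon
  have h1 := h U A B hA hB hAU hBU
  have h2 : ∑ a ∈ A, ∑ b ∈ B, chi f (glue U a b) = A.card * B.card := by
    calc ∑ a ∈ A, ∑ b ∈ B, chi f (glue U a b) = ∑ _a ∈ A, ∑ _b ∈ B, (1 : ℝ) := by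
          refine sum_congr rfl (fun a ha => sum_congr rfl (fun b hb => ?_))
          unfold chi
          rw [if_pos (hcon a ha b hb)]
      _ = A.card * B.card := by
          rw [sum_const, sum_const, nsmul_eq_mul, nsmul_eq_mul, mul_one]
  rw [h2] at h1
  have hA0 : (0 : ℝ) < A.card := by exact_mod_cast lt_of_lt_of_le (by omega : 0 < t) hA
  have hB0 : (0 : ℝ) < B.card := by exact_mod_cast lt_of_lt_of_le (by omega : 0 < t) hB
  have h3 : (0 : ℝ) < A.card * B.card := mul_pos hA0 hB0
  rw [abs_of_pos h3] at h1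
  nlinarith

private theorem card_cube {n : ℕ} (U : Finset (Fin n)) :
    (Fintype.piFinset (fun v : Fin n => if v ∈ U then (univ : Finset Bool) else {false})).card =
      2 ^ U.card := by
  rw [Fintype.card_piFinset]
  have h1 : ∀ v : Fin n, (if v ∈ U then (univ : Finset Bool) else {false}).card =
      if v ∈ U then 2 else 1 := by
    intro v
    split_ifs <;> rfl
  rw [prod_congr rfl (fun v _ => h1 v), prod_ite_mem, prod_const]
  simp

open scoped Classical in
theorem dens_of_lowDisc {n : ℕ} {f : (Fin n → Bool) → Prop} {t : ℕ} {η : ℝ} (hη : η ≤ 1 / 2)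
    (hn : 2 ≤ n) (ht : t ≤ 2 ^ (n / 2)) (h : LowDisc f t η) :
    2 ^ (n - 2) ≤ ((univ : Finset (Fin n → Bool)).filter (fun y => f y)).card := by
  obtain ⟨U, hU⟩ : ∃ U : Finset (Fin n), U.card = n / 2 := by
    obtain ⟨U, -, hU⟩ := exists_subset_card_eq (s := (univ : Finset (Fin n))) (n := n / 2)
      (by rw [card_univ, Fintype.card_fin]; omega)
    exact ⟨U, hU⟩
  have hUc : (Uᶜ).card = n - n / 2 := by
    rw [card_compl, Fintype.card_fin, hU]
  obtain ⟨A, hA⟩ : ∃ A, A = Fintype.piFinset (fun v : Fin n =>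
    if v ∈ U then (univ : Finset Bool) else {false}) := ⟨_, rfl⟩
  obtain ⟨B, hB⟩ : ∃ B, B = Fintype.piFinset (fun v : Fin n =>
    if v ∈ Uᶜ then (univ : Finset Bool) else {false}) := ⟨_, rfl⟩
  have hAm : ∀ a, a ∈ A ↔ ∀ v, v ∉ U → a v = false := by
    intro a
    rw [hA, Fintype.mem_piFinset]
    refine forall_congr' (fun v => ?_)
    by_cases hv : v ∈ U
    · simp [hv]
    · simp [hv]
  have hBm : ∀ a, a ∈ B ↔ ∀ v ∈ U, a v = false := by
    intro a
    rw [hB, Fintype.mem_piFinset]
    refine forall_congr' (fun v => ?_)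
    by_cases hv : v ∈ U
    · simp [hv]
    · simp [hv]
  have hAc : A.card = 2 ^ (n / 2) := by rw [hA, card_cube, hU]
  have hBc : B.card = 2 ^ (n - n / 2) := by rw [hB, card_cube, hUc]
  have h1 := h U A B (by rw [hAc]; exact ht)
    (by rw [hBc]; exact ht.trans (Nat.pow_le_pow_right (by norm_num) (by omega)))
    (fun a ha a' ha' v hv => by rw [(hAm a).1 ha v hv, (hAm a').1 ha' v hv])
    (fun a ha a' ha' v hv => by rw [(hBm a).1 ha v hv, (hBm a').1 ha' v hv])
  have h2 : ∑ a ∈ A, ∑ b ∈ B, chi f (glue U a b) = ∑ y : Fin n → Bool, chi f y := by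
    rw [← sum_product']
    refine sum_nbij' (fun p => glue U p.1 p.2) (fun y => (glue U y (fun _ => false),
      glue U (fun _ => false) y)) ?_ ?_ ?_ ?_ ?_
    · intro p _
      exact mem_univ _
    · intro y _
      refine mem_product.2 ⟨(hAm _).2 (fun v hv => ?_), (hBm _).2 (fun v hv => ?_)⟩
      · show (if v ∈ U then y v else false) = false
        rw [if_neg hv]
      · show (if v ∈ U then false else y v) = false
        rw [if_pos hv]
    · rintro ⟨a, b⟩ hp
      obtain ⟨ha, hb⟩ := mem_product.1 hp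
      refine Prod.ext (funext fun v => ?_) (funext fun v => ?_)
      · show (if v ∈ U then (if v ∈ U then a v else b v) else false) = a v
        by_cases hv : v ∈ U
        · rw [if_pos hv, if_pos hv]
        · rw [if_neg hv]
          exact ((hAm a).1 ha v hv).symm
      · show (if v ∈ U then false else (if v ∈ U then a v else b v)) = b v
        by_cases hv : v ∈ U
        · rw [if_pos hv]
          exact ((hBm b).1 hb v hv).symm
        · rw [if_neg hv, if_neg hv]
    · intro y _
      funext v
      show (if v ∈ U then (if v ∈ U then y v else false) else (if v ∈ U then false else y v)) = y v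
      by_cases hv : v ∈ U
      · rw [if_pos hv, if_pos hv]
      · rw [if_neg hv, if_neg hv]
    · intro p _
      rfl
  have hAB : (A.card * B.card : ℝ) = 2 ^ n := by
    rw [hAc, hBc]
    push_cast
    rw [← pow_add]
    congr 1
    omega
  rw [h2, hAB] at h1
  have h3 : ∑ y : Fin n → Bool, chi f y =
      2 * (((univ : Finset (Fin n → Bool)).filter (fun y => f y)).card : ℝ) - 2 ^ n := by
    have h4 : ∀ y : Fin n → Bool, chi f y = 2 * (if f y then (1 : ℝ) else 0) - 1 := by
      intro y
      unfold chi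
      split_ifs <;> norm_num
    rw [sum_congr rfl (fun y _ => h4 y), sum_sub_distrib, ← mul_sum, sum_boole, sum_const,
      card_univ, Fintype.card_fun, Fintype.card_bool, Fintype.card_fin, nsmul_eq_mul, mul_one]
    push_cast
    rfl
  have h5 := (abs_le.1 h1).1
  rw [h3] at h5
  have h6 : (2 : ℝ) ^ n = 4 * 2 ^ (n - 2) := by
    have : n = (n - 2) + 2 := by omega
    conv_lhs => rw [this]
    rw [pow_add]
    norm_num
    ring
  have h7 : (2 : ℝ) ^ (n - 2) ≤ ((univ : Finset (Fin n → Bool)).filter (fun y => f y)).card := by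
    have h8 : η * 2 ^ n ≤ 1 / 2 * 2 ^ n := mul_le_mul_of_nonneg_right hη (by positivity)
    linarith
  exact_mod_cast h7

end SRBP
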