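import Pool.Agent.Lib.MP_9dcf40_lc.DT.Gen
import Pool.Agent.Lib.MP_9dcf40_lc.DT.Ldi

/-!
# Theorem DT (MP_9dcf40_lc): unambiguous programs and circuits with small discrepancy
-/

namespace SRBP

open Finset

private theorem pow_mono_A {k A A' : ℕ} (hk : 2 ≤ k) (hA : A ≤ A') :
    (k : ℝ) ^ (A * k) ≤ (k : ℝ) ^ (A' * k) := by
  have : (1 : ℝ) ≤ k := by exact_mod_cast (by omega : 1 ≤ k)
  exact pow_le_pow_right₀ this (Nat.mul_le_mul_right k hA)

theorem ShC.mono {A A' n m : ℕ} {c : CBits n m → Bool} (h : ShC A n m c) (hA : A ≤ A') :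
    ShC A' n m c := by
  intro k hk hkn P s hun hs hP hd
  have h1 := pow_mono_A hk hA
  have h0 : (0 : ℝ) < (k : ℝ) ^ (A * k) := by
    have : (0 : ℝ) < k := by exact_mod_cast (by omega : 0 < k)
    positivity
  have h2 : (n : ℝ) / (k : ℝ) ^ (A' * k) ≤ n / (k : ℝ) ^ (A * k) :=
    div_le_div_of_nonneg_left (Nat.cast_nonneg n) h0 h1
  refine (Real.exp_le_exp.2 h2).trans (h k hk (h1.trans hkn) P s hun (hs.trans h2) hP ?_)
  refine le_trans (mul_le_mul_of_nonneg_left (Real.exp_le_exp.2 ?_) (by positivity)) hd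
  linarith

theorem TotC.mono {A A' n m : ℕ} (h : TotC A n m) (hA : A ≤ A') : TotC A' n m := by
  intro k hk hkn t ht P hun hP hw
  have h1 := pow_mono_A hk hA
  have h0 : (0 : ℝ) < (k : ℝ) ^ (A * k) := by
    have : (0 : ℝ) < k := by exact_mod_cast (by omega : 0 < k)
    positivity
  have h2 : (n : ℝ) / (k : ℝ) ^ (A' * k) ≤ n / (k : ℝ) ^ (A * k) :=
    div_le_div_of_nonneg_left (Nat.cast_nonneg n) h0 h1
  exact (Real.exp_le_exp.2 h2).trans (h k hk (h1.trans hkn) t ht P hun hP hw)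

/-- For large `n`: the discrepancy `3 n^(-1/16)` is small, `exp (n^(3/4))` is less than `2^(n/2)`. -/
theorem large_n {n : ℕ} (hn : 6 ^ 16 ≤ n) : 3 * (n : ℝ) ^ (-(1 / 16) : ℝ) ≤ 1 / 2 ∧
    ⌈Real.exp ((n : ℝ) ^ (3 / 4 : ℝ))⌉₊ ≤ 2 ^ (n / 2) := by
  have hnR : (6 : ℝ) ^ 16 ≤ n := by exact_mod_cast hn
  have hn0 : (0 : ℝ) < n := lt_of_lt_of_le (by norm_num) hnR
  constructor
  · have h1 : (6 : ℝ) ≤ (n : ℝ) ^ (1 / 16 : ℝ) := by
      calc (6 : ℝ) = ((6 : ℝ) ^ 16) ^ (1 / 16 : ℝ) := by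
            rw [← Real.rpow_natCast, ← Real.rpow_mul (by norm_num)]
            norm_num
        _ ≤ _ := Real.rpow_le_rpow (by norm_num) hnR (by norm_num)
    rw [Real.rpow_neg hn0.le, ← div_eq_mul_inv, div_le_div_iff₀ (by positivity) (by norm_num)]
    linarith
  · have h1 : (6 : ℝ) ^ 4 ≤ (n : ℝ) ^ (1 / 4 : ℝ) := by
      calc (6 : ℝ) ^ 4 = ((6 : ℝ) ^ 16) ^ (1 / 4 : ℝ) := by
            rw [← Real.rpow_natCast, ← Real.rpow_natCast, ← Real.rpow_mul (by norm_num)]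
            norm_num
        _ ≤ _ := Real.rpow_le_rpow (by norm_num) hnR (by norm_num)
    have h2 : (n : ℝ) ^ (3 / 4 : ℝ) * 6 ^ 4 ≤ n := by
      calc (n : ℝ) ^ (3 / 4 : ℝ) * 6 ^ 4 ≤ (n : ℝ) ^ (3 / 4 : ℝ) * (n : ℝ) ^ (1 / 4 : ℝ) :=
            mul_le_mul_of_nonneg_left h1 (by positivity)
        _ = n := by
            rw [← Real.rpow_add hn0]
            norm_num
    have h3 : ((n : ℝ) - 1) / 2 ≤ ((n / 2 : ℕ) : ℝ) := by
      have : n ≤ 2 * (n / 2) + 1 := by omega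
      have h4 : (n : ℝ) ≤ 2 * ((n / 2 : ℕ) : ℝ) + 1 := by exact_mod_cast this
      linarith
    have h4 : Real.exp ((n : ℝ) ^ (3 / 4 : ℝ)) + 1 ≤ (2 : ℝ) ^ (n / 2) := by
      have h5 : 1 ≤ Real.exp ((n : ℝ) ^ (3 / 4 : ℝ)) := Real.one_le_exp (by positivity)
      have h6 : (2 : ℝ) ≤ Real.exp 1 := by
        have := Real.add_one_le_exp (1 : ℝ)
        linarith
      have h7 : (2 : ℝ) ^ (n / 2) = Real.exp (((n / 2 : ℕ) : ℝ) * Real.log 2) := by
        rw [Real.exp_nat_mul, Real.exp_log (by norm_num)]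
      rw [h7]
      calc Real.exp ((n : ℝ) ^ (3 / 4 : ℝ)) + 1 ≤ Real.exp 1 * Real.exp ((n : ℝ) ^ (3 / 4 : ℝ)) := by
            nlinarith
        _ = Real.exp (1 + (n : ℝ) ^ (3 / 4 : ℝ)) := (Real.exp_add _ _).symm
        _ ≤ _ := by
            refine Real.exp_le_exp.2 ?_
            have h8 := Real.log_two_gt_d9
            have h9 : ((n : ℝ) - 1) / 2 * 0.69 ≤ ((n / 2 : ℕ) : ℝ) * Real.log 2 := by
              refine mul_le_mul h3 (by linarith) (by norm_num) (Nat.cast_nonneg _)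
            have h10 : (1000 : ℝ) ≤ n := le_trans (by norm_num) hnR
            norm_num at h2
            linarith
    have h5 : (⌈Real.exp ((n : ℝ) ^ (3 / 4 : ℝ))⌉₊ : ℝ) ≤ (2 : ℝ) ^ (n / 2) :=
      (Nat.ceil_lt_add_one (Real.exp_pos _).le).le.trans h4
    exact_mod_cast h5

theorem part3 (h1 : S_CoreD) (h2 : S_ProgD) (h3 : S_BalQ) (h4 : S_ResD) (h5 : S_Avb) :
    ∃ A N : ℕ, 1 ≤ A ∧ ∀ n ≥ N, ∀ m : ℕ, 1 ≤ m → ∀ (f : (Fin n → Bool) → Prop)
      (c : CBits n m → Bool), (∀ t : ℕ, Real.exp ((n : ℝ) ^ (3 / 4 : ℝ)) ≤ t →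
        LowDisc f t (3 * (n : ℝ) ^ (-(1 / 16) : ℝ))) → (∀ y, Val n m c y ↔ f y) →
      2 ^ (n - 2) ≤ Nat.card {y // Val n m c y} ∧ ShC A n m c ∧ TotC A n m := by
  classical
  obtain ⟨A, hA, hG⟩ := topGU h1 h2 h3
  refine ⟨18 * A + 2, 6 ^ 16, by omega, ?_⟩
  intro n hn m hm f c hf hval
  obtain ⟨l1, l2⟩ := large_n hn
  have hn2 : 2 ≤ n := le_trans (by norm_num) hn
  have hT : TopC A n f := hG n (by omega) f (fun t ht => by
    refine noRect_of_lowDisc (by linarith) ?_ (hf t ht)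
    have h6 : (1 : ℝ) ≤ t := (Real.one_le_exp (by positivity)).trans ht
    exact_mod_cast h6)
  have hd := dens_of_lowDisc l1 hn2 l2 (hf _ (Nat.le_ceil _))
  refine ⟨?_, (shG h4 hval hT).mono (by omega), totG h4 h5 hn2 hm hval hT
    ((univ : Finset (Fin n → Bool)).filter (fun y => f y)) (fun y hy => (mem_filter.1 hy).2) ?_⟩
  · rw [Nat.card_eq_fintype_card, Fintype.card_subtype]
    refine hd.trans (card_le_card ?_)
    intro y hy
    rw [mem_filter] at hy ⊢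
    exact ⟨mem_univ _, (hval y).2 hy.2⟩
  · refine hd.trans (le_of_eq ?_)
    congr

end SRBP
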