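import Pool.Agent.Lib.MP_9dcf40_lc.DT.Spec2
import Pool.Agent.Lib.MP_9dcf40_lc.LIN.TotQ

/-!
# Theorem DT (MP_9dcf40_lc): circuits, `S_ShD` and `S_TotD`
-/

set_option autoImplicit false

namespace SRBP

open Finset

/-- The bits of the circuit become constants. -/
theorem short_coreD {κ : Type} [Fintype κ] [DecidableEq κ] (h : S_ResD) {n : ℕ} (c₀ : Coef n → Bool)
    (c : κ → Bool) (P : NBP (κ ⊕ Fin n)) (t s : ℕ) (hun : Unamb P)
    (hP : ∀ y, Accepts P (Sum.elim c y) → fq c₀ y) :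
    ∃ P' : NBP (Fin n), Fintype.card P'.V = Fintype.card P.V ∧ Unamb P' ∧ (∀ y, Accepts P' y → fq c₀ y) ∧
      ∀ y, Short P t s (Sum.elim c y) →
        ∃ (v : P'.V) (l : List (Fin n × Bool)) (E : Finset (Fin n)), P'.acc v ∧
          Walk P' P'.start l v ∧ Consistent y l ∧ E.card ≤ s ∧
          ((l.map Prod.fst).filter (fun i => i ∉ E)).length ≤ t := by
  have hz : ∀ y : Fin n → Bool, (fun a => Sum.elim id y (sc c a)) = Sum.elim c y := by
    intro y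
    funext a
    rcases a with a | i <;> rfl
  obtain ⟨P', hcard, hun', hacc, hwalk⟩ := h (κ ⊕ Fin n) (Fin n) P (sc c) hun
  have hsound : ∀ y, Accepts P' y → fq c₀ y := by
    intro y hy
    refine hP y ?_
    have := (hacc y).1 hy
    rwa [hz y] at this
  refine ⟨P', hcard, hun', hsound, ?_⟩
  rintro y ⟨v, l, hv, hw, hc, E, hE, hr⟩
  obtain ⟨v', hv', hw', hc'⟩ := hwalk y v l hv hw (by rw [hz y]; exact hc)
  refine ⟨v', subl (sc c) l, E, hv', hw', hc', hE, ?_⟩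
  rw [subl_sc]
  exact hr

theorem tShD (h1 : S_TopD) (h2 : S_Cir) (h3 : S_ResD) : S_ShD := by
  classical
  obtain ⟨A, N, hA, hN⟩ := h1
  refine ⟨A, N, hA, ?_⟩
  intro n hn m hm
  obtain ⟨c₀, ⟨B, hB1, hB2⟩, hmain⟩ := hN n hn
  have hm2 : 6 * Fintype.card (Coef n) + 6 * n + 3 ≤ m := by
    have h4 := card_coef n
    have h5 : 1 + 4 * n ≤ (n + 1) ^ 4 := by nlinarith [sq_nonneg n, sq_nonneg (n ^ 2)]
    omega
  obtain ⟨c, hc⟩ := h2 n m c₀ hm2
  have hval : ∀ y, Val n m c y ↔ fq c₀ y := fun y => (val_iff n m c y).trans (hc y)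
  refine ⟨c, ?_, ?_⟩
  · rw [Nat.card_eq_fintype_card, Fintype.card_subtype]
    refine le_trans hB2 (card_le_card ?_)
    intro y hy
    rw [mem_filter]
    exact ⟨mem_univ _, (hval y).2 (hB1 y hy)⟩
  · intro k hk hkA P s hun hs hP hden
    obtain ⟨P', hcard, hun', hsound, hshort⟩ := short_coreD h3 c₀ c P (k * n) s hun
      (fun y hy => (hval y).1 (hP y hy))
    rw [← hcard]
    refine hmain k hk hkA P' s hun' hs hsound
      ((univ : Finset (Fin n → Bool)).filter (fun y => Short P (k * n) s (Sum.elim c y))) ?_ ?_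
    · intro y hy
      obtain ⟨v, l, E, a1, a2, a3, a4, a5⟩ := hshort y (mem_filter.1 hy).2
      exact ⟨v, l, E, a1, a2, a3, a4, a5⟩
    · rw [Nat.card_eq_fintype_card, Fintype.card_subtype] at hden
      exact hden

/-- The exponents: `(4k+1)^(A₀(4k+1)) ≤ k^(18 A₀ k)`. -/
theorem totd_pow (A₀ k : ℕ) (hk : 2 ≤ k) :
    ((4 * k + 1 : ℕ) : ℝ) ^ (A₀ * (4 * k + 1)) ≤ (k : ℝ) ^ (18 * A₀ * k) := by
  have hk' : (2 : ℝ) ≤ k := by exact_mod_cast hk
  have h1 : ((4 * k + 1 : ℕ) : ℝ) ≤ (k : ℝ) ^ 4 := by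
    push_cast
    have h2 : (8 : ℝ) ≤ (k : ℝ) ^ 3 := by
      calc (8 : ℝ) = 2 ^ 3 := by norm_num
        _ ≤ (k : ℝ) ^ 3 := pow_le_pow_left₀ (by norm_num) hk' 3
    nlinarith
  calc ((4 * k + 1 : ℕ) : ℝ) ^ (A₀ * (4 * k + 1)) ≤ ((k : ℝ) ^ 4) ^ (A₀ * (4 * k + 1)) :=
        pow_le_pow_left₀ (by positivity) h1 _
    _ = (k : ℝ) ^ (4 * (A₀ * (4 * k + 1))) := (pow_mul _ _ _).symm
    _ ≤ (k : ℝ) ^ (18 * A₀ * k) := by
        refine pow_le_pow_right₀ (by linarith) ?_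
        have h3 : 2 * A₀ ≤ A₀ * k := by
          rw [mul_comm 2 A₀]
          exact Nat.mul_le_mul_left _ hk
        nlinarith

theorem tTotD (h1 : S_TopD) (h2 : S_Cir) (h3 : S_ResD) (h4 : S_Avb) : S_TotD := by
  classical
  obtain ⟨A₀, N, hA₀, hN⟩ := h1
  refine ⟨18 * A₀ + 2, max N 2, by omega, ?_⟩
  intro n hn m hm k hk hkA t ht P hun hsound hwalks
  have hnN : N ≤ n := le_trans (le_max_left _ _) hn
  have hn2 : 2 ≤ n := le_trans (le_max_right _ _) hn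
  have hn0 : (0 : ℝ) < n := by exact_mod_cast (by omega : 0 < n)
  have hk' : (2 : ℝ) ≤ k := by exact_mod_cast hk
  have hk0 : (0 : ℝ) < k := by linarith
  have hpow := totd_pow A₀ k hk
  have hD0 : (0 : ℝ) < ((4 * k + 1 : ℕ) : ℝ) ^ (A₀ * (4 * k + 1)) := by positivity
  have hsplit : (k : ℝ) ^ ((18 * A₀ + 2) * k) = (k : ℝ) ^ (18 * A₀ * k) * (k : ℝ) ^ (2 * k) := by
    rw [← pow_add]
    congr 1
    ring
  have hk16 : (7 : ℝ) ≤ (k : ℝ) ^ (2 * k) := by
    calc (7 : ℝ) ≤ 2 ^ 4 := by norm_num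
      _ ≤ (k : ℝ) ^ 4 := pow_le_pow_left₀ (by norm_num) hk' 4
      _ ≤ (k : ℝ) ^ (2 * k) := pow_le_pow_right₀ (by linarith) (by omega)
  have hq0 : (0 : ℝ) < (k : ℝ) ^ (18 * A₀ * k) := by positivity
  have hDD : ((4 * k + 1 : ℕ) : ℝ) ^ (A₀ * (4 * k + 1)) ≤ (k : ℝ) ^ ((18 * A₀ + 2) * k) := by
    rw [hsplit]
    nlinarith
  have hDn : ((4 * k + 1 : ℕ) : ℝ) ^ (A₀ * (4 * k + 1)) ≤ n := hDD.trans hkA
  have hn7 : 7 ≤ (n : ℝ) / ((4 * k + 1 : ℕ) : ℝ) ^ (A₀ * (4 * k + 1)) := by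
    rw [le_div_iff₀ hD0]
    calc 7 * ((4 * k + 1 : ℕ) : ℝ) ^ (A₀ * (4 * k + 1)) ≤ (k : ℝ) ^ (2 * k) * (k : ℝ) ^ (18 * A₀ * k) :=
          mul_le_mul hk16 hpow hD0.le (by positivity)
      _ = (k : ℝ) ^ ((18 * A₀ + 2) * k) := by rw [hsplit, mul_comm]
      _ ≤ n := hkA
  have he0 : (0 : ℝ) ≤ (n : ℝ) / ((4 * k + 1 : ℕ) : ℝ) ^ (A₀ * (4 * k + 1)) := by linarith
  have hle : (n : ℝ) / (k : ℝ) ^ ((18 * A₀ + 2) * k) ≤
      (n : ℝ) / ((4 * k + 1 : ℕ) : ℝ) ^ (A₀ * (4 * k + 1)) :=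
    div_le_div_of_nonneg_left hn0.le hD0 hDD
  refine le_trans (Real.exp_le_exp.2 hle) ?_
  obtain ⟨c₀, ⟨B, hB1, hB2⟩, hmain⟩ := hN n hnN
  have hm2 : 6 * Fintype.card (Coef n) + 6 * n + 3 ≤ m := by
    have h4 := card_coef n
    have h5 : 1 + 4 * n ≤ (n + 1) ^ 4 := by nlinarith [sq_nonneg n, sq_nonneg (n ^ 2)]
    omega
  obtain ⟨c, hc⟩ := h2 n m c₀ hm2
  have hval : ∀ y, Val n m c y ↔ fq c₀ y := fun y => (val_iff n m c y).trans (hc y)
  have hBne : B.Nonempty := by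
    rw [← card_pos]
    exact lt_of_lt_of_le (by positivity) hB2
  have hm1 : 1 ≤ m := by omega
  have ht1 : 1 ≤ t := by
    rcases Nat.eq_zero_or_pos t with h0 | h0
    · subst h0
      have h5 : 0 < Fintype.card (CBits n m) :=
        Fintype.card_pos_iff.2 ⟨Sum.inr ⟨0, by omega⟩⟩
      omega
    · exact h0
  -- the walks
  have hM : ∀ y : Fin t → Fin n → Bool, (∀ j, y j ∈ B) → ∃ v l, P.acc v ∧ Walk P P.start l v ∧
      Consistent (Sum.elim c (fun p : Fin t × Fin n => y p.1 p.2)) l ∧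
      l.length ≤ (2 * k * n) * t := by
    intro y hy
    obtain ⟨v, l, a1, a2, a3, a4⟩ := hwalks (Sum.elim c (fun p : Fin t × Fin n => y p.1 p.2))
      (fun j => (hval (y j)).2 (hB1 _ (hy j)))
    refine ⟨v, l, a1, a2, a3, a4.trans ?_⟩
    rw [Fintype.card_sum, Fintype.card_prod, Fintype.card_fin, Fintype.card_fin]
    calc k * (Fintype.card (CBits n m) + t * n) ≤ k * (t * n + t * n) :=
          Nat.mul_le_mul_left _ (Nat.add_le_add_right ht _)
      _ = (2 * k * n) * t := by ring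
  choose! V Lw hW using hM
  let T : (Fin t → Fin n → Bool) → Fin t → ℕ := fun y j => blk (Lw y) j
  obtain ⟨j, y, hy, hcard⟩ := h4 t (2 * k * n) (Fin n → Bool) B T ht1 hBne (by
    intro y hy
    exact (sum_blk (Lw y)).trans (hW y hy).2.2.2)
  obtain ⟨P', hPc, hun', hacc, hwalk⟩ := h3 (CBits n m ⊕ Fin t × Fin n) (Fin n) P (sj c y j) hun
  rw [← hPc]
  refine hmain (4 * k + 1) (by omega) hDn P' 0 hun' (by rw [Nat.cast_zero]; exact he0) ?_
    (B.filter (fun u => T (Function.update y j u) j ≤ 2 * (2 * k * n))) ?_ ?_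
  · intro u hu
    have h5 := (hacc u).1 hu
    rw [sj_val] at h5
    have h6 := hsound _ h5 j
    have h7 : (fun i => (Sum.elim c (fun p : Fin t × Fin n => Function.update y j u p.1 p.2) :
        CBits n m ⊕ Fin t × Fin n → Bool) (Sum.inr (j, i))) = u := by
      funext i
      show Function.update y j u j i = u i
      rw [Function.update_self]
    rw [h7] at h6
    exact (hval u).1 h6
  · intro u hu
    obtain ⟨huB, huT⟩ := mem_filter.1 hu
    have hy' : ∀ i, Function.update y j u i ∈ B := by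
      intro i
      by_cases hi : i = j
      · subst hi
        rw [Function.update_self]
        exact huB
      · rw [Function.update_of_ne hi]
        exact hy i
    obtain ⟨a1, a2, a3, -⟩ := hW _ hy'
    obtain ⟨v', b1, b2, b3⟩ := hwalk u _ _ a1 a2 (by rw [sj_val]; exact a3)
    refine ⟨v', _, ∅, b1, b2, b3, by simp, ?_⟩
    refine (List.length_filter_le _ _).trans ?_
    rw [List.length_map, subl_length]
    refine le_trans huT ?_
    nlinarith
  · have h5 : (B.card : ℝ) ≤ 2 * ((B.filter (fun u => T (Function.update y j u) j ≤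
        2 * (2 * k * n))).card : ℝ) := by exact_mod_cast hcard
    have h6 : (2 : ℝ) ^ (n - 2) ≤ B.card := by exact_mod_cast hB2
    have h7 : (2 : ℝ) ^ n ≤ 4 * 2 ^ (n - 2) := by
      have : n = (n - 2) + 2 := by omega
      conv_lhs => rw [this]
      rw [pow_add]
      norm_num
      linarith
    have h8 : Real.exp (-((n : ℝ) / ((4 * k + 1 : ℕ) : ℝ) ^ (A₀ * (4 * k + 1)))) ≤ 1 / 8 := by
      rw [Real.exp_neg, one_div]
      apply inv_anti₀ (by norm_num)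
      have := Real.add_one_le_exp ((n : ℝ) / ((4 * k + 1 : ℕ) : ℝ) ^ (A₀ * (4 * k + 1)))
      linarith
    calc (2 : ℝ) ^ n * Real.exp (-((n : ℝ) / ((4 * k + 1 : ℕ) : ℝ) ^ (A₀ * (4 * k + 1)))) ≤ 2 ^ n * (1 / 8) :=
          mul_le_mul_of_nonneg_left h8 (by positivity)
      _ ≤ _ := by linarith

end SRBP
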