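import Pool.Agent.Lib.MP_9dcf40_lc.DT.Spec
import Pool.Agent.Lib.MP_9dcf40_lc.SR.SpecV

/-!
# Theorem DT (MP_9dcf40_lc): two-sided error, statements of the modules
-/

namespace SRBP

open Finset

open scoped Classical in
/-- `1` if `f y`, otherwise `-1`. -/
noncomputable def chi {n : ℕ} (f : (Fin n → Bool) → Prop) (y : Fin n → Bool) : ℝ :=
  if f y then 1 else -1

/-- The discrepancy of `f` is at most `η` on all rectangles with sides `≥ t`, for any partition of the
variables. -/
def LowDisc {n : ℕ} (f : (Fin n → Bool) → Prop) (t : ℕ) (η : ℝ) : Prop :=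
  ∀ (U : Finset (Fin n)) (A B : Finset (Fin n → Bool)), t ≤ A.card → t ≤ B.card →
    (∀ a ∈ A, ∀ a' ∈ A, ∀ v, v ∉ U → a v = a' v) → (∀ b ∈ B, ∀ b' ∈ B, ∀ v ∈ U, b v = b' v) →
    |∑ a ∈ A, ∑ b ∈ B, chi f (glue U a b)| ≤ η * (A.card * B.card)

open scoped Classical in
/-- PAT (every pattern). PROOF. As `S_Cfg` (`SR/Cfg.lean`), for a pattern `x` instead of all `1`: two elements of the left
set which agree outside `T` are equal. (Or: if `c₁` is in the left set then `c ↦ c xor c₁ xor [· = ∅]` maps it into the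
left set of `S_Cfg`.) -/
def S_Pat : Prop := ∀ (n : ℕ) (U W W' : Finset (Fin n)), W ⊆ U → Disjoint W' U →
  ∀ a b : Finset (Fin n) → Fin n → Bool, (∀ S ∈ two W, ∀ v ∈ W, (a S v = true ↔ v ∈ S)) →
  (∀ S ∈ two W', ∀ v ∈ W', (b S v = true ↔ v ∈ S)) → ∀ x : Finset (Fin n) → Finset (Fin n) → ZMod 2,
  ((univ : Finset (Coef n → Bool)).filter (fun c => ∀ S ∈ two W, ∀ S' ∈ two W',
    quartic c (glue U (a S) (b S')) = x S S')).card * 2 ^ ((two W).card * (two W').card) ≤
    2 ^ Fintype.card (Coef n)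

open scoped Classical in
/-- HOE (Hoeffding). PROOF. `∑_x exp (λ ∑ x) = (exp λ + exp (-λ))^N = 2^N cosh(λ)^N ≤ 2^N exp (λ² N / 2)`
(`Real.cosh_le_exp_half_sq`), `λ = η`, Markov, and the same for `-x`. -/
def S_Hoe : Prop := ∀ (α : Type) [Fintype α] [DecidableEq α] (η : ℝ), 0 ≤ η →
  (((univ : Finset (α → Bool)).filter
    (fun x => η * Fintype.card α < |∑ i, (if x i then (1 : ℝ) else -1)|)).card : ℝ) ≤
    2 * 2 ^ Fintype.card α * Real.exp (-(η ^ 2 * Fintype.card α / 2))

/-- DISQ: quartic polynomials with small discrepancy. PROOF. `η₁ = n^(-1/16)`. Let `d = ⌈4 n^(9/16)⌉`, `m = 1 + d +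
d(d-1)/2 = |two W|` for `|W| = d`, so `m ≥ 4 n / η₁²` (large `n`), and `(n+1)^d + 1 =: t₀ ≤ η₁ exp (n^(3/4))`.
(1) A set `A` with `≥ t₀` elements shatters a set `W` with `d` elements (`QuaQAux.sha`, `few` in `LIN/QuaQ.lean`; if the
elements of `A` agree outside `U` then `W ⊆ U`), so it contains a configuration `a : two W → A`, `a S v = [v ∈ S]` on
`W`; the `m` elements are different. (2) Union bound: the set of the `c` for which there are `U`, `a, b : Fin m → Fin n →
Bool` which come from configurations `W ⊆ U`, `W'` disjoint from `U`, with `|∑_ij chi (glue U (a i) (b j))| > η₁ m²` has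
at most `2^(n + 2nm) 2^|Coef| 2 exp (-η₁² m²/2) < 2^|Coef|` elements (`S_Pat`, `S_Hoe` with `α = Fin m × Fin m`:
`η₁² m²/2 ≥ 2nm > (n + 2nm + 1) log 2`). Take `c` outside. (3) Let `A`, `B` be a rectangle. For a configuration `A₁ ⊆ A`:
`|∑_{A₁} ∑_B| ≤ m (η₁ |B| + t₀)` by strong induction on `|B|` (if `|B| < t₀` trivial, else take away a configuration).
Then `|∑_A ∑_B| ≤ |A| (η₁ |B| + t₀) + t₀ |B|` by strong induction on `|A|`. With `|A|, |B| ≥ t ≥ t₀/η₁`: `≤ 3 η₁ |A| |B|`. -/
def S_DisQ : Prop := ∃ N : ℕ, ∀ n ≥ N, ∃ c : Coef n → Bool, ∀ t : ℕ,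
  Real.exp ((n : ℝ) ^ (3 / 4 : ℝ)) ≤ t →
  LowDisc (fun y => quartic c y = 1) t (3 * (n : ℝ) ^ (-(1 / 16) : ℝ))

/-- CIRQ. PROOF. As `tCir` (`SR/Cir.lean`), only the wire `i1`. -/
def S_CirQ : Prop := ∀ (n m : ℕ) (c : Coef n → Bool), 6 * Fintype.card (Coef n) + 6 * n + 3 ≤ m →
  ∃ const : (Fin m × Fin (n + m)) ⊕ Fin (n + m) → Bool, ∀ y : Fin n → Bool,
    cv n m (fun a => match a with
      | Sum.inl p => const (Sum.inl p)
      | Sum.inr (Sum.inl o) => const (Sum.inr o)
      | Sum.inr (Sum.inr i) => y i) ↔ quartic c y = 1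

/-- A deterministic program in normal form: the tested variable (or `none`: the computation stays in this
state), and the next state for each value. -/
structure Tr (n : ℕ) where
  V : Type
  fin : Fintype V
  tst : V → Option (Fin n)
  nx : V → Bool → V
  start : V
  acc : V

attribute [instance] Tr.fin

/-- One step. -/
def Tr.step {n : ℕ} (Q : Tr n) (y : Fin n → Bool) (u : Q.V) : Q.V :=
  match Q.tst u with
  | none => u
  | some v => Q.nx u (y v)

/-- The state after `i` steps. -/
def Tr.at {n : ℕ} (Q : Tr n) (y : Fin n → Bool) (i : ℕ) : Q.V := (Q.step y)^[i] Q.start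

/-- NOR: normal form. PROOF. `Q.V = P.V ⊕ Bool` (`inr true` accepting, `inr false` dead, both without test). For a
state `u` of `P`: `norm u = inr true` if some accepting state is reached from `u` by free edges (`Walk P u [] w`), else
`inl w` if a state `w` with a test edge is reached by free edges (`w` is unique by `Det`), else `inr false`.
`tst (inl w)` = the tested variable, `nx (inl w) b = norm v` for the edge `w → v` with value `b` (unique), `inr false`
if there is none. `start = norm P.start`. (→) induction on the walk: for a walk from `u` to an accepting state with the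
tests `l` consistent with `y`, `|l|` steps from `norm u` lead to `inr true`. (←) induction on the number of steps. -/
def S_Nor : Prop := ∀ (n : ℕ) (P : NBP (Fin n)), Det P →
  ∃ Q : Tr n, Fintype.card Q.V ≤ Fintype.card P.V + 2 ∧ Q.tst Q.acc = none ∧
    ∀ (t : ℕ) (y : Fin n → Bool), (∃ (v : P.V) (l : List (Fin n × Bool)), P.acc v ∧
      Walk P P.start l v ∧ Consistent y l ∧ l.length ≤ t) ↔ Q.at y t = Q.acc

/-- The system is closed: an input which passes, for each segment, the tests of some label of this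
segment, belongs to `F`. -/
def Clo {β : Type} {n r : ℕ} (F : Finset (Fin n → Bool)) (sg : Fin r → (Fin n → Bool) → β)
    (dm : β → Finset (Fin n)) : Prop :=
  ∀ z : Fin n → Bool, (∀ j, ∃ y ∈ F, ∀ v ∈ dm (sg j y), z v = y v) → z ∈ F

/-- SEG: the inputs with given states at the times `j ℓ`. -/
def S_Seg : Prop := ∀ (n r ℓ : ℕ) (Q : Tr n), 1 ≤ r → ∀ q : Fin (r + 1) → Q.V,
  ∀ F : Finset (Fin n → Bool), (∀ y, y ∈ F ↔ ∀ j : Fin (r + 1), Q.at y (j * ℓ) = q j) → F.Nonempty →
  ∃ (sg : Fin r → (Fin n → Bool) → (Fin n → Option Bool)) (dm : (Fin n → Option Bool) →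
      Finset (Fin n)), DPS n r F sg dm ∧ Clo F sg dm ∧ ∀ x ∈ F, ∀ j, (dm (sg j x)).card ≤ ℓ

/-- REST: constants in deterministic programs. PROOF. The program `sub'` of `SR/Res.lean`; `Det`: if an edge
`none` of `P` leaves `u` it is the only edge of `P` which leaves `u`; if `some (a, b)` with `σ a = inl b` leaves `u`, every
other edge tests `a` with `!b ≠ b`, and gives no edge of the new program; if `σ a = inr i`, the other edge is
`some (i, !b)`. The equivalence: `walkA`, `walkB`, `consB` there. -/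
def S_ResT : Prop := ∀ (κ ι : Type) [Fintype κ] [Fintype ι] [DecidableEq κ] [DecidableEq ι] (P : NBP κ)
    (σ : κ → Bool ⊕ ι), Det P →
  ∃ P' : NBP ι, Fintype.card P'.V = Fintype.card P.V ∧ Det P' ∧
    ∀ (y : ι → Bool) (R : List (ι × Bool) → Prop), (∃ v l, P'.acc v ∧ Walk P' P'.start l v ∧ Consistent y l ∧ R l) ↔
      ∃ v l, P.acc v ∧ Walk P P.start l v ∧ Consistent (fun a => Sum.elim id y (σ a)) l ∧ R (subl σ l)

end SRBP
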