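import Pool.Agent.Lib.MP_9dcf40_lc.DT.Spec2
import Pool.Agent.Lib.MP_9dcf40_lc.DT.Spec3
import Pool.Agent.Lib.MP_9dcf40_lc.DT.Sh
import Pool.Agent.Lib.MP_9dcf40_lc.LIN.TotQ

/-!
# Theorem DT (MP_9dcf40_lc): unambiguous programs, for all functions without large constant rectangles
-/

set_option autoImplicit false

namespace SRBP

open Finset

/-- The conclusion for programs over the inputs of `f`. -/
def TopC (A n : ℕ) (f : (Fin n → Bool) → Prop) : Prop :=
  ∀ k : ℕ, 2 ≤ k → (k : ℝ) ^ (A * k) ≤ n →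
  ∀ (P : NBP (Fin n)) (s : ℕ), Unamb P → (s : ℝ) ≤ n / (k : ℝ) ^ (A * k) →
  (∀ y, Accepts P y → f y) → ∀ A' : Finset (Fin n → Bool),
  (∀ y ∈ A', ∃ (v : P.V) (l : List (Fin n × Bool)) (E : Finset (Fin n)), P.acc v ∧
    Walk P P.start l v ∧ Consistent y l ∧ E.card ≤ s ∧
    ((l.map Prod.fst).filter (fun i => i ∉ E)).length ≤ k * n) →
  (2 : ℝ) ^ n * Real.exp (-(n / (k : ℝ) ^ (A * k))) ≤ A'.card →
  Real.exp (n / (k : ℝ) ^ (A * k)) ≤ Fintype.card P.V

/-- The conclusion for the circuit `c`. -/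
def ShC (A n m : ℕ) (c : CBits n m → Bool) : Prop :=
  ∀ k : ℕ, 2 ≤ k → (k : ℝ) ^ (A * k) ≤ n →
  ∀ (P : NBP (CBits n m ⊕ Fin n)) (s : ℕ), Unamb P → (s : ℝ) ≤ n / (k : ℝ) ^ (A * k) →
    (∀ y, Accepts P (Sum.elim c y) → Val n m c y) →
    (2 : ℝ) ^ n * Real.exp (-(n / (k : ℝ) ^ (A * k))) ≤
      Nat.card {y // Short P (k * n) s (Sum.elim c y)} →
    Real.exp (n / (k : ℝ) ^ (A * k)) ≤ Fintype.card P.V

/-- The conclusion for the total length. -/
def TotC (A n m : ℕ) : Prop :=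
  ∀ k : ℕ, 2 ≤ k → (k : ℝ) ^ (A * k) ≤ n → ∀ t : ℕ,
  Fintype.card (CBits n m) ≤ t * n → ∀ P : NBP (CBits n m ⊕ Fin t × Fin n), Unamb P →
  (∀ z, Accepts P z → MVal n m t z) →
  (∀ z, MVal n m t z → ∃ v l, P.acc v ∧ Walk P P.start l v ∧ Consistent z l ∧
    l.length ≤ k * Fintype.card (CBits n m ⊕ Fin t × Fin n)) →
  Real.exp (n / (k : ℝ) ^ (A * k)) ≤ Fintype.card P.V

private theorem numsT (x y : ℝ) (r : ℕ) (hx : 4 ≤ x) (hy : x ^ 8 ≤ y) (hr : (r : ℝ) ≤ x) :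
    2 * Real.sqrt y⁻¹ + ((r : ℝ) + 3) * y⁻¹ ≤ x⁻¹ := by
  have hx0 : 0 < x := by linarith
  have hy0 : 0 < y := lt_of_lt_of_le (by positivity) hy
  have e1 : y⁻¹ ≤ (x ^ 8)⁻¹ := inv_anti₀ (by positivity) hy
  have e2 : Real.sqrt y⁻¹ ≤ (x ^ 4)⁻¹ := by
    rw [Real.sqrt_le_iff]
    refine ⟨by positivity, e1.trans (le_of_eq ?_)⟩
    rw [← inv_pow, ← inv_pow, ← pow_mul]
  have e3 : (x ^ 4)⁻¹ ≤ x⁻¹ / 4 := by
    rw [inv_le_comm₀ (by positivity) (by positivity)]
    have : (x⁻¹ / 4)⁻¹ = 4 * x := by field_simp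
    rw [this]
    have h2 : 16 ≤ x ^ 2 := by nlinarith
    have h3 : 4 * x ≤ x ^ 2 := by nlinarith
    nlinarith
  have e4 : ((r : ℝ) + 3) * y⁻¹ ≤ x⁻¹ / 4 := by
    calc ((r : ℝ) + 3) * y⁻¹ ≤ (2 * x) * (x ^ 8)⁻¹ :=
          mul_le_mul (by linarith) e1 (by positivity) (by positivity)
      _ = 2 * (x ^ 4)⁻¹ * (x ^ 3)⁻¹ := by
          field_simp
      _ ≤ 2 * (x ^ 4)⁻¹ * (1 / 2) := by
          refine mul_le_mul_of_nonneg_left ?_ (by positivity)
          rw [one_div]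
          refine inv_anti₀ (by norm_num) ?_
          calc (2 : ℝ) ≤ 4 ^ 3 := by norm_num
            _ ≤ x ^ 3 := pow_le_pow_left₀ (by norm_num) hx 3
      _ = (x ^ 4)⁻¹ := by ring
      _ ≤ _ := e3
  have e5 : 0 < x⁻¹ := by positivity
  linarith

/-- The theorem for all functions which are constant on no large rectangle. -/
theorem topGU (h1 : S_CoreD) (h2 : S_ProgD) (h4 : S_BalQ) : ∃ A : ℕ, 1 ≤ A ∧ ∀ n : ℕ, 1 ≤ n →
    ∀ f : (Fin n → Bool) → Prop, (∀ t : ℕ, Real.exp ((n : ℝ) ^ (3 / 4 : ℝ)) ≤ t → NoRect f t) →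
    TopC A n f := by
  classical
  obtain ⟨B, hB, hCore⟩ := h1
  refine ⟨8 * B, by omega, ?_⟩
  intro n n0 f hNR
  have hnR : (0 : ℝ) < n := by exact_mod_cast (by omega : 0 < n)
  intro k hk hkn P s hdet hs hf A' hA' hAcard
  obtain ⟨r, hr, hrB, hCr⟩ := hCore k hk
  have hkR : (2 : ℝ) ≤ k := by exact_mod_cast hk
  obtain ⟨x, hx⟩ : ∃ x : ℝ, x = (k : ℝ) ^ (B * k) := ⟨_, rfl⟩
  obtain ⟨y, hy⟩ : ∃ y : ℝ, y = (k : ℝ) ^ (8 * B * k) := ⟨_, rfl⟩
  have hxy : x ^ 8 = y := by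
    rw [hx, hy, ← pow_mul]
    congr 1
    ring
  have hx4 : 4 ≤ x := by
    calc (4 : ℝ) = 2 ^ 2 := by norm_num
      _ ≤ (k : ℝ) ^ 2 := pow_le_pow_left₀ (by norm_num) hkR 2
      _ ≤ x := by
          rw [hx]
          refine pow_le_pow_right₀ (by linarith) ?_
          nlinarith
  have hrx : (r : ℝ) ≤ x := by
    refine hrB.trans ?_
    rw [hx]
    refine pow_le_pow_right₀ (by linarith) ?_
    nlinarith
  rw [← hy] at hkn hs hAcard ⊢
  rw [← hx] at hCr
  obtain ⟨ε, hε⟩ : ∃ ε : ℝ, ε = y⁻¹ := ⟨_, rfl⟩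
  obtain ⟨c, hc⟩ : ∃ c : ℝ, c = x⁻¹ := ⟨_, rfl⟩
  have hε' : (n : ℝ) / y = ε * n := by rw [hε]; ring
  have hc' : ∀ z : ℝ, z / x = c * z := by
    intro z
    rw [hc]
    ring
  rw [hε'] at hs hAcard ⊢
  simp only [hc'] at hCr
  have hn3 : 2 * Real.sqrt ε + ((r : ℝ) + 3) * ε ≤ c := by
    rw [hε, hc]
    exact numsT x y r hx4 hxy.le hrx
  by_contra hV
  rw [not_le] at hV
  have hy0 : 0 < y := by rw [← hxy]; positivity
  have hy1 : 1 ≤ y := by
    rw [← hxy]
    exact one_le_pow₀ (by linarith)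
  have hε0 : 0 < ε := by rw [hε]; positivity
  have hc0 : 0 < c := by rw [hc]; positivity
  have hε1 : ε ≤ 1 := by
    rw [hε]
    exact inv_le_one_of_one_le₀ hy1
  have hApos : (0 : ℝ) < A'.card := lt_of_lt_of_le (by positivity) hAcard
  have hAne : A'.Nonempty := by
    rw [← card_pos]
    exact_mod_cast hApos
  have hkl : k * n ≤ r * (k * n / r + 1) := (Nat.lt_mul_div_succ (k * n) hr).le
  obtain ⟨F, hFA, hFne, hFc, sg, dm, hDPS, hdm, E, hE, hacc⟩ :=
    h2 n r k s (k * n / r + 1) P A' hdet hr hkl hAne hA'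
  have hball := h4 ε hε0.le hε1 n s hs
  have hballpos : (0 : ℝ) < ball n s := by
    have : 0 < ball n s := by
      unfold ball
      refine card_pos.2 ⟨∅, ?_⟩
      simp
    exact_mod_cast this
  have hVpos : (0 : ℝ) < Fintype.card P.V := by
    have : 0 < Fintype.card P.V := Fintype.card_pos_iff.2 ⟨P.start⟩
    exact_mod_cast this
  have hFpos : (0 : ℝ) < F.card := by exact_mod_cast hFne.card_pos
  have hdef : n * Real.log 2 - Real.log F.card ≤ c * n := by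
    have g1 := Real.log_le_log (by positivity) hAcard
    rw [Real.log_mul (by positivity) (Real.exp_pos _).ne', Real.log_pow, Real.log_exp] at g1
    have g2 := Real.log_le_log hApos hFc
    rw [Real.log_mul (by positivity) hFpos.ne', Real.log_mul (by positivity) (by positivity),
      Real.log_mul hballpos.ne' (by positivity), Real.log_pow, Real.log_pow] at g2
    have g3 : Real.log (Fintype.card P.V : ℝ) ≤ ε * n := by
      rw [Real.log_le_iff_le_exp hVpos]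
      exact hV.le
    have g4 : ((r + 1 : ℕ) : ℝ) * Real.log (Fintype.card P.V : ℝ) ≤ ((r + 1 : ℕ) : ℝ) * (ε * n) :=
      mul_le_mul_of_nonneg_left g3 (Nat.cast_nonneg _)
    have g5 : (s : ℝ) * Real.log 2 ≤ s * 1 := by
      apply mul_le_mul_of_nonneg_left _ (Nat.cast_nonneg _)
      have := Real.log_two_lt_d9
      linarith
    have g6 : (2 * Real.sqrt ε + ((r : ℝ) + 3) * ε) * n ≤ c * n :=
      mul_le_mul_of_nonneg_right hn3 hnR.le
    push_cast at g2 g4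
    linarith
  have hnk : x ≤ n := by
    refine le_trans ?_ hkn
    rw [← hxy]
    calc x = x ^ 1 := (pow_one _).symm
      _ ≤ x ^ 8 := pow_le_pow_right₀ (by linarith) (by norm_num)
  obtain ⟨x₀, hx₀, J, V, A1, hA1, B1, hB1, hAt, hBt, hAx, hBx, hyb⟩ :=
    hCr n hnk _ F sg dm hDPS hFne hdm hdef
  -- the threshold
  set t : ℕ := ⌈Real.exp ((n : ℝ) ^ (3 / 4 : ℝ))⌉₊ with ht
  have htb : (t : ℝ) ≤ Real.exp (c * n) := by
    have hlx : 1 ≤ Real.log x := by
      rw [Real.le_log_iff_exp_le (by linarith)]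
      linarith [Real.exp_one_lt_d9]
    have hln : 8 * Real.log x ≤ Real.log n := by
      have := Real.log_le_log (by positivity) (hxy.le.trans hkn)
      rw [Real.log_pow] at this
      exact_mod_cast this
    have p1 : (n : ℝ) ^ (3 / 4 : ℝ) = Real.exp (Real.log n * (3 / 4)) := by
      rw [Real.rpow_def_of_pos hnR]
    have p2 : Real.exp (Real.log n * (7 / 8)) ≤ c * n := by
      calc Real.exp (Real.log n * (7 / 8)) ≤ Real.exp (-Real.log x + Real.log n) :=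
            Real.exp_le_exp.2 (by linarith)
        _ = c * n := by rw [Real.exp_add, Real.exp_log hnR, Real.exp_neg, Real.exp_log (by linarith),
            hc]
    have p3 : 2 * Real.exp (Real.log n * (3 / 4)) ≤ Real.exp (Real.log n * (7 / 8)) := by
      have q1 : (2 : ℝ) ≤ Real.exp (Real.log n * (1 / 8)) := by
        have := Real.add_one_le_exp (Real.log n * (1 / 8))
        linarith
      calc 2 * Real.exp (Real.log n * (3 / 4))
          ≤ Real.exp (Real.log n * (1 / 8)) * Real.exp (Real.log n * (3 / 4)) :=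
            mul_le_mul_of_nonneg_right q1 (Real.exp_pos _).le
        _ = Real.exp (Real.log n * (7 / 8)) := by
            rw [← Real.exp_add]
            congr 1
            ring
    have p4 : 1 ≤ Real.exp (Real.log n * (3 / 4)) := Real.one_le_exp (by linarith)
    have p5 : (n : ℝ) ^ (3 / 4 : ℝ) + 1 ≤ c * n := by
      rw [p1]
      linarith
    have h : (t : ℝ) ≤ Real.exp ((n : ℝ) ^ (3 / 4 : ℝ)) + 1 :=
      (Nat.ceil_lt_add_one (Real.exp_pos _).le).le
    have hone : (1 : ℝ) ≤ Real.exp ((n : ℝ) ^ (3 / 4 : ℝ)) := Real.one_le_exp (by positivity)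
    have h2e : (2 : ℝ) ≤ Real.exp 1 := by
      have := Real.add_one_le_exp (1 : ℝ)
      linarith
    calc (t : ℝ) ≤ 2 * Real.exp ((n : ℝ) ^ (3 / 4 : ℝ)) := by linarith
      _ ≤ Real.exp 1 * Real.exp ((n : ℝ) ^ (3 / 4 : ℝ)) :=
          mul_le_mul_of_nonneg_right h2e (Real.exp_pos _).le
      _ = Real.exp (1 + (n : ℝ) ^ (3 / 4 : ℝ)) := (Real.exp_add _ _).symm
      _ ≤ Real.exp (c * n) := by
          refine Real.exp_le_exp.2 ?_
          linarith
  obtain ⟨a, ha, b, hb, hab⟩ := hNR t (Nat.le_ceil _) V A1 B1 (by exact_mod_cast htb.trans hAt)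
    (by exact_mod_cast htb.trans hBt)
    (fun a ha a' ha' v hv => (hAx a ha v hv).trans (hAx a' ha' v hv).symm)
    (fun b hb b' hb' v hv => (hBx b hb v hv).trans (hBx b' hb' v hv).symm)
  apply hab
  apply hf
  apply hacc
  · refine ⟨x₀, hx₀, fun v hv => ?_⟩
    unfold glue
    split_ifs
    · exact hE a (hA1 ha) x₀ hx₀ v hv
    · exact hE b (hB1 hb) x₀ hx₀ v hv
  · intro j
    by_cases hj : j ∈ J
    · exact ⟨b, hB1 hb, fun v hv => (hyb a ha b hb).1 j hj v hv⟩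
    · exact ⟨a, hA1 ha, fun v hv => (hyb a ha b hb).2 j hj v hv⟩


/-- The bits of the circuit become constants. -/
theorem short_coreG {κ : Type} [Fintype κ] [DecidableEq κ] (h : S_ResD) {n : ℕ} (f : (Fin n → Bool) → Prop)
    (c : κ → Bool) (P : NBP (κ ⊕ Fin n)) (t s : ℕ) (hun : Unamb P)
    (hP : ∀ y, Accepts P (Sum.elim c y) → f y) :
    ∃ P' : NBP (Fin n), Fintype.card P'.V = Fintype.card P.V ∧ Unamb P' ∧ (∀ y, Accepts P' y → f y) ∧
      ∀ y, Short P t s (Sum.elim c y) →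
        ∃ (v : P'.V) (l : List (Fin n × Bool)) (E : Finset (Fin n)), P'.acc v ∧
          Walk P' P'.start l v ∧ Consistent y l ∧ E.card ≤ s ∧
          ((l.map Prod.fst).filter (fun i => i ∉ E)).length ≤ t := by
  have hz : ∀ y : Fin n → Bool, (fun a => Sum.elim id y (sc c a)) = Sum.elim c y := by
    intro y
    funext a
    rcases a with a | i <;> rfl
  obtain ⟨P', hcard, hun', hacc, hwalk⟩ := h (κ ⊕ Fin n) (Fin n) P (sc c) hun
  have hsound : ∀ y, Accepts P' y → f y := by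
    intro y hy
    refine hP y ?_
    have := (hacc y).1 hy
    rwa [hz y] at this
  refine ⟨P', hcard, hun', hsound, ?_⟩
  rintro y ⟨v, l, hv, hw, hc, E, hE, hr⟩
  obtain ⟨v', hv', hw', hc'⟩ := hwalk y v l hv hw (by rw [hz y]; exact hc)
  refine ⟨v', subl (sc c) l, E, hv', hw', hc', hE, ?_⟩
  rw [subl_sc]
  exact hr

theorem shG (h3 : S_ResD) {A n m : ℕ} {f : (Fin n → Bool) → Prop} {c : CBits n m → Bool}
    (hval : ∀ y, Val n m c y ↔ f y) (hmain : TopC A n f) : ShC A n m c := by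
  classical
  intro k hk hkA P s hun hs hP hden
  obtain ⟨P', hcard, hun', hsound, hshort⟩ := short_coreG h3 f c P (k * n) s hun
    (fun y hy => (hval y).1 (hP y hy))
  rw [← hcard]
  refine hmain k hk hkA P' s hun' hs hsound
    ((univ : Finset (Fin n → Bool)).filter (fun y => Short P (k * n) s (Sum.elim c y))) ?_ ?_
  · intro y hy
    obtain ⟨v, l, E, a1, a2, a3, a4, a5⟩ := hshort y (mem_filter.1 hy).2
    exact ⟨v, l, E, a1, a2, a3, a4, a5⟩
  · rw [Nat.card_eq_fintype_card, Fintype.card_subtype] at hden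
    exact hden

theorem totG (h3 : S_ResD) (h4 : S_Avb) {A₀ n m : ℕ} {f : (Fin n → Bool) → Prop}
    {c : CBits n m → Bool} (hn2 : 2 ≤ n) (hm1 : 1 ≤ m) (hval : ∀ y, Val n m c y ↔ f y)
    (hmain : TopC A₀ n f) (B : Finset (Fin n → Bool)) (hB1 : ∀ y ∈ B, f y)
    (hB2 : 2 ^ (n - 2) ≤ B.card) : TotC (18 * A₀ + 2) n m := by
  classical
  intro k hk hkA t ht P hun hsound hwalks
  have hn0 : (0 : ℝ) < n := by exact_mod_cast (by omega : 0 < n)
  have hk' : (2 : ℝ) ≤ k := by exact_mod_cast hk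
  have hk0 : (0 : ℝ) < k := by linarith
  have hpow := totd_pow A₀ k hk
  have hD0 : (0 : ℝ) < ((4 * k + 1 : ℕ) : ℝ) ^ (A₀ * (4 * k + 1)) := by positivity
  have hsplit : (k : ℝ) ^ ((18 * A₀ + 2) * k) = (k : ℝ) ^ (18 * A₀ * k) * (k : ℝ) ^ (2 * k) := by
    rw [← pow_add]
    congr 1
    ring
  have hk16 : (7 : ℝ) ≤ (k : ℝ) ^ (2 * k) := by
    calc (7 : ℝ) ≤ 2 ^ 4 := by norm_num
      _ ≤ (k : ℝ) ^ 4 := pow_le_pow_left₀ (by norm_num) hk' 4
      _ ≤ (k : ℝ) ^ (2 * k) := pow_le_pow_right₀ (by linarith) (by omega)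
  have hq0 : (0 : ℝ) < (k : ℝ) ^ (18 * A₀ * k) := by positivity
  have hDD : ((4 * k + 1 : ℕ) : ℝ) ^ (A₀ * (4 * k + 1)) ≤ (k : ℝ) ^ ((18 * A₀ + 2) * k) := by
    rw [hsplit]
    nlinarith
  have hDn : ((4 * k + 1 : ℕ) : ℝ) ^ (A₀ * (4 * k + 1)) ≤ n := hDD.trans hkA
  have hn7 : 7 ≤ (n : ℝ) / ((4 * k + 1 : ℕ) : ℝ) ^ (A₀ * (4 * k + 1)) := by
    rw [le_div_iff₀ hD0]
    calc 7 * ((4 * k + 1 : ℕ) : ℝ) ^ (A₀ * (4 * k + 1)) ≤ (k : ℝ) ^ (2 * k) * (k : ℝ) ^ (18 * A₀ * k) :=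
          mul_le_mul hk16 hpow hD0.le (by positivity)
      _ = (k : ℝ) ^ ((18 * A₀ + 2) * k) := by rw [hsplit, mul_comm]
      _ ≤ n := hkA
  have he0 : (0 : ℝ) ≤ (n : ℝ) / ((4 * k + 1 : ℕ) : ℝ) ^ (A₀ * (4 * k + 1)) := by linarith
  have hle : (n : ℝ) / (k : ℝ) ^ ((18 * A₀ + 2) * k) ≤
      (n : ℝ) / ((4 * k + 1 : ℕ) : ℝ) ^ (A₀ * (4 * k + 1)) :=
    div_le_div_of_nonneg_left hn0.le hD0 hDD
  refine le_trans (Real.exp_le_exp.2 hle) ?_
  have hBne : B.Nonempty := by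
    rw [← card_pos]
    exact lt_of_lt_of_le (by positivity) hB2
  have ht1 : 1 ≤ t := by
    rcases Nat.eq_zero_or_pos t with h0 | h0
    · subst h0
      have h5 : 0 < Fintype.card (CBits n m) :=
        Fintype.card_pos_iff.2 ⟨Sum.inr ⟨0, by omega⟩⟩
      omega
    · exact h0
  -- the walks
  have hM : ∀ y : Fin t → Fin n → Bool, (∀ j, y j ∈ B) → ∃ v l, P.acc v ∧ Walk P P.start l v ∧
      Consistent (Sum.elim c (fun p : Fin t × Fin n => y p.1 p.2)) l ∧
      l.length ≤ (2 * k * n) * t := by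
    intro y hy
    obtain ⟨v, l, a1, a2, a3, a4⟩ := hwalks (Sum.elim c (fun p : Fin t × Fin n => y p.1 p.2))
      (fun j => (hval (y j)).2 (hB1 _ (hy j)))
    refine ⟨v, l, a1, a2, a3, a4.trans ?_⟩
    rw [Fintype.card_sum, Fintype.card_prod, Fintype.card_fin, Fintype.card_fin]
    calc k * (Fintype.card (CBits n m) + t * n) ≤ k * (t * n + t * n) :=
          Nat.mul_le_mul_left _ (Nat.add_le_add_right ht _)
      _ = (2 * k * n) * t := by ring
  choose! V Lw hW using hM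
  let T : (Fin t → Fin n → Bool) → Fin t → ℕ := fun y j => blk (Lw y) j
  obtain ⟨j, y, hy, hcard⟩ := h4 t (2 * k * n) (Fin n → Bool) B T ht1 hBne (by
    intro y hy
    exact (sum_blk (Lw y)).trans (hW y hy).2.2.2)
  obtain ⟨P', hPc, hun', hacc, hwalk⟩ := h3 (CBits n m ⊕ Fin t × Fin n) (Fin n) P (sj c y j) hun
  rw [← hPc]
  refine hmain (4 * k + 1) (by omega) hDn P' 0 hun' (by rw [Nat.cast_zero]; exact he0) ?_
    (B.filter (fun u => T (Function.update y j u) j ≤ 2 * (2 * k * n))) ?_ ?_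
  · intro u hu
    have h5 := (hacc u).1 hu
    rw [sj_val] at h5
    have h6 := hsound _ h5 j
    have h7 : (fun i => (Sum.elim c (fun p : Fin t × Fin n => Function.update y j u p.1 p.2) :
        CBits n m ⊕ Fin t × Fin n → Bool) (Sum.inr (j, i))) = u := by
      funext i
      show Function.update y j u j i = u i
      rw [Function.update_self]
    rw [h7] at h6
    exact (hval u).1 h6
  · intro u hu
    obtain ⟨huB, huT⟩ := mem_filter.1 hu
    have hy' : ∀ i, Function.update y j u i ∈ B := by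
      intro i
      by_cases hi : i = j
      · subst hi
        rw [Function.update_self]
        exact huB
      · rw [Function.update_of_ne hi]
        exact hy i
    obtain ⟨a1, a2, a3, -⟩ := hW _ hy'
    obtain ⟨v', b1, b2, b3⟩ := hwalk u _ _ a1 a2 (by rw [sj_val]; exact a3)
    refine ⟨v', _, ∅, b1, b2, b3, by simp, ?_⟩
    refine (List.length_filter_le _ _).trans ?_
    rw [List.length_map, subl_length]
    refine le_trans huT ?_
    nlinarith
  · have h5 : (B.card : ℝ) ≤ 2 * ((B.filter (fun u => T (Function.update y j u) j ≤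
        2 * (2 * k * n))).card : ℝ) := by exact_mod_cast hcard
    have h6 : (2 : ℝ) ^ (n - 2) ≤ B.card := by exact_mod_cast hB2
    have h7 : (2 : ℝ) ^ n ≤ 4 * 2 ^ (n - 2) := by
      have : n = (n - 2) + 2 := by omega
      conv_lhs => rw [this]
      rw [pow_add]
      norm_num
      linarith
    have h8 : Real.exp (-((n : ℝ) / ((4 * k + 1 : ℕ) : ℝ) ^ (A₀ * (4 * k + 1)))) ≤ 1 / 8 := by
      rw [Real.exp_neg, one_div]
      apply inv_anti₀ (by norm_num)
      have := Real.add_one_le_exp ((n : ℝ) / ((4 * k + 1 : ℕ) : ℝ) ^ (A₀ * (4 * k + 1)))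
      linarith
    calc (2 : ℝ) ^ n * Real.exp (-((n : ℝ) / ((4 * k + 1 : ℕ) : ℝ) ^ (A₀ * (4 * k + 1)))) ≤ 2 ^ n * (1 / 8) :=
          mul_le_mul_of_nonneg_left h8 (by positivity)
      _ ≤ _ := by linarith


end SRBP
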