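import Pool.Agent.Lib.MP_9dcf40_lc.SR.Model

/-!
# Deterministic and unambiguous branching programs (MP_9dcf40_lc): the definitions used in the statement
-/

namespace SRBP

/-- The program is deterministic: two different edges which leave the same state test the same variable,
with different outcomes. So a state has one free edge, or at most one edge for each value of one variable. -/
def Det {ι : Type} (P : NBP ι) : Prop := ∀ u a v a' v', P.edge u a v → P.edge u a' v' →
  (a = a' ∧ v = v') ∨ ∃ i b, a = some (i, b) ∧ a' = some (i, !b)

/-- The program is unambiguous between any two states: of two walks with the same ends and without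
contradicting tests, one makes the same tests as an initial part of the other. (For programs without cycles
this means, if the second walk is longer, that some walk returns to its last state.) -/
def Unamb {ι : Type} (P : NBP ι) : Prop := ∀ u v l l', Walk P u l v → Walk P u l' v →
  (∀ p ∈ l, (p.1, !p.2) ∉ l') → l <+: l' ∨ l' <+: l

/-- Two walks of a deterministic program which start in the same state. -/
theorem Det.initial {ι : Type} {P : NBP ι} (h : Det P) {u v : P.V} {l : List (ι × Bool)}
    (hw : Walk P u l v) : ∀ {v' : P.V} {l' : List (ι × Bool)}, Walk P u l' v' →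
    (∀ p ∈ l, (p.1, !p.2) ∉ l') → l <+: l' ∨ l' <+: l := by
  induction hw with
  | nil u =>
    intro v' l' _ _
    exact Or.inl (List.nil_prefix)
  | @free u w x l he _ ih =>
    intro v' l' hw' hc
    cases hw' with
    | nil => exact Or.inr List.nil_prefix
    | @free _ w' _ _ he' hw' =>
      rcases h _ _ _ _ _ he he' with ⟨-, h2⟩ | ⟨i, b, h1, -⟩
      · subst h2
        exact ih hw' hc
      · cases h1
    | @read _ w' _ _ a' b' he' hw' =>
      rcases h _ _ _ _ _ he he' with ⟨h1, -⟩ | ⟨i, b, h1, -⟩
      · cases h1
      · cases h1
  | @read u w x l a b he _ ih =>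
    intro v' l' hw' hc
    cases hw' with
    | nil => exact Or.inr List.nil_prefix
    | @free _ w' _ _ he' hw' =>
      rcases h _ _ _ _ _ he he' with ⟨h1, -⟩ | ⟨i, b, -, h1⟩
      · cases h1
      · cases h1
    | @read _ w' _ l'' a' b' he' hw' =>
      rcases h _ _ _ _ _ he he' with ⟨h1, h2⟩ | ⟨i, c, h1, h2⟩
      · obtain ⟨rfl, rfl⟩ := Prod.mk.inj (Option.some.inj h1)
        subst h2
        rcases ih hw' (fun p hp hq => hc p (List.mem_cons_of_mem _ hp) (List.mem_cons_of_mem _ hq))
          with h3 | h3
        · exact Or.inl (List.cons_prefix_cons.2 ⟨rfl, h3⟩)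
        · exact Or.inr (List.cons_prefix_cons.2 ⟨rfl, h3⟩)
      · obtain ⟨rfl, rfl⟩ := Prod.mk.inj (Option.some.inj h1)
        obtain ⟨rfl, rfl⟩ := Prod.mk.inj (Option.some.inj h2)
        exact absurd List.mem_cons_self (hc _ List.mem_cons_self)

/-- Deterministic programs are unambiguous. -/
theorem Det.unamb {ι : Type} {P : NBP ι} (h : Det P) : Unamb P :=
  fun _ _ _ _ h1 h2 hc => h.initial h1 h2 hc

end SRBP
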