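import Pool.Agent.Lib.MP_9dcf40_lc.DT.Spec3

/-!
# Theorem DT (MP_9dcf40_lc): normal form of deterministic programs (S_Nor)
-/

set_option autoImplicit false

namespace SRBP

open Finset

namespace NorAux

open scoped Classical

variable {n : ℕ} (P : NBP (Fin n))

/-- there is a test edge -/
def HasT (w : P.V) : Prop := ∃ (i : Fin n) (b : Bool) (v : P.V), P.edge w (some (i, b)) v

/-- the state reached by free edges -/
noncomputable def norm (u : P.V) : P.V ⊕ Bool :=
  if ∃ w, P.acc w ∧ Walk P u [] w then Sum.inr true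
  else if h : ∃ w, Walk P u [] w ∧ HasT P w then Sum.inl h.choose
  else Sum.inr false

/-- the tested variable -/
noncomputable def tst : P.V ⊕ Bool → Option (Fin n)
  | Sum.inl w => if h : ∃ (i : Fin n) (b : Bool) (v : P.V), P.edge w (some (i, b)) v then
      some h.choose else none
  | Sum.inr _ => none

/-- the next state -/
noncomputable def nx : P.V ⊕ Bool → Bool → P.V ⊕ Bool
  | Sum.inl w => fun b => if h : ∃ (v : P.V) (i : Fin n), P.edge w (some (i, b)) v then
      norm P h.choose else Sum.inr false
  | Sum.inr c => fun _ => Sum.inr c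

/-- the normal form -/
noncomputable def Q : Tr n where
  V := P.V ⊕ Bool
  fin := inferInstance
  tst := tst P
  nx := nx P
  start := norm P P.start
  acc := Sum.inr true

/-- one step of the normal form, on the type `P.V ⊕ Bool` -/
noncomputable def stp (y : Fin n → Bool) (u : P.V ⊕ Bool) : P.V ⊕ Bool :=
  match tst P u with
  | none => u
  | some v => nx P u (y v)

theorem stp_none (y : Fin n → Bool) {u : P.V ⊕ Bool} (h : tst P u = none) : stp P y u = u := by
  unfold stp
  rw [h]

theorem stp_some (y : Fin n → Bool) {u : P.V ⊕ Bool} {i : Fin n} (h : tst P u = some i) :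
    stp P y u = nx P u (y i) := by
  unfold stp
  rw [h]

theorem tst_inl (w : P.V) : tst P (Sum.inl w) =
    if h : ∃ (i : Fin n) (b : Bool) (v : P.V), P.edge w (some (i, b)) v then
      some h.choose else none := rfl

theorem nx_inl (w : P.V) (b : Bool) : nx P (Sum.inl w) b =
    if h : ∃ (v : P.V) (i : Fin n), P.edge w (some (i, b)) v then
      norm P h.choose else Sum.inr false := rfl

variable {P}

theorem tst_eq (hd : Det P) {w v : P.V} {i : Fin n} {b : Bool} (h : P.edge w (some (i, b)) v) :
    tst P (Sum.inl w) = some i := by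
  have hex : ∃ (i : Fin n) (b : Bool) (v : P.V), P.edge w (some (i, b)) v := ⟨i, b, v, h⟩
  rw [tst_inl, dif_pos hex]
  obtain ⟨b', v', h'⟩ := hex.choose_spec
  rcases hd _ _ _ _ _ h h' with ⟨h1, -⟩ | ⟨j, c, h1, h2⟩
  · simp only [Option.some.injEq, Prod.mk.injEq] at h1
    rw [← h1.1]
  · simp only [Option.some.injEq, Prod.mk.injEq] at h1 h2
    rw [h2.1, ← h1.1]

theorem nx_eq (hd : Det P) {w v : P.V} {i : Fin n} {b : Bool} (h : P.edge w (some (i, b)) v) :
    nx P (Sum.inl w) b = norm P v := by
  have hex : ∃ (v : P.V) (i : Fin n), P.edge w (some (i, b)) v := ⟨v, i, h⟩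
  rw [nx_inl, dif_pos hex]
  obtain ⟨i', h'⟩ := hex.choose_spec
  rcases hd _ _ _ _ _ h h' with ⟨-, h1⟩ | ⟨j, c, h1, h2⟩
  · rw [← h1]
  · simp only [Option.some.injEq, Prod.mk.injEq] at h1 h2
    exact absurd (h1.2.symm.trans h2.2) (by cases c <;> simp)

/-- From a state with a test edge no free edge leaves. -/
theorem walk_nil_test (hd : Det P) {w x : P.V} (hw : HasT P w) (h : Walk P w [] x) : x = w := by
  obtain ⟨i, b, v, he⟩ := hw
  cases h with
  | nil => rfl
  | free hf _ =>
    rcases hd _ _ _ _ _ he hf with ⟨h1, -⟩ | ⟨j, c, -, h2⟩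
    · cases h1
    · cases h2

/-- The state with a test edge reached by free edges is unique. -/
theorem uniq (hd : Det P) {u w : P.V} {l : List (Fin n × Bool)} (h : Walk P u l w) :
    l = [] → ∀ {w' : P.V}, Walk P u [] w' → HasT P w → HasT P w' → w = w' := by
  induction h with
  | nil u =>
    intro _ w' h' hw _
    exact (walk_nil_test hd hw h').symm
  | @free u v w l he hr ih =>
    intro hl w' h' hw hw'
    cases h' with
    | nil =>
      obtain ⟨i, b, x, hx⟩ := hw'
      rcases hd _ _ _ _ _ hx he with ⟨h1, -⟩ | ⟨j, c, -, h2⟩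
      · cases h1
      · cases h2
    | free he' hr' =>
      rcases hd _ _ _ _ _ he he' with ⟨-, h1⟩ | ⟨j, c, h1, -⟩
      · subst h1
        exact ih hl hr' hw hw'
      · cases h1
  | read _ _ _ _ _ =>
    intro hl
    cases hl

theorem norm_acc {u w : P.V} (h1 : P.acc w) (h2 : Walk P u [] w) : norm P u = Sum.inr true := by
  unfold norm
  rw [if_pos ⟨w, h1, h2⟩]

theorem norm_test (hd : Det P) {u w : P.V} (hn : ¬ ∃ w, P.acc w ∧ Walk P u [] w)
    (h2 : Walk P u [] w) (h3 : HasT P w) : norm P u = Sum.inl w := by
  have hex : ∃ w, Walk P u [] w ∧ HasT P w := ⟨w, h2, h3⟩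
  unfold norm
  rw [if_neg hn, dif_pos hex]
  congr 1
  exact uniq hd hex.choose_spec.1 rfl h2 hex.choose_spec.2 h3

theorem step_inr (y : Fin n → Bool) (c : Bool) : stp P y (Sum.inr c) = Sum.inr c := rfl

theorem iter_inr (y : Fin n → Bool) (c : Bool) (t : ℕ) :
    (stp P y)^[t] (Sum.inr c) = Sum.inr c := by
  induction t with
  | zero => rfl
  | succ t ih => rw [Function.iterate_succ_apply, step_inr, ih]

theorem step_inl (hd : Det P) (y : Fin n → Bool) {w v : P.V} {i : Fin n}
    (h : P.edge w (some (i, y i)) v) : stp P y (Sum.inl w) = norm P v := by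
  rw [stp_some P y (tst_eq hd h)]
  exact nx_eq hd h

theorem fwd (hd : Det P) (y : Fin n → Bool) {u v : P.V} {l : List (Fin n × Bool)} (h : Walk P u l v) :
    P.acc v → Consistent y l → ∀ t, l.length ≤ t → (stp P y)^[t] (norm P u) = Sum.inr true := by
  induction h with
  | nil u =>
    intro hv _ t _
    rw [norm_acc hv (Walk.nil u)]
    exact iter_inr y true t
  | @free u v w l he _ ih =>
    intro hw hc t ht
    by_cases hn : ∃ w, P.acc w ∧ Walk P u [] w
    · obtain ⟨x, hx1, hx2⟩ := hn
      rw [norm_acc hx1 hx2]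
      exact iter_inr y true t
    · have h1 := ih hw hc t ht
      have hvn : ¬ ∃ w, P.acc w ∧ Walk P v [] w := fun ⟨x, hx1, hx2⟩ => hn ⟨x, hx1, Walk.free he hx2⟩
      by_cases hex : ∃ w, Walk P v [] w ∧ HasT P w
      · obtain ⟨x, hx1, hx2⟩ := hex
        rw [norm_test hd hn (Walk.free he hx1) hx2]
        rw [norm_test hd hvn hx1 hx2] at h1
        exact h1
      · have e1 : norm P v = Sum.inr false := by
          unfold norm
          rw [if_neg hvn, dif_neg hex]
        rw [e1, iter_inr] at h1
        cases h1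
  | @read u v w l i b he hr ih =>
    intro hw hc t ht
    have hT : HasT P u := ⟨i, b, v, he⟩
    have hyi : y i = b := hc (i, b) List.mem_cons_self
    subst hyi
    by_cases hn : ∃ w, P.acc w ∧ Walk P u [] w
    · obtain ⟨x, hx1, hx2⟩ := hn
      rw [norm_acc hx1 hx2]
      exact iter_inr y true t
    · rw [norm_test hd hn (Walk.nil u) hT]
      rw [List.length_cons] at ht
      obtain ⟨t, rfl⟩ : ∃ t', t = t' + 1 := ⟨t - 1, by omega⟩
      rw [Function.iterate_succ_apply, step_inl hd y he]
      exact ih hw (fun p hp => hc p (List.mem_cons_of_mem _ hp)) t (by omega)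

theorem append_nil {u v w : P.V} {l l' : List (Fin n × Bool)} (h : Walk P u l v) (hl : l = [])
    (h' : Walk P v l' w) : Walk P u l' w := by
  induction h with
  | nil => exact h'
  | free he _ ih => exact Walk.free he (ih hl h')
  | read _ _ _ _ _ => cases hl

theorem bwd (hd : Det P) (y : Fin n → Bool) : ∀ (t : ℕ) (u : P.V),
    (stp P y)^[t] (norm P u) = Sum.inr true →
    ∃ (v : P.V) (l : List (Fin n × Bool)), P.acc v ∧ Walk P u l v ∧ Consistent y l ∧ l.length ≤ t := by
  intro t
  induction t with
  | zero =>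
    intro u h
    have h1 : norm P u = Sum.inr true := h
    by_cases hn : ∃ w, P.acc w ∧ Walk P u [] w
    · obtain ⟨w, hw1, hw2⟩ := hn
      exact ⟨w, [], hw1, hw2, fun p hp => absurd hp List.not_mem_nil, le_rfl⟩
    · unfold norm at h1
      rw [if_neg hn] at h1
      split_ifs at h1 with h2
      cases h1
  | succ t ih =>
    intro u h
    by_cases hn : ∃ w, P.acc w ∧ Walk P u [] w
    · obtain ⟨w, hw1, hw2⟩ := hn
      exact ⟨w, [], hw1, hw2, fun p hp => absurd hp List.not_mem_nil, Nat.zero_le _⟩
    · by_cases hex : ∃ w, Walk P u [] w ∧ HasT P w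
      · obtain ⟨w, hw1, hw2⟩ := hex
        rw [norm_test hd hn hw1 hw2, Function.iterate_succ_apply] at h
        obtain ⟨i, b, v, he⟩ := hw2
        have e2 : stp P y (Sum.inl w) = nx P (Sum.inl w) (y i) := stp_some P y (tst_eq hd he)
        rw [e2] at h
        by_cases h3 : ∃ (v : P.V) (i' : Fin n), P.edge w (some (i', y i)) v
        · obtain ⟨v', i', he'⟩ := h3
          have hi : i' = i := by
            have := tst_eq hd he'
            have h5 := tst_eq hd he
            rw [this] at h5
            exact Option.some.inj h5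
          subst hi
          rw [nx_eq hd he'] at h
          obtain ⟨x, l, hx, hwalk, hc, hlen⟩ := ih v' h
          refine ⟨x, (i', y i') :: l, hx, append_nil hw1 rfl (Walk.read i' (y i') he' hwalk), ?_, ?_⟩
          · intro p hp
            rcases List.mem_cons.1 hp with rfl | hp
            · rfl
            · exact hc p hp
          · rw [List.length_cons]
            omega
        · have e3 : nx P (Sum.inl w) (y i) = Sum.inr false := by
            rw [nx_inl, dif_neg h3]
          rw [e3, iter_inr] at h
          cases h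
      · have e1 : norm P u = Sum.inr false := by
          unfold norm
          rw [if_neg hn, dif_neg hex]
        rw [e1, iter_inr] at h
        cases h

end NorAux

open NorAux in
theorem tNor : S_Nor := by
  intro n P hd
  refine ⟨Q P, ?_, rfl, ?_⟩
  · change Fintype.card (P.V ⊕ Bool) ≤ _
    rw [Fintype.card_sum, Fintype.card_bool]
  · intro t y
    constructor
    · rintro ⟨v, l, hv, hw, hc, hl⟩
      exact fwd hd y hw hv hc t hl
    · intro h
      exact bwd hd y t P.start h

end SRBP
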