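import Pool.Agent.Lib.MP_9dcf40_lc.DT.Num

/-!
# Theorem DT (MP_9dcf40_lc): estimates for two-sided error
-/

namespace SRBP

open Finset

theorem div_ge' (a b : ℕ) (hb : 0 < b) : (a : ℝ) / b - 1 ≤ ((a / b : ℕ) : ℝ) := by
  have h1 : a < b * (a / b + 1) := Nat.lt_mul_div_succ a hb
  have h2 : (a : ℝ) < b * (((a / b : ℕ) : ℝ) + 1) := by exact_mod_cast h1
  have hb' : (0 : ℝ) < b := by exact_mod_cast hb
  rw [sub_le_iff_le_add, div_le_iff₀ hb']
  linarith

/-- The powers of `K`. -/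
theorem pows2 (K h n : ℕ) (hK : 2 ≤ K) (hh : h ≤ K) (hh1 : 1 ≤ h)
    (hn : (K : ℝ) ^ (40000 * K) ≤ n) (M Bn : ℕ) (hM : M = K ^ (1920 * K + 120))
    (hBn : Bn = K ^ (1920 * K + 106)) (Y : ℝ) (hY : Y = (K : ℝ) ^ (2000 * K)) :
    (0 : ℝ) < M ∧ (0 : ℝ) < Bn ∧ (n : ℝ) / Bn = (n / M) * (K : ℝ) ^ 14 ∧ K ^ 60 ≤ n ∧ 16 * h ≤ Bn ∧
    Real.log M ≤ 1980 * (K : ℝ) ^ 2 ∧ 24 * h * M ≤ Y ∧ 100000 * K * M ≤ Y ∧ (K : ℝ) ^ 60 ≤ Y ∧
    1000 ≤ Y ∧ Y ^ 20 ≤ n ∧ (K : ℝ) ^ (40000 * K) = Y ^ 20 := by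
  have hKR : (2 : ℝ) ≤ K := by exact_mod_cast hK
  have hK1 : (1 : ℝ) ≤ K := by linarith
  have hhR : (h : ℝ) ≤ K := by exact_mod_cast hh
  have hh0 : (1 : ℝ) ≤ h := by exact_mod_cast hh1
  have hMR : (M : ℝ) = (K : ℝ) ^ (1920 * K + 120) := by
    rw [hM]
    push_cast
    rfl
  have hBR : (Bn : ℝ) = (K : ℝ) ^ (1920 * K + 106) := by
    rw [hBn]
    push_cast
    rfl
  have hM0 : (0 : ℝ) < M := by rw [hMR]; positivity
  have hB0 : (0 : ℝ) < Bn := by rw [hBR]; positivity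
  have hMB : (M : ℝ) = Bn * (K : ℝ) ^ 14 := by rw [hMR, hBR, ← pow_add]
  have hY20 : (K : ℝ) ^ (40000 * K) = Y ^ 20 := by
    rw [hY, ← pow_mul]
    congr 1
    ring
  have p17 : (100000 : ℝ) ≤ (K : ℝ) ^ 17 := by
    calc (100000 : ℝ) ≤ 2 ^ 17 := by norm_num
      _ ≤ _ := pow_le_pow_left₀ (by norm_num) hKR 17
  have p5 : (24 : ℝ) ≤ (K : ℝ) ^ 5 := by
    calc (24 : ℝ) ≤ 2 ^ 5 := by norm_num
      _ ≤ _ := pow_le_pow_left₀ (by norm_num) hKR 5
  refine ⟨hM0, hB0, ?_, ?_, ?_, ?_, ?_, ?_, ?_, ?_, ?_, hY20⟩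
  · rw [hMB]
    field_simp
  · have h1 : (K : ℝ) ^ 60 ≤ n := le_trans (pow_le_pow_right₀ hK1 (by omega)) hn
    exact_mod_cast h1
  · rw [hBn]
    calc 16 * h ≤ 2 ^ 4 * K := by omega
      _ ≤ K ^ 4 * K := Nat.mul_le_mul_right _ (Nat.pow_le_pow_left hK 4)
      _ = K ^ 5 := by ring
      _ ≤ _ := Nat.pow_le_pow_right (by omega) (by omega)
  · have h1 : Real.log K ≤ K := by
      have := Real.log_le_sub_one_of_pos (x := (K : ℝ)) (by linarith)
      linarith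
    rw [hMR, Real.log_pow]
    push_cast
    calc (1920 * (K : ℝ) + 120) * Real.log K ≤ (1920 * K + 120) * K :=
          mul_le_mul_of_nonneg_left h1 (by linarith)
      _ ≤ _ := by nlinarith
  · calc 24 * (h : ℝ) * M ≤ (K : ℝ) ^ 5 * K * K ^ (1920 * K + 120) := by
          rw [hMR]
          refine mul_le_mul_of_nonneg_right (mul_le_mul p5 hhR (by linarith) (by positivity))
            (by positivity)
      _ = (K : ℝ) ^ (5 + 1 + (1920 * K + 120)) := by rw [← pow_succ, ← pow_add]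
      _ ≤ Y := by
          rw [hY]
          exact pow_le_pow_right₀ hK1 (by omega)
  · calc 100000 * (K : ℝ) * M ≤ (K : ℝ) ^ 17 * K * K ^ (1920 * K + 120) := by
          rw [hMR]
          refine mul_le_mul_of_nonneg_right (mul_le_mul_of_nonneg_right p17 (by linarith))
            (by positivity)
      _ = (K : ℝ) ^ (17 + 1 + (1920 * K + 120)) := by rw [← pow_succ, ← pow_add]
      _ ≤ Y := by
          rw [hY]
          exact pow_le_pow_right₀ hK1 (by omega)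
  · rw [hY]
    exact pow_le_pow_right₀ hK1 (by omega)
  · rw [hY]
    calc (1000 : ℝ) ≤ 2 ^ 10 := by norm_num
      _ ≤ (K : ℝ) ^ 10 := pow_le_pow_left₀ (by norm_num) hKR 10
      _ ≤ _ := pow_le_pow_right₀ hK1 (by omega)
  · rw [← hY20]
    exact hn

/-- The number of readings in a block. -/
theorem d_le2 (K W nR bR x d : ℝ) (hK : 2 ≤ K) (hb : 0 < bR) (hn : K ^ 60 ≤ nR)
    (hW : nR / bR = W * K ^ 14) (hx : x ≤ 512 * K * (K * nR / K ^ 60 + K))
    (hd : d ≤ x / bR) : d ≤ W / K ^ 33 := by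
  have hK0 : 0 < K := by linarith
  have hn0 : 0 < nR := lt_of_lt_of_le (by positivity) hn
  have h1 : K ≤ K * nR / K ^ 60 := by
    rw [le_div_iff₀ (by positivity)]
    nlinarith
  have h2 : x ≤ 1024 * K * (K * nR / K ^ 60) := by
    refine hx.trans ?_
    calc 512 * K * (K * nR / K ^ 60 + K) ≤ 512 * K * (K * nR / K ^ 60 + K * nR / K ^ 60) :=
          mul_le_mul_of_nonneg_left (by linarith) (by positivity)
      _ = _ := by ring
  have h3 : (1024 : ℝ) ≤ K ^ 11 := by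
    calc (1024 : ℝ) ≤ 2 ^ 11 := by norm_num
      _ ≤ K ^ 11 := pow_le_pow_left₀ (by norm_num) hK 11
  have hWn : W = nR / bR / K ^ 14 := by
    rw [hW]
    field_simp
  calc d ≤ x / bR := hd
    _ ≤ (1024 * K * (K * nR / K ^ 60)) / bR := by gcongr
    _ = 1024 * (K * (K * nR / K ^ 60) / bR) := by ring
    _ ≤ K ^ 11 * (K * (K * nR / K ^ 60) / bR) := mul_le_mul_of_nonneg_right h3 (by positivity)
    _ = W / K ^ 33 := by
        rw [hWn]
        field_simp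

/-- The two error terms. -/
theorem xbound (K n M s q d : ℕ) (W : ℝ) (hK : 2 ≤ K) (hM0 : (0 : ℝ) < M)
    (hW : W = n / M) (hWK : 1000 * (K : ℝ) ^ 2 ≤ W)
    (hlM : Real.log M ≤ 1980 * (K : ℝ) ^ 2) (hsn : s ≤ n) (hs1 : W / (32 * K) - 1 ≤ s)
    (hs2 : (s : ℝ) ≤ W / 32) (hd : (d : ℝ) ≤ W / (K : ℝ) ^ 33) (hq1 : W * (K : ℝ) ^ 14 - 1 ≤ q)
    (hq2 : (q : ℝ) ≤ W * (K : ℝ) ^ 14) (G : Finset (Fin n)) (hG : G.card = q) :
    (2 ^ n * (G.powerset.filter (fun S => S.card ≤ d)).card / 2 ^ s +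
        2 ^ n * n.choose s / 2 ^ (q - d) : ℝ) ≤ 2 * (2 ^ n * Real.exp (-(W / (100 * K)))) := by
  have hKR : (2 : ℝ) ≤ K := by exact_mod_cast hK
  have hK1 : (1 : ℝ) ≤ K := by linarith
  have hK0 : (0 : ℝ) < K := by linarith
  have hW0 : 0 < W := lt_of_lt_of_le (by positivity) hWK
  have hl1 := Real.log_two_gt_d9
  have hl2 := Real.log_two_lt_d9
  have hlogK : Real.log K ≤ K := by
    have := Real.log_le_sub_one_of_pos hK0
    linarith
  have hlogK0 : 0 ≤ Real.log K := Real.log_nonneg hK1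
  obtain ⟨bl, hbl⟩ : ∃ bl, bl = (G.powerset.filter (fun S => S.card ≤ d)).card := ⟨_, rfl⟩
  rw [← hbl]
  have hbl0 : 0 < bl := by
    rw [hbl]
    exact card_pos.2 ⟨∅, mem_filter.2 ⟨mem_powerset.2 (empty_subset _), by simp⟩⟩
  have hbl0' : (0 : ℝ) < bl := by exact_mod_cast hbl0
  have hC0' : (0 : ℝ) < n.choose s := by exact_mod_cast Nat.choose_pos hsn
  have hk18 : (2 : ℝ) ^ 18 ≤ (K : ℝ) ^ 18 := pow_le_pow_left₀ (by norm_num) hKR 18
  obtain ⟨Z, hZ⟩ : ∃ Z : ℝ, Z = W / K := ⟨_, rfl⟩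
  have hZ0 : 2000 ≤ Z := by
    rw [hZ, le_div_iff₀ hK0]
    nlinarith
  have hlbl : Real.log bl ≤ Z / 1000 := by
    have h1 := log_small G d (((K : ℝ) ^ 32)⁻¹) (by positivity)
      (inv_le_one_of_one_le₀ (one_le_pow₀ (by linarith)))
    rw [← hbl, hG, Real.log_inv, neg_neg, Real.log_pow] at h1
    push_cast at h1
    have h2 : ((K : ℝ) ^ 32)⁻¹ * q ≤ Z / (K : ℝ) ^ 17 := by
      calc ((K : ℝ) ^ 32)⁻¹ * q ≤ ((K : ℝ) ^ 32)⁻¹ * (W * (K : ℝ) ^ 14) :=
            mul_le_mul_of_nonneg_left hq2 (by positivity)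
        _ = _ := by
            rw [hZ]
            field_simp
    have h3 : (d : ℝ) * (32 * Real.log K) ≤ 32 * (Z / (K : ℝ) ^ 17) := by
      calc (d : ℝ) * (32 * Real.log K) ≤ (W / (K : ℝ) ^ 33) * (32 * K) :=
            mul_le_mul hd (by linarith) (by linarith) (by positivity)
        _ = 32 * (Z / (K : ℝ) ^ 31) := by
            rw [hZ]
            field_simp
        _ ≤ _ := by
            refine mul_le_mul_of_nonneg_left ?_ (by norm_num)
            exact div_le_div_of_nonneg_left (by linarith) (by positivity)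
              (pow_le_pow_right₀ hK1 (by norm_num))
    have hk17 : (2 : ℝ) ^ 17 ≤ (K : ℝ) ^ 17 := pow_le_pow_left₀ (by norm_num) hKR 17
    have h4 : Z / (K : ℝ) ^ 17 ≤ Z / 2 ^ 17 :=
      div_le_div_of_nonneg_left (by linarith) (by positivity) hk17
    have h5 : Z / 2 ^ 17 * 33 ≤ Z / 1000 := by
      rw [div_mul_eq_mul_div, div_le_div_iff₀ (by positivity) (by norm_num)]
      nlinarith
    linarith
  have hlC : Real.log (n.choose s) ≤ W + 62 * ((K : ℝ) ^ 2 * W) := by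
    have h0 : (n.choose s : ℝ) ≤
        (((univ : Finset (Fin n)).powerset.filter (fun S => S.card ≤ s)).card : ℝ) := by
      exact_mod_cast choose_le_ball n s
    have hM1 : (1 : ℝ) ≤ M := by
      have : 0 < M := by exact_mod_cast hM0
      exact_mod_cast this
    have h1 := log_small (univ : Finset (Fin n)) s ((M : ℝ)⁻¹) (by positivity)
      (inv_le_one_of_one_le₀ hM1)
    rw [card_univ, Fintype.card_fin, Real.log_inv, neg_neg] at h1
    have h2 := Real.log_le_log hC0' h0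
    have h3 : (M : ℝ)⁻¹ * n = W := by
      rw [hW]
      field_simp
    have h4 : (s : ℝ) * Real.log M ≤ (W / 32) * (1980 * (K : ℝ) ^ 2) :=
      mul_le_mul hs2 hlM (Real.log_nonneg hM1) (by positivity)
    rw [h3] at h1
    have h5 : 0 ≤ (K : ℝ) ^ 2 * W := by positivity
    linarith
  have ht : 4096 * ((K : ℝ) ^ 2 * W) - 1 - W ≤ ((q - d : ℕ) : ℝ) := by
    have h1 : (q : ℝ) - d ≤ ((q - d : ℕ) : ℝ) := by
      rcases le_total d q with h | h
      · rw [Nat.cast_sub h]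
      · have : (q : ℝ) ≤ d := by exact_mod_cast h
        have h2 : (0 : ℝ) ≤ ((q - d : ℕ) : ℝ) := Nat.cast_nonneg _
        linarith
    have h2 : W / (K : ℝ) ^ 33 ≤ W := div_le_self hW0.le (one_le_pow₀ (by linarith))
    have h3 : 4096 * ((K : ℝ) ^ 2 * W) ≤ W * (K : ℝ) ^ 14 := by
      have h4 : (4096 : ℝ) ≤ (K : ℝ) ^ 12 := by
        calc (4096 : ℝ) = 2 ^ 12 := by norm_num
          _ ≤ _ := pow_le_pow_left₀ (by norm_num) hKR 12
      calc 4096 * ((K : ℝ) ^ 2 * W) ≤ (K : ℝ) ^ 12 * ((K : ℝ) ^ 2 * W) :=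
            mul_le_mul_of_nonneg_right h4 (by positivity)
        _ = _ := by ring
    linarith
  have hZW : Z ≤ W := by
    rw [hZ]
    exact div_le_self hW0.le hK1
  have e1 : (2 : ℝ) ^ n * bl / 2 ^ s ≤ 2 ^ n * Real.exp (-(W / (100 * K))) := by
    rw [mul_div_assoc]
    refine mul_le_mul_of_nonneg_left ?_ (by positivity)
    rw [← Real.log_le_iff_le_exp (by positivity), Real.log_div hbl0'.ne' (by positivity),
      Real.log_pow]
    have h1 : W / (100 * K) = Z / 100 := by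
      rw [hZ]
      field_simp
    have h2 : W / (32 * K) = Z / 32 := by
      rw [hZ]
      field_simp
    rw [h1]
    rw [h2] at hs1
    have h3 : (Z / 32 - 1) * 0.69 ≤ s * Real.log 2 :=
      mul_le_mul hs1 (by linarith) (by norm_num) (Nat.cast_nonneg _)
    linarith
  have e2 : (2 : ℝ) ^ n * n.choose s / 2 ^ (q - d) ≤ 2 ^ n * Real.exp (-(W / (100 * K))) := by
    rw [mul_div_assoc]
    refine mul_le_mul_of_nonneg_left ?_ (by positivity)
    rw [← Real.log_le_iff_le_exp (by positivity), Real.log_div hC0'.ne' (by positivity),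
      Real.log_pow]
    have h1 : W / (100 * K) = Z / 100 := by
      rw [hZ]
      field_simp
    rw [h1]
    obtain ⟨p, hp⟩ : ∃ p, p = (K : ℝ) ^ 2 * W := ⟨_, rfl⟩
    rw [← hp] at ht hlC
    have hpW : 4 * W ≤ p := by
      rw [hp]
      have : (4 : ℝ) ≤ (K : ℝ) ^ 2 := by nlinarith
      nlinarith
    have h4 : 0 ≤ 4096 * p - 1 - W := by linarith
    have h3 : (4096 * p - 1 - W) * 0.69 ≤ ((q - d : ℕ) : ℝ) * Real.log 2 :=
      mul_le_mul ht (by linarith) (by norm_num) (Nat.cast_nonneg _)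
    linarith
  linarith

end SRBP
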