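import Pool.Agent.Lib.MP_9dcf40_lc.DT.Spec

/-!
# Theorem DT (MP_9dcf40_lc): packing of subcubes
-/

namespace SRBP

open Finset

/-- Rows: the subcubes `(w on V(x), x outside)` are disjoint for different keys. -/
theorem pack_rows {n r : ℕ} {β : Type} {F : Finset (Fin n → Bool)}
    {sg : Fin r → (Fin n → Bool) → β} {dm : β → Finset (Fin n)} (h : DPS n r F sg dm)
    (J : Finset (Fin r)) (G : Finset (Fin n)) (Vf : (Fin n → Bool) → Finset (Fin n)) (s d : ℕ)
    (hs : ∀ x ∈ F, (Vf x).card = s) (hd : ∀ x ∈ F, Disjoint (Vf x) (DJ sg dm J x))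
    (hc : ∀ x ∈ F, ∀ y ∈ F, (∀ j ∈ J, sg j x = sg j y) → Vf x = Vf y)
    (hD : ∀ x ∈ F, (DJ sg dm Jᶜ x ∩ G).card ≤ d) (R : Finset (Fin n → Bool)) (hRF : R ⊆ F)
    (hR : ∀ x ∈ R, ∀ y ∈ R, (∀ j ∈ J, sg j x = sg j y) → (∀ v, v ∉ Vf x → x v = y v) →
      DJ sg dm Jᶜ x ∩ G = DJ sg dm Jᶜ y ∩ G → x = y) :
    R.card * 2 ^ s ≤ 2 ^ n * (G.powerset.filter (fun S => S.card ≤ d)).card := by
  classical
  have h1 : (R.sigma (fun x => (Vf x).powerset)).card = R.card * 2 ^ s := by
    rw [card_sigma, sum_congr rfl (fun x hx => by rw [card_powerset, hs x (hRF hx)]), sum_const,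
      smul_eq_mul]
  have h2 : ((univ : Finset (Fin n → Bool)) ×ˢ (G.powerset.filter (fun S => S.card ≤ d))).card =
      2 ^ n * (G.powerset.filter (fun S => S.card ≤ d)).card := by
    rw [card_product, card_univ, Fintype.card_fun, Fintype.card_bool, Fintype.card_fin]
  rw [← h1, ← h2]
  refine card_le_card_of_injOn
    (fun p => ((fun v => if v ∈ Vf p.1 then decide (v ∈ p.2) else p.1 v), DJ sg dm Jᶜ p.1 ∩ G)) ?_ ?_
  · rintro ⟨x, W⟩ hp
    have hp' := mem_sigma.1 (mem_coe.1 hp)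
    refine mem_coe.2 (mem_product.2 ⟨mem_univ _, ?_⟩)
    rw [mem_filter, mem_powerset]
    exact ⟨inter_subset_right, hD x (hRF hp'.1)⟩
  · rintro ⟨x, W⟩ hp ⟨x', W'⟩ hp' heq
    obtain ⟨hx, hW⟩ := mem_sigma.1 (mem_coe.1 hp)
    obtain ⟨hx', hW'⟩ := mem_sigma.1 (mem_coe.1 hp')
    have hW : W ⊆ Vf x := mem_powerset.1 hW
    have hW' : W' ⊆ Vf x' := mem_powerset.1 hW'
    have hx : x ∈ R := hx
    have hx' : x' ∈ R := hx'
    obtain ⟨e1, e2⟩ := Prod.mk.inj heq
    have e1' : ∀ v, (if v ∈ Vf x then decide (v ∈ W) else x v) =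
        (if v ∈ Vf x' then decide (v ∈ W') else x' v) := fun v => congrFun e1 v
    have hsg : ∀ j ∈ J, sg j x = sg j x' := by
      intro j hj
      refine h.det j x (hRF hx) x' (hRF hx') (fun v hv hv' => ?_)
      have a1 : v ∉ Vf x := fun hv2 => disjoint_left.1 (hd x (hRF hx)) hv2
        (mem_biUnion.2 ⟨j, hj, hv⟩)
      have a2 : v ∉ Vf x' := fun hv2 => disjoint_left.1 (hd x' (hRF hx')) hv2
        (mem_biUnion.2 ⟨j, hj, hv'⟩)
      have := e1' v
      rwa [if_neg a1, if_neg a2] at this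
    have hV : Vf x = Vf x' := hc x (hRF hx) x' (hRF hx') hsg
    have hxx : x = x' := by
      refine hR x hx x' hx' hsg (fun v hv => ?_) e2
      have := e1' v
      rwa [if_neg hv, if_neg (by rw [← hV]; exact hv)] at this
    subst hxx
    have hWW : W = W' := by
      ext v
      by_cases hv : v ∈ Vf x
      · have := e1' v
        rw [if_pos hv, if_pos hv] at this
        exact decide_eq_decide.1 this
      · exact ⟨fun h => absurd (hW h) hv, fun h => absurd (hW' h) hv⟩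
    rw [hWW]

/-- Columns. -/
theorem pack_cols {n r : ℕ} {β : Type} {F : Finset (Fin n → Bool)}
    {sg : Fin r → (Fin n → Bool) → β} {dm : β → Finset (Fin n)} (h : DPS n r F sg dm)
    (J : Finset (Fin r)) (G : Finset (Fin n)) (Vf : (Fin n → Bool) → Finset (Fin n)) (s d : ℕ)
    (hs : ∀ x ∈ F, (Vf x).card = s)
    (hD : ∀ x ∈ F, (DJ sg dm Jᶜ x ∩ G).card ≤ d) (R : Finset (Fin n → Bool)) (hRF : R ⊆ F)
    (hR : ∀ x ∈ R, ∀ y ∈ R, (∀ j, j ∉ J → sg j x = sg j y) → (∀ v, v ∉ G → x v = y v) →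
      Vf x = Vf y → x = y) :
    R.card * 2 ^ (G.card - d) ≤ 2 ^ n * n.choose s := by
  classical
  have h1 : R.card * 2 ^ (G.card - d) ≤ (R.sigma (fun x => (G \ DJ sg dm Jᶜ x).powerset)).card := by
    rw [card_sigma, ← smul_eq_mul, ← sum_const]
    refine sum_le_sum (fun x hx => ?_)
    rw [card_powerset]
    refine Nat.pow_le_pow_right (by norm_num) ?_
    have h3 : (G \ DJ sg dm Jᶜ x).card + (DJ sg dm Jᶜ x ∩ G).card = G.card := by
      rw [inter_comm]
      exact card_sdiff_add_card_inter _ _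
    have h4 := hD x (hRF hx)
    omega
  have h2 : ((univ : Finset (Fin n → Bool)) ×ˢ (powersetCard s (univ : Finset (Fin n)))).card =
      2 ^ n * n.choose s := by
    rw [card_product, card_univ, Fintype.card_fun, Fintype.card_bool, Fintype.card_fin,
      card_powersetCard, card_univ, Fintype.card_fin]
  rw [← h2]
  refine h1.trans (card_le_card_of_injOn
    (fun p => ((fun v => if v ∈ G \ DJ sg dm Jᶜ p.1 then decide (v ∈ p.2) else p.1 v), Vf p.1))
    ?_ ?_)
  · rintro ⟨x, W⟩ hp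
    have hp' := mem_sigma.1 (mem_coe.1 hp)
    refine mem_coe.2 (mem_product.2 ⟨mem_univ _, ?_⟩)
    rw [mem_powersetCard]
    exact ⟨subset_univ _, hs x (hRF hp'.1)⟩
  · rintro ⟨x, W⟩ hp ⟨x', W'⟩ hp' heq
    obtain ⟨hx, hW⟩ := mem_sigma.1 (mem_coe.1 hp)
    obtain ⟨hx', hW'⟩ := mem_sigma.1 (mem_coe.1 hp')
    have hW : W ⊆ G \ DJ sg dm Jᶜ x := mem_powerset.1 hW
    have hW' : W' ⊆ G \ DJ sg dm Jᶜ x' := mem_powerset.1 hW'
    have hx : x ∈ R := hx
    have hx' : x' ∈ R := hx'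
    obtain ⟨e1, e2⟩ := Prod.mk.inj heq
    have e1' : ∀ v, (if v ∈ G \ DJ sg dm Jᶜ x then decide (v ∈ W) else x v) =
        (if v ∈ G \ DJ sg dm Jᶜ x' then decide (v ∈ W') else x' v) := fun v => congrFun e1 v
    have hsg : ∀ j, j ∉ J → sg j x = sg j x' := by
      intro j hj
      refine h.det j x (hRF hx) x' (hRF hx') (fun v hv hv' => ?_)
      have a1 : v ∉ G \ DJ sg dm Jᶜ x := fun hv2 => (mem_sdiff.1 hv2).2
        (mem_biUnion.2 ⟨j, mem_compl.2 hj, hv⟩)
      have a2 : v ∉ G \ DJ sg dm Jᶜ x' := fun hv2 => (mem_sdiff.1 hv2).2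
        (mem_biUnion.2 ⟨j, mem_compl.2 hj, hv'⟩)
      have := e1' v
      rwa [if_neg a1, if_neg a2] at this
    have hDD : DJ sg dm Jᶜ x = DJ sg dm Jᶜ x' := by
      unfold DJ
      exact biUnion_congr rfl (fun j hj => by rw [hsg j (mem_compl.1 hj)])
    have hxx : x = x' := by
      refine hR x hx x' hx' hsg (fun v hv => ?_) e2
      have := e1' v
      rwa [if_neg (fun h => hv (mem_sdiff.1 h).1), if_neg (fun h => hv (mem_sdiff.1 h).1)] at this
    subst hxx
    have hWW : W = W' := by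
      ext v
      by_cases hv : v ∈ G \ DJ sg dm Jᶜ x
      · have := e1' v
        rw [if_pos hv, if_pos hv] at this
        exact decide_eq_decide.1 this
      · exact ⟨fun h => absurd (hW h) hv, fun h => absurd (hW' h) hv⟩
    rw [hWW]

open scoped Classical in
/-- Elements with small fibres are few. -/
theorem poor_le {α K : Type} (F : Finset α) (κ : α → K) (a : ℝ) (Nk : ℕ) (ha : 0 ≤ a)
    (h : ∀ R ⊆ F, Set.InjOn κ R → R.card ≤ Nk) :
    ((F.filter (fun x => ((F.filter (fun y => κ y = κ x)).card : ℝ) < a)).card : ℝ) ≤ a * Nk := by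
  classical
  set P := F.filter (fun x => ((F.filter (fun y => κ y = κ x)).card : ℝ) < a) with hP
  have h1 : (P.card : ℝ) ≤ ∑ b ∈ P.image κ, a := by
    rw [card_eq_sum_card_image κ P]
    push_cast
    refine sum_le_sum (fun b hb => ?_)
    obtain ⟨x, hx, rfl⟩ := mem_image.1 hb
    refine le_trans ?_ (mem_filter.1 hx).2.le
    exact_mod_cast card_le_card (filter_subset_filter _ (filter_subset _ _))
  rw [sum_const, nsmul_eq_mul] at h1
  have h2 : (P.image κ).card ≤ Nk := by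
    obtain ⟨R, hR1, hR2⟩ := (P : Set α).exists_subset_bijOn κ
    have hfin : R.Finite := P.finite_toSet.subset hR1
    obtain ⟨R', rfl⟩ := hfin.exists_finset_coe
    have h3 : (P.image κ) = R'.image κ := by
      apply coe_injective
      rw [coe_image, coe_image]
      exact hR2.image_eq.symm
    rw [h3, card_image_of_injOn hR2.injOn]
    exact h R' (fun x hx => (filter_subset _ _) (mem_coe.1 (hR1 (mem_coe.2 hx)))) hR2.injOn
  calc (P.card : ℝ) ≤ (P.image κ).card * a := h1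
    _ ≤ Nk * a := mul_le_mul_of_nonneg_right (by exact_mod_cast h2) ha
    _ = a * Nk := mul_comm _ _

end SRBP
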