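import Pool.Agent.Lib.MP_9dcf40_lc.DT.Pack
import Pool.Agent.Lib.MP_9dcf40_lc.DT.Spec3

/-!
# Theorem DT (MP_9dcf40_lc): the partition into rectangles
-/

namespace SRBP

open Finset

/-- An `s`-element subset, if there is one. -/
private noncomputable def ch {n : ℕ} (s : ℕ) (U : Finset (Fin n)) : Finset (Fin n) := by
  classical exact if h : s ≤ U.card then (exists_subset_card_eq h).choose else ∅

private theorem ch_sub {n s : ℕ} {U : Finset (Fin n)} (h : s ≤ U.card) : ch s U ⊆ U := by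
  unfold ch
  rw [dif_pos h]
  exact (exists_subset_card_eq h).choose_spec.1

private theorem ch_card {n s : ℕ} {U : Finset (Fin n)} (h : s ≤ U.card) : (ch s U).card = s := by
  unfold ch
  rw [dif_pos h]
  exact (exists_subset_card_eq h).choose_spec.2

open scoped Classical in
/-- A sum as the sum of the averages over the classes. -/
theorem sum_cls {α K : Type} (F : Finset α) (κ : α → K) (g : α → ℝ) :
    ∑ x ∈ F, (∑ z ∈ F.filter (fun z => κ z = κ x), g z) /
      (F.filter (fun z => κ z = κ x)).card = ∑ x ∈ F, g x := by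
  have h1 : ∀ x ∈ F, (∑ z ∈ F.filter (fun z => κ z = κ x), g z) /
      ((F.filter (fun z => κ z = κ x)).card : ℝ) =
      ∑ z ∈ F, (if κ z = κ x then g z / ((F.filter (fun w => κ w = κ z)).card : ℝ) else 0) := by
    intro x _
    rw [sum_div, sum_filter]
    refine sum_congr rfl (fun z _ => ?_)
    by_cases hz : κ z = κ x
    · rw [if_pos hz, if_pos hz, hz]
    · rw [if_neg hz, if_neg hz]
  rw [sum_congr rfl h1, sum_comm]
  refine sum_congr rfl (fun z hz => ?_)
  rw [← sum_filter, sum_const, nsmul_eq_mul]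
  have h2 : (F.filter (fun x => κ z = κ x)) = (F.filter (fun w => κ w = κ z)) := by
    ext w
    rw [mem_filter, mem_filter]
    exact ⟨fun h => ⟨h.1, h.2.symm⟩, fun h => ⟨h.1, h.2.symm⟩⟩
  rw [h2]
  have h3 : ((F.filter (fun w => κ w = κ z)).card : ℝ) ≠ 0 := by
    have : 0 < (F.filter (fun w => κ w = κ z)).card := card_pos.2 ⟨z, mem_filter.2 ⟨hz, rfl⟩⟩
    exact_mod_cast this.ne'
  field_simp

open scoped Classical in
theorem part_bound {n r : ℕ} {β : Type} {F F2 : Finset (Fin n → Bool)}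
    {sg : Fin r → (Fin n → Bool) → β} {dm : β → Finset (Fin n)} (h : DPS n r F sg dm)
    (hc : Clo F sg dm) (hF2 : F2 ⊆ F)
    (J : Finset (Fin r)) (G : Finset (Fin n)) (s d : ℕ)
    (hcl : ∀ y ∈ F2, ∀ y' ∈ F2, ∀ z ∈ F, (∀ j ∈ J, sg j z = sg j y') →
      (∀ j, j ∉ J → sg j z = sg j y) → z ∈ F2)
    (hs : ∀ x ∈ F2, s ≤ ((univ \ DJ sg dm J x) \ G).card)
    (hD : ∀ x ∈ F2, (DJ sg dm Jᶜ x ∩ G).card ≤ d)
    (f : (Fin n → Bool) → Prop) (t : ℕ) (η : ℝ) (hη : 0 ≤ η) (hf : LowDisc f t η) :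
    |∑ x ∈ F2, chi f x| ≤ η * F2.card +
      t * (2 ^ n * (G.powerset.filter (fun S => S.card ≤ d)).card / 2 ^ s +
        2 ^ n * n.choose s / 2 ^ (G.card - d)) := by
  have h2 : DPS n r F2 sg dm := h.mono hF2
  let Vf : (Fin n → Bool) → Finset (Fin n) := fun x => ch s ((univ \ DJ sg dm J x) \ G)
  have hVs : ∀ x ∈ F2, (Vf x).card = s := fun x hx => ch_card (hs x hx)
  have hVsub : ∀ x ∈ F2, Vf x ⊆ (univ \ DJ sg dm J x) \ G := fun x hx => ch_sub (hs x hx)
  have hVd : ∀ x ∈ F2, Disjoint (Vf x) (DJ sg dm J x) := by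
    intro x hx
    rw [disjoint_left]
    intro v hv
    exact (mem_sdiff.1 (mem_sdiff.1 (hVsub x hx hv)).1).2
  have hVG : ∀ x ∈ F2, ∀ v ∈ Vf x, v ∉ G := fun x hx v hv => (mem_sdiff.1 (hVsub x hx hv)).2
  have hVj : ∀ x ∈ F2, ∀ j ∈ J, ∀ v ∈ dm (sg j x), v ∉ Vf x := fun x hx j hj v hv hv2 =>
    disjoint_left.1 (hVd x hx) hv2 (mem_biUnion.2 ⟨j, hj, hv⟩)
  have hDJ : ∀ (I : Finset (Fin r)) x y, (∀ j ∈ I, sg j x = sg j y) →
      DJ sg dm I x = DJ sg dm I y := by
    intro I x y hxy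
    unfold DJ
    exact biUnion_congr rfl (fun j hj => by rw [hxy j hj])
  have hVc : ∀ x y, (∀ j ∈ J, sg j x = sg j y) → Vf x = Vf y := by
    intro x y hxy
    show ch s _ = ch s _
    rw [hDJ J x y hxy]
  -- hybrids
  have hyb : ∀ y ∈ F2, ∀ y' ∈ F2, ∀ z : Fin n → Bool,
      (∀ j ∈ J, ∀ v ∈ dm (sg j y'), z v = y' v) →
      (∀ j, j ∉ J → ∀ v ∈ dm (sg j y), z v = y v) →
      z ∈ F2 ∧ (∀ j ∈ J, sg j z = sg j y') ∧ ∀ j, j ∉ J → sg j z = sg j y := by
    intro y hy y' hy' z h1 h2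
    have hz : z ∈ F := by
      refine hc z (fun j => ?_)
      by_cases hj : j ∈ J
      · exact ⟨y', hF2 hy', h1 j hj⟩
      · exact ⟨y, hF2 hy, h2 j hj⟩
    have e1 : ∀ j ∈ J, sg j z = sg j y' := fun j hj =>
      h.det j z hz y' (hF2 hy') (fun v _ hv => h1 j hj v hv)
    have e2 : ∀ j, j ∉ J → sg j z = sg j y := fun j hj =>
      h.det j z hz y (hF2 hy) (fun v _ hv => h2 j hj v hv)
    exact ⟨hcl y hy y' hy' z hz e1 e2, e1, e2⟩
  -- keys
  let κ₁ : (Fin n → Bool) → (Fin r → Option β) × (Fin n → Option Bool) × Finset (Fin n) :=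
    fun x => (fun j => if j ∈ J then some (sg j x) else none,
      fun v => if v ∈ Vf x then none else some (x v), DJ sg dm Jᶜ x ∩ G)
  let κ₂ : (Fin n → Bool) → (Fin r → Option β) × (Fin n → Option Bool) × Finset (Fin n) :=
    fun x => (fun j => if j ∈ J then none else some (sg j x),
      fun v => if v ∈ G then none else some (x v), Vf x)
  let κ : (Fin n → Bool) → Finset (Fin n) × (Fin n → Option Bool) × Finset (Fin n) ×
      (Fin n → Option Bool) :=
    fun x => (Vf x, fun v => if v ∈ Vf x ∨ v ∈ G then none else some (x v), DJ sg dm Jᶜ x ∩ G,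
      fun v => if v ∈ DJ sg dm Jᶜ x ∩ G then some (x v) else none)
  have k1 : ∀ x y, κ₁ x = κ₁ y → (∀ j ∈ J, sg j x = sg j y) ∧ (∀ v, v ∉ Vf x → x v = y v) ∧
      DJ sg dm Jᶜ x ∩ G = DJ sg dm Jᶜ y ∩ G := by
    intro x y hxy
    obtain ⟨e1, e2⟩ := Prod.mk.inj hxy
    obtain ⟨e2, e3⟩ := Prod.mk.inj e2
    have hsg : ∀ j ∈ J, sg j x = sg j y := by
      intro j hj
      have := congrFun e1 j
      simp only [if_pos hj] at this
      exact Option.some.inj this
    refine ⟨hsg, fun v hv => ?_, e3⟩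
    have := congrFun e2 v
    simp only [if_neg hv, if_neg (show v ∉ Vf y by rw [← hVc x y hsg]; exact hv)] at this
    exact Option.some.inj this
  have k2 : ∀ x y, κ₂ x = κ₂ y → (∀ j, j ∉ J → sg j x = sg j y) ∧ (∀ v, v ∉ G → x v = y v) ∧
      Vf x = Vf y := by
    intro x y hxy
    obtain ⟨e1, e2⟩ := Prod.mk.inj hxy
    obtain ⟨e2, e3⟩ := Prod.mk.inj e2
    refine ⟨fun j hj => ?_, fun v hv => ?_, e3⟩
    · have := congrFun e1 j
      simp only [if_neg hj] at this
      exact Option.some.inj this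
    · have := congrFun e2 v
      simp only [if_neg hv] at this
      exact Option.some.inj this
  have k1' : ∀ x y, (∀ j ∈ J, sg j x = sg j y) → (∀ v, v ∉ Vf x → x v = y v) →
      DJ sg dm Jᶜ x ∩ G = DJ sg dm Jᶜ y ∩ G → κ₁ x = κ₁ y := by
    intro x y h1 h2 h3
    have hV := hVc x y h1
    refine Prod.ext ?_ (Prod.ext ?_ h3)
    · funext j
      by_cases hj : j ∈ J
      · simp only [κ₁, if_pos hj, h1 j hj]
      · simp only [κ₁, if_neg hj]
    · funext v
      by_cases hv : v ∈ Vf x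
      · simp only [κ₁, if_pos hv, if_pos (show v ∈ Vf y by rw [← hV]; exact hv)]
      · simp only [κ₁, if_neg hv, if_neg (show v ∉ Vf y by rw [← hV]; exact hv), h2 v hv]
  have k2' : ∀ x y, (∀ j, j ∉ J → sg j x = sg j y) → (∀ v, v ∉ G → x v = y v) →
      Vf x = Vf y → κ₂ x = κ₂ y := by
    intro x y h1 h2 h3
    refine Prod.ext ?_ (Prod.ext ?_ h3)
    · funext j
      by_cases hj : j ∈ J
      · simp only [κ₂, if_pos hj]
      · simp only [κ₂, if_neg hj, h1 j hj]
    · funext v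
      by_cases hv : v ∈ G
      · simp only [κ₂, if_pos hv]
      · simp only [κ₂, if_neg hv, h2 v hv]
  have k3 : ∀ x y, κ x = κ y → Vf x = Vf y ∧ (∀ v, v ∉ Vf x → v ∉ G → x v = y v) ∧
      DJ sg dm Jᶜ x ∩ G = DJ sg dm Jᶜ y ∩ G ∧ ∀ v ∈ DJ sg dm Jᶜ x ∩ G, x v = y v := by
    intro x y hxy
    obtain ⟨e1, e2⟩ := Prod.mk.inj hxy
    obtain ⟨e2, e3⟩ := Prod.mk.inj e2
    obtain ⟨e3, e4⟩ := Prod.mk.inj e3
    refine ⟨e1, fun v hv hvG => ?_, e3, fun v hv => ?_⟩
    · have := congrFun e2 v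
      simp only [if_neg (show ¬ (v ∈ Vf x ∨ v ∈ G) from fun h => h.elim hv hvG),
        if_neg (show ¬ (v ∈ Vf y ∨ v ∈ G) from fun h => h.elim (by rw [← e1]; exact hv) hvG)]
        at this
      exact Option.some.inj this
    · have := congrFun e4 v
      simp only [if_pos hv, if_pos (show v ∈ DJ sg dm Jᶜ y ∩ G by rw [← e3]; exact hv)] at this
      exact Option.some.inj this
  have k3' : ∀ x y, Vf x = Vf y → (∀ v, v ∉ Vf x → v ∉ G → x v = y v) →
      DJ sg dm Jᶜ x ∩ G = DJ sg dm Jᶜ y ∩ G → (∀ v ∈ DJ sg dm Jᶜ x ∩ G, x v = y v) →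
      κ x = κ y := by
    intro x y h1 h2 h3 h4
    refine Prod.ext h1 (Prod.ext ?_ (Prod.ext h3 ?_))
    · funext v
      by_cases hv : v ∈ Vf x ∨ v ∈ G
      · simp only [κ, if_pos hv, if_pos (show v ∈ Vf y ∨ v ∈ G by rw [← h1]; exact hv)]
      · have hv' := not_or.1 hv
        simp only [κ, if_neg hv, if_neg (show ¬ (v ∈ Vf y ∨ v ∈ G) by rw [← h1]; exact hv),
          h2 v hv'.1 hv'.2]
    · funext v
      by_cases hv : v ∈ DJ sg dm Jᶜ x ∩ G
      · simp only [κ, if_pos hv, if_pos (show v ∈ DJ sg dm Jᶜ y ∩ G by rw [← h3]; exact hv), h4 v hv]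
      · simp only [κ, if_neg hv, if_neg (show v ∉ DJ sg dm Jᶜ y ∩ G by rw [← h3]; exact hv)]
  have hTmem : ∀ x, ∀ j, j ∉ J → ∀ v ∈ dm (sg j x), v ∈ DJ sg dm Jᶜ x := fun x j hj v hv =>
    mem_biUnion.2 ⟨j, mem_compl.2 hj, hv⟩
  have hTex : ∀ x, ∀ v ∈ DJ sg dm Jᶜ x, ∃ j, j ∉ J ∧ v ∈ dm (sg j x) := by
    intro x v hv
    obtain ⟨j, hj, hv⟩ := mem_biUnion.1 hv
    exact ⟨j, mem_compl.1 hj, hv⟩
  -- the class of `x` is a rectangle
  have hrect : ∀ x ∈ F2, ∀ g : (Fin n → Bool) → ℝ,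
      ∑ z ∈ F2.filter (fun z => κ z = κ x), g z =
      ∑ y ∈ F2.filter (fun y => κ₁ y = κ₁ x), ∑ y' ∈ F2.filter (fun y => κ₂ y = κ₂ x),
        g (glue (Vf x) y y') := by
    intro x hx g
    rw [← sum_product']
    symm
    refine sum_nbij' (fun p => glue (Vf x) p.1 p.2) (fun z => (glue (Vf x) z x, glue (Vf x) x z))
      ?_ ?_ ?_ ?_ ?_
    · rintro ⟨y, y'⟩ hp
      obtain ⟨hy, hy'⟩ := mem_product.1 hp
      obtain ⟨hy, e⟩ := mem_filter.1 hy
      obtain ⟨hy', e'⟩ := mem_filter.1 hy'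
      obtain ⟨a1, a2, a3⟩ := k1 y x e
      obtain ⟨b1, b2, b3⟩ := k2 y' x e'
      have hVy : Vf y = Vf x := hVc y x a1
      have hyx : ∀ v, v ∉ Vf x → y v = x v := fun v hv => a2 v (by rw [hVy]; exact hv)
      have hD' : ∀ v ∈ DJ sg dm Jᶜ x ∩ G, y' v = x v := by
        intro v hv
        obtain ⟨j, hj, hvj⟩ := hTex x v (mem_inter.1 hv).1
        exact h.val j y' (hF2 hy') x (hF2 hx) (b1 j hj) v (by rw [b1 j hj]; exact hvj)
      obtain ⟨c1, c2, c3⟩ := hyb y hy y' hy' (glue (Vf x) y y') (by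
          intro j hj v hv
          unfold glue
          rw [if_neg]
          rw [← b3]
          exact hVj y' hy' j hj v hv) (by
          intro j hj v hv
          unfold glue
          by_cases hvV : v ∈ Vf x
          · rw [if_pos hvV]
          · rw [if_neg hvV, hyx v hvV]
            by_cases hvG : v ∈ G
            · exact hD' v (by rw [← a3]; exact mem_inter.2 ⟨hTmem y j hj v hv, hvG⟩)
            · exact b2 v hvG)
      refine mem_filter.2 ⟨c1, k3' _ _ ((hVc _ _ c2).trans b3) ?_ ?_ ?_⟩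
      · intro v hv hvG
        have hv' : v ∉ Vf x := by
          rw [← b3, ← hVc _ _ c2]
          exact hv
        show (if v ∈ Vf x then y v else y' v) = x v
        rw [if_neg hv']
        exact b2 v hvG
      · rw [hDJ Jᶜ _ y (fun j hj => c3 j (mem_compl.1 hj))]
        exact a3
      · intro v hv
        have hv' : v ∈ DJ sg dm Jᶜ x ∩ G := by
          rw [hDJ Jᶜ _ y (fun j hj => c3 j (mem_compl.1 hj)), a3] at hv
          exact hv
        have hvV : v ∉ Vf x := fun hvV => hVG x hx v hvV (mem_inter.1 hv').2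
        show (if v ∈ Vf x then y v else y' v) = x v
        rw [if_neg hvV]
        exact hD' v hv'
    · intro z hz
      obtain ⟨hz, e⟩ := mem_filter.1 hz
      obtain ⟨a1, a2, a3, a4⟩ := k3 z x e
      have hzx : ∀ j, j ∉ J → ∀ v ∈ dm (sg j z), v ∉ Vf x → z v = x v := by
        intro j hj v hv hvV
        by_cases hvG : v ∈ G
        · exact a4 v (mem_inter.2 ⟨hTmem z j hj v hv, hvG⟩)
        · exact a2 v (by rw [a1]; exact hvV) hvG
      have hzx' : ∀ j, j ∉ J → ∀ v ∈ dm (sg j x), v ∉ Vf x → z v = x v := by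
        intro j hj v hv hvV
        by_cases hvG : v ∈ G
        · exact a4 v (by rw [a3]; exact mem_inter.2 ⟨hTmem x j hj v hv, hvG⟩)
        · exact a2 v (by rw [a1]; exact hvV) hvG
      obtain ⟨c1, c2, c3⟩ := hyb z hz x hx (glue (Vf x) z x) (by
          intro j hj v hv
          unfold glue
          rw [if_neg (hVj x hx j hj v hv)]) (by
          intro j hj v hv
          unfold glue
          by_cases hvV : v ∈ Vf x
          · rw [if_pos hvV]
          · rw [if_neg hvV, hzx j hj v hv hvV])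
      obtain ⟨d1, d2, d3⟩ := hyb x hx z hz (glue (Vf x) x z) (by
          intro j hj v hv
          unfold glue
          rw [if_neg]
          rw [← a1]
          exact hVj z hz j hj v hv) (by
          intro j hj v hv
          unfold glue
          by_cases hvV : v ∈ Vf x
          · rw [if_pos hvV]
          · rw [if_neg hvV, hzx' j hj v hv hvV])
      refine mem_product.2 ⟨mem_filter.2 ⟨c1, k1' _ _ c2 ?_ ?_⟩,
        mem_filter.2 ⟨d1, k2' _ _ d3 ?_ ?_⟩⟩
      · intro v hv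
        have hv' : v ∉ Vf x := by
          rw [← hVc _ _ c2]
          exact hv
        show (if v ∈ Vf x then z v else x v) = x v
        rw [if_neg hv']
      · rw [hDJ Jᶜ _ z (fun j hj => c3 j (mem_compl.1 hj))]
        exact a3
      · intro v hvG
        show (if v ∈ Vf x then x v else z v) = x v
        by_cases hvV : v ∈ Vf x
        · rw [if_pos hvV]
        · rw [if_neg hvV]
          exact a2 v (by rw [a1]; exact hvV) hvG
      · rw [hVc _ _ d2]
        exact a1
    · rintro ⟨y, y'⟩ hp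
      obtain ⟨hy, hy'⟩ := mem_product.1 hp
      obtain ⟨hy, e⟩ := mem_filter.1 hy
      obtain ⟨hy', e'⟩ := mem_filter.1 hy'
      obtain ⟨a1, a2, a3⟩ := k1 y x e
      obtain ⟨b1, b2, b3⟩ := k2 y' x e'
      have hVy : Vf y = Vf x := hVc y x a1
      refine Prod.ext ?_ ?_
      · funext v
        show (if v ∈ Vf x then (if v ∈ Vf x then y v else y' v) else x v) = y v
        by_cases hv : v ∈ Vf x
        · rw [if_pos hv, if_pos hv]
        · rw [if_neg hv]
          exact (a2 v (by rw [hVy]; exact hv)).symm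
      · funext v
        show (if v ∈ Vf x then x v else (if v ∈ Vf x then y v else y' v)) = y' v
        by_cases hv : v ∈ Vf x
        · rw [if_pos hv]
          exact (b2 v (hVG x hx v hv)).symm
        · rw [if_neg hv, if_neg hv]
    · intro z _
      funext v
      show (if v ∈ Vf x then (if v ∈ Vf x then z v else x v) else
        (if v ∈ Vf x then x v else z v)) = z v
      by_cases hv : v ∈ Vf x
      · rw [if_pos hv, if_pos hv]
      · rw [if_neg hv, if_neg hv]
    · intro p _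
      rfl
  have hcard : ∀ x ∈ F2, ((F2.filter (fun z => κ z = κ x)).card : ℝ) =
      (F2.filter (fun y => κ₁ y = κ₁ x)).card * (F2.filter (fun y => κ₂ y = κ₂ x)).card := by
    intro x hx
    have := hrect x hx (fun _ => 1)
    simpa only [sum_const, nsmul_eq_mul, mul_one] using this
  have hself : ∀ x ∈ F2, (0 : ℝ) < (F2.filter (fun z => κ z = κ x)).card := by
    intro x hx
    have : 0 < (F2.filter (fun z => κ z = κ x)).card := card_pos.2 ⟨x, mem_filter.2 ⟨hx, rfl⟩⟩
    exact_mod_cast this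
  -- poor elements
  have p1 := poor_le F2 κ₁ (t : ℝ)
    (2 ^ n * (G.powerset.filter (fun S => S.card ≤ d)).card / 2 ^ s) (Nat.cast_nonneg t) (by
    intro R hRF hR
    rw [Nat.le_div_iff_mul_le (by positivity)]
    exact pack_rows h2 J G Vf s d hVs hVd (fun x _ y _ => hVc x y) hD R hRF (by
      intro x hx y hy h1 h2 h3
      exact hR (mem_coe.2 hx) (mem_coe.2 hy) (k1' x y h1 h2 h3)))
  have p2 := poor_le F2 κ₂ (t : ℝ) (2 ^ n * n.choose s / 2 ^ (G.card - d)) (Nat.cast_nonneg t) (by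
    intro R hRF hR
    rw [Nat.le_div_iff_mul_le (by positivity)]
    exact pack_cols h2 J G Vf s d hVs hD R hRF (by
      intro x hx y hy h1 h2 h3
      exact hR (mem_coe.2 hx) (mem_coe.2 hy) (k2' x y h1 h2 h3)))
  have q1 : (((2 ^ n * (G.powerset.filter (fun S => S.card ≤ d)).card / 2 ^ s : ℕ)) : ℝ) ≤
      2 ^ n * (G.powerset.filter (fun S => S.card ≤ d)).card / 2 ^ s := by
    refine Nat.cast_div_le.trans (le_of_eq ?_)
    push_cast
    ring
  have q2 : (((2 ^ n * n.choose s / 2 ^ (G.card - d) : ℕ)) : ℝ) ≤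
      2 ^ n * n.choose s / 2 ^ (G.card - d) := by
    refine Nat.cast_div_le.trans (le_of_eq ?_)
    push_cast
    ring
  have hpt : ∀ x ∈ F2, |(∑ z ∈ F2.filter (fun z => κ z = κ x), chi f z) /
      (F2.filter (fun z => κ z = κ x)).card| ≤ η +
      (if ((F2.filter (fun y => κ₁ y = κ₁ x)).card : ℝ) < t then 1 else 0) +
      (if ((F2.filter (fun y => κ₂ y = κ₂ x)).card : ℝ) < t then 1 else 0) := by
    intro x hx
    have hpos := hself x hx
    have htriv : |(∑ z ∈ F2.filter (fun z => κ z = κ x), chi f z) /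
        (F2.filter (fun z => κ z = κ x)).card| ≤ 1 := by
      rw [abs_div, abs_of_pos hpos, div_le_one hpos]
      refine (abs_sum_le_sum_abs _ _).trans ?_
      calc ∑ z ∈ F2.filter (fun z => κ z = κ x), |chi f z| ≤
            ∑ _z ∈ F2.filter (fun z => κ z = κ x), (1 : ℝ) := by
            refine sum_le_sum (fun z _ => ?_)
            unfold chi
            split_ifs <;> simp
        _ = _ := by rw [sum_const, nsmul_eq_mul, mul_one]
    by_cases b1 : ((F2.filter (fun y => κ₁ y = κ₁ x)).card : ℝ) < t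
    · rw [if_pos b1]
      have : (0 : ℝ) ≤ (if ((F2.filter (fun y => κ₂ y = κ₂ x)).card : ℝ) < t then 1 else 0) := by
        split_ifs <;> norm_num
      linarith
    · rw [if_neg b1]
      by_cases b2 : ((F2.filter (fun y => κ₂ y = κ₂ x)).card : ℝ) < t
      · rw [if_pos b2]
        linarith
      · rw [if_neg b2, add_zero, add_zero, abs_div, abs_of_pos hpos, div_le_iff₀ hpos,
          hcard x hx, hrect x hx]
        refine hf (Vf x) _ _ (by exact_mod_cast not_lt.1 b1) (by exact_mod_cast not_lt.1 b2) ?_ ?_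
        · intro a ha a' ha' v hv
          obtain ⟨-, e⟩ := mem_filter.1 ha
          obtain ⟨-, e'⟩ := mem_filter.1 ha'
          obtain ⟨a1, a2, -⟩ := k1 x a e.symm
          obtain ⟨b1, b2, -⟩ := k1 x a' e'.symm
          rw [← a2 v hv, ← b2 v hv]
        · intro a ha a' ha' v hv
          obtain ⟨-, e⟩ := mem_filter.1 ha
          obtain ⟨-, e'⟩ := mem_filter.1 ha'
          obtain ⟨-, a2, -⟩ := k2 x a e.symm
          obtain ⟨-, b2, -⟩ := k2 x a' e'.symm
          have hvG := hVG x hx v hv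
          rw [← a2 v hvG, ← b2 v hvG]
  have e0 : ∑ x ∈ F2, (∑ z ∈ F2.filter (fun z => κ z = κ x), chi f z) /
      ((F2.filter (fun z => κ z = κ x)).card : ℝ) = ∑ x ∈ F2, chi f x := by
    rw [← sum_cls F2 κ (chi f)]
    congr!
  rw [← e0]
  refine (abs_sum_le_sum_abs _ _).trans ((sum_le_sum hpt).trans ?_)
  rw [sum_add_distrib, sum_add_distrib, sum_const, nsmul_eq_mul, sum_boole, sum_boole]
  have p1' : ((F2.filter (fun x => ((F2.filter (fun y => κ₁ y = κ₁ x)).card : ℝ) < t)).card : ℝ) ≤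
      t * ((2 ^ n * (G.powerset.filter (fun S => S.card ≤ d)).card / 2 ^ s : ℕ) : ℝ) := by
    refine le_trans (le_of_eq ?_) p1
    congr!
  have p2' : ((F2.filter (fun x => ((F2.filter (fun y => κ₂ y = κ₂ x)).card : ℝ) < t)).card : ℝ) ≤
      t * ((2 ^ n * n.choose s / 2 ^ (G.card - d) : ℕ) : ℝ) := by
    refine le_trans (le_of_eq ?_) p2
    congr!
  have r1 := p1'.trans (mul_le_mul_of_nonneg_left q1 (Nat.cast_nonneg t))
  have r2 := p2'.trans (mul_le_mul_of_nonneg_left q2 (Nat.cast_nonneg t))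
  rw [mul_add]
  have r3 : (F2.card : ℝ) * η = η * F2.card := mul_comm _ _
  linarith

end SRBP
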