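import Pool.Agent.Lib.MP_9dcf40_lc.DT.Spec3
import Pool.Agent.Lib.MP_9dcf40_lc.SR.Cfg

/-! # Theorem DT, module Pat: every pattern of values of a random quartic polynomial is rare -/

namespace SRBP

open Finset

open CfgAux

open scoped Classical in
theorem tPat : S_Pat := by
  intro n U W W' hWU hW'U a b ha hb x
  have hd : Disjoint W W' := by
    rw [disjoint_left]
    intro v hv hv'
    exact disjoint_left.1 hW'U hv' (hWU hv)
  obtain ⟨L, hL⟩ : ∃ L, L = ((univ : Finset (Coef n → Bool)).filter (fun c => ∀ S ∈ two W,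
    ∀ S' ∈ two W', quartic c (glue U (a S) (b S')) = x S S')) := ⟨_, rfl⟩
  rw [← hL]
  -- uniqueness
  have huniq : ∀ c ∈ L, ∀ c' ∈ L, (∀ C, C ∉ TT W W' → c C = c' C) → c = c' := by
    intro c hc c' hc' hagree
    rw [hL] at hc hc'
    have hc2 := (mem_filter.1 hc).2
    have hc2' := (mem_filter.1 hc').2
    let δ : Coef n → ZMod 2 := fun C => (if c C then 1 else 0) - (if c' C then 1 else 0)
    have hδ : ∀ C : Coef n, (¬ ∃ Q ∈ two W, ∃ Q' ∈ two W', C.1 = Q ∪ Q') → δ C = 0 := by
      intro C hC
      have h1 : C ∉ TT W W' := fun h => hC (mem_filter.1 h).2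
      show (if c C then (1 : ZMod 2) else 0) - (if c' C then 1 else 0) = 0
      rw [hagree C h1, sub_self]
    have hsum : ∀ S ∈ two W, ∀ S' ∈ two W',
        ∑ C, δ C * mono C (glue U (a S) (b S')) = 0 := by
      intro S hS S' hS'
      have h1 := hc2 S hS S' hS'
      have h2 := hc2' S hS S' hS'
      unfold quartic at h1 h2
      have h3 : ∑ C, δ C * mono C (glue U (a S) (b S')) =
          ∑ C : Coef n, (if c C then (1 : ZMod 2) else 0) * ∏ i ∈ C.1,
            (if glue U (a S) (b S') i then 1 else 0) -
          ∑ C : Coef n, (if c' C then (1 : ZMod 2) else 0) * ∏ i ∈ C.1,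
            (if glue U (a S) (b S') i then 1 else 0) := by
        rw [← sum_sub_distrib]
        refine sum_congr rfl fun C _ => ?_
        rw [← sub_mul]
        rfl
      rw [h3, h1, h2, sub_self]
    have htri := triangular hWU hW'U ha hb δ hδ hsum
    funext C
    by_cases hC : C ∈ TT W W'
    · obtain ⟨Q, hQ, Q', hQ', hCQ⟩ := (mem_filter.1 hC).2
      have hCe : C = un hQ hQ' := Subtype.ext hCQ
      have h1 := htri _ Q Q' hQ hQ' rfl
      rw [← hCe] at h1
      have h2 : (if c C then (1 : ZMod 2) else 0) = (if c' C then 1 else 0) := sub_eq_zero.1 h1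
      cases h3 : c C <;> cases h4 : c' C <;> simp [h3, h4] at h2 ⊢
    · exact hagree C hC
  -- the injection
  have hinj : L.card * 2 ^ (TT W W').card ≤ 2 ^ Fintype.card (Coef n) := by
    have h1 : (L ×ˢ (univ : Finset (TT W W' → Bool))).card ≤
        (univ : Finset (Coef n → Bool)).card := by
      refine card_le_card_of_injOn
        (fun p => fun C => if h : C ∈ TT W W' then p.2 ⟨C, h⟩ else p.1 C) ?_ ?_
      · intro p _
        exact mem_univ _
      · rintro ⟨c, g⟩ hp ⟨c', g'⟩ hp' h
        have hc : c ∈ L := (mem_product.1 hp).1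
        have hc' : c' ∈ L := (mem_product.1 hp').1
        have h2 : ∀ C, (if h : C ∈ TT W W' then g ⟨C, h⟩ else c C) =
            (if h : C ∈ TT W W' then g' ⟨C, h⟩ else c' C) := fun C => congrFun h C
        have h3 : c = c' := by
          refine huniq c hc c' hc' fun C hC => ?_
          have h4 := h2 C
          rwa [dif_neg hC, dif_neg hC] at h4
        have h5 : g = g' := by
          funext ⟨C, hC⟩
          have h4 := h2 C
          rwa [dif_pos hC, dif_pos hC] at h4
        rw [h3, h5]
    rw [card_product, card_univ, card_univ, Fintype.card_fun, Fintype.card_fun,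
      Fintype.card_bool, Fintype.card_coe] at h1
    exact h1
  refine le_trans ?_ hinj
  exact Nat.mul_le_mul_left _ (Nat.pow_le_pow_right (by norm_num) (card_TT hd))

end SRBP
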