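import Pool.Agent.Lib.MP_9dcf40_lc.DT.Spec
import Pool.Agent.Lib.MP_9dcf40_lc.LIN.Prog

/-!
# Theorem DT (MP_9dcf40_lc): from unambiguous programs to deterministic systems (S_ProgD)
-/

set_option autoImplicit false

namespace SRBP

open Finset

namespace DProgAux

/-- A list of tests of a walk from `u` to `v` consistent with `x`, of minimal length. -/
theorem minimal {ι : Type} {P : NBP ι} {u v : P.V} {x : ι → Bool} {l : List (ι × Bool)}
    (hw : Walk P u l v) (hc : Consistent x l) : ∃ μ : List (ι × Bool), Walk P u μ v ∧ Consistent x μ ∧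
      ∀ l' : List (ι × Bool), Walk P u l' v → Consistent x l' → μ.length ≤ l'.length := by
  classical
  have hne : ∃ i : ℕ, ∃ μ : List (ι × Bool), μ.length = i ∧ Walk P u μ v ∧ Consistent x μ :=
    ⟨_, l, rfl, hw, hc⟩
  obtain ⟨μ, h1, h2, h3⟩ := Nat.find_spec hne
  refine ⟨μ, h2, h3, fun l' h4 h5 => ?_⟩
  rw [h1]
  exact Nat.find_min' hne ⟨l', rfl, h4, h5⟩

/-- The minimal lists of two inputs which do not contradict each other are equal. -/
theorem minEq {ι : Type} {P : NBP ι} (hun : Unamb P) {u v : P.V} {x y : ι → Bool}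
    {μ ν : List (ι × Bool)} (h1 : Walk P u μ v) (h2 : Consistent x μ)
    (h3 : ∀ l' : List (ι × Bool), Walk P u l' v → Consistent x l' → μ.length ≤ l'.length)
    (k1 : Walk P u ν v) (k2 : Consistent y ν)
    (k3 : ∀ l' : List (ι × Bool), Walk P u l' v → Consistent y l' → ν.length ≤ l'.length)
    (hc : ∀ p ∈ μ, (p.1, !p.2) ∉ ν) : μ = ν := by
  rcases hun u v μ ν h1 k1 hc with h | h
  · refine h.eq_of_length (le_antisymm h.length_le (k3 μ h1 fun p hp => k2 p (h.subset hp)))
  · exact (h.eq_of_length (le_antisymm h.length_le (h3 ν k1 fun p hp => h2 p (h.subset hp)))).symm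

/-- The minimal list is an initial part of every list consistent with the same input. -/
theorem minPre {ι : Type} {P : NBP ι} (hun : Unamb P) {u v : P.V} {x : ι → Bool}
    {μ l : List (ι × Bool)} (h1 : Walk P u μ v) (h2 : Consistent x μ)
    (h3 : ∀ l' : List (ι × Bool), Walk P u l' v → Consistent x l' → μ.length ≤ l'.length)
    (k1 : Walk P u l v) (k2 : Consistent x l) : μ <+: l := by
  rcases hun u v μ l h1 k1 (fun p hp hq => by
    have e1 := h2 p hp
    have e2 := k2 _ hq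
    simp only at e2
    rw [e1] at e2
    cases hb : p.2 <;> simp [hb] at e2) with h | h
  · exact h
  · rw [h.eq_of_length (le_antisymm h.length_le (h3 l k1 k2))]

end DProgAux

open DProgAux in
open ProgB in
open scoped Classical in
theorem tProgD : S_ProgD := by
  intro n r k s ℓ P A hun hr hkl hA hdat
  obtain ⟨r, rfl⟩ : ∃ r', r = r' + 1 := ⟨r - 1, by omega⟩
  -- the data of each input
  have hD : ∀ y : Fin n → Bool, ∃ (E : Finset (Fin n)) (q : Fin (r + 1 + 1) → P.V), y ∈ A →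
      E.card ≤ s ∧ q 0 = P.start ∧ P.acc (q (Fin.last (r + 1))) ∧
      ∀ i : Fin (r + 1), ∃ seg, Walk P (q i.castSucc) seg (q i.succ) ∧ Consistent y seg ∧
        (seg.filter (fun a => decide (a.1 ∉ E))).length ≤ ℓ := by
    intro y
    by_cases hy : y ∈ A
    · obtain ⟨v, l, E, hv, hw, hc, hE, hlen⟩ := hdat y hy
      rw [List.filter_map, List.length_map] at hlen
      obtain ⟨q, seg, hq0, hq1, hw', hlen', hmem⟩ := ProgA.cutp P (fun a => decide (a.1 ∉ E)) ℓ r l
        P.start v hw (le_trans (le_trans (le_of_eq rfl) hlen) hkl)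
      refine ⟨E, q, fun _ => ⟨hE, hq0, by rw [hq1]; exact hv, fun i => ⟨seg i, hw' i, ?_, hlen' i⟩⟩⟩
      intro p hp
      exact hc p (hmem i p hp)
    · exact ⟨∅, fun _ => P.start, fun h => absurd h hy⟩
  choose E q hEq using hD
  -- pigeonhole
  set g : (Fin n → Bool) → (Σ _ : Finset (Fin n), Finset (Fin n)) × (Fin (r + 1 + 1) → P.V) :=
    fun y => (⟨E y, (E y).filter (fun v => y v = true)⟩, q y) with hg
  obtain ⟨⟨⟨E₀, S₀⟩, q₀⟩, hc, hcard⟩ := pigeonB A g
    (((((univ : Finset (Finset (Fin n))).filter (fun S => S.card ≤ s)).sigma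
      (fun E => E.powerset))) ×ˢ (univ : Finset (Fin (r + 1 + 1) → P.V))) (by
      intro y hy
      rw [Finset.mem_product, Finset.mem_sigma]
      refine ⟨⟨?_, ?_⟩, Finset.mem_univ _⟩
      · exact Finset.mem_filter.2 ⟨Finset.mem_univ _, (hEq y hy).1⟩
      · exact Finset.mem_powerset.2 (Finset.filter_subset _ _)) hA
  set F := A.filter (fun a => g a = ⟨⟨E₀, S₀⟩, q₀⟩) with hF
  have hcard' : (A.card : ℝ) ≤ ((((((univ : Finset (Finset (Fin n))).filter
      (fun S => S.card ≤ s)).sigma (fun E => E.powerset))) ×ˢ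
      (univ : Finset (Fin (r + 1 + 1) → P.V))).card : ℝ) * F.card := by
    refine hcard.trans (le_of_eq ?_)
    congr 2
    rw [hF]
    congr
  have hFd : ∀ x ∈ F, x ∈ A ∧ E x = E₀ ∧ (∀ v ∈ E₀, x v = decide (v ∈ S₀)) ∧ q x = q₀ := by
    intro x hx
    obtain ⟨h1, h2⟩ := Finset.mem_filter.1 hx
    simp only [hg, Prod.mk.injEq] at h2
    obtain ⟨h2, h3⟩ := h2
    rw [Sigma.mk.injEq] at h2
    obtain ⟨h4, h5⟩ := h2
    have h6 : (E x).filter (fun v => x v = true) = S₀ := eq_of_heq h5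
    refine ⟨h1, h4, ?_, h3⟩
    intro v hv
    have h7 : v ∈ S₀ ↔ x v = true := by
      rw [← h6, h4, Finset.mem_filter]
      exact ⟨fun h => h.2, fun h => ⟨hv, h⟩⟩
    by_cases hxv : x v = true
    · rw [hxv]
      simp [h7, hxv]
    · have : x v = false := by simpa using hxv
      rw [this]
      simp [h7, this]
  have hFne : F.Nonempty := by
    rw [Finset.nonempty_iff_ne_empty]
    intro h
    rw [h, Finset.card_empty, Nat.cast_zero, mul_zero] at hcard'
    have : (0 : ℝ) < A.card := by exact_mod_cast hA.card_pos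
    linarith
  -- the labels
  have hμ : ∀ (j : Fin (r + 1)) (x : Fin n → Bool), ∃ μ : List (Fin n × Bool), x ∈ F →
      Walk P (q₀ j.castSucc) μ (q₀ j.succ) ∧ Consistent x μ ∧
      (∀ l' : List (Fin n × Bool), Walk P (q₀ j.castSucc) l' (q₀ j.succ) → Consistent x l' →
        μ.length ≤ l'.length) ∧
      ∃ seg : List (Fin n × Bool), μ <+: seg ∧ (seg.filter (fun a => decide (a.1 ∉ E₀))).length ≤ ℓ := by
    intro j x
    by_cases hx : x ∈ F
    · obtain ⟨hxA, hxE, hxS, hxq⟩ := hFd x hx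
      obtain ⟨_, _, _, hseg⟩ := hEq x hxA
      obtain ⟨seg, hw, hcons, hlen⟩ := hseg j
      rw [hxq] at hw
      rw [hxE] at hlen
      obtain ⟨μ, h1, h2, h3⟩ := minimal hw hcons
      exact ⟨μ, fun _ => ⟨h1, h2, h3, seg, minPre hun h1 h2 h3 hw hcons, hlen⟩⟩
    · exact ⟨[], fun h => absurd h hx⟩
  choose μ hμ using hμ
  set σ : Fin (r + 1) → (Fin n → Bool) → (Fin n → Option Bool) :=
    fun j x v => if v ∉ E₀ ∧ ∃ a ∈ μ j x, a.1 = v then some (x v) else none with hσ
  have hdm : ∀ (j : Fin (r + 1)) (x : Fin n → Bool) (v : Fin n),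
      v ∈ univ.filter (fun v => (σ j x v).isSome) ↔ (v ∉ E₀ ∧ ∃ a ∈ μ j x, a.1 = v) := by
    intro j x v
    rw [Finset.mem_filter]
    simp only [hσ]
    by_cases h : v ∉ E₀ ∧ ∃ a ∈ μ j x, a.1 = v
    · rw [if_pos h]
      exact ⟨fun _ => h, fun _ => ⟨Finset.mem_univ _, rfl⟩⟩
    · rw [if_neg h]
      exact ⟨fun h1 => absurd h1.2 (by simp), fun h1 => absurd h1 h⟩
  have hE₀ : ∀ x ∈ F, ∀ y ∈ F, ∀ v ∈ E₀, x v = y v := by
    intro x hx y hy v hv
    rw [(hFd x hx).2.2.1 v hv, (hFd y hy).2.2.1 v hv]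
  refine ⟨F, Finset.filter_subset _ _, hFne, ?_, σ, fun b => univ.filter (fun v => (b v).isSome),
    ⟨?_, ?_⟩, ?_, E₀, hE₀, ?_⟩
  · have h1 := card_pairs n s
    have h2 : ((((((univ : Finset (Finset (Fin n))).filter
      (fun S => S.card ≤ s)).sigma (fun E => E.powerset))) ×ˢ
      (univ : Finset (Fin (r + 1 + 1) → P.V))).card : ℝ) ≤
        (ball n s * 2 ^ s) * (Fintype.card P.V : ℝ) ^ (r + 1 + 1) := by
      rw [Finset.card_product, Nat.cast_mul, Finset.card_univ, Fintype.card_fun, Fintype.card_fin,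
        Nat.cast_pow]
      exact mul_le_mul_of_nonneg_right h1 (pow_nonneg (Nat.cast_nonneg _) _)
    exact hcard'.trans (mul_le_mul_of_nonneg_right h2 (Nat.cast_nonneg _))
  · intro j x hx y hy hxy v hv
    have hv' : v ∈ univ.filter (fun v => (σ j y v).isSome) := by
      rw [← hxy]
      exact hv
    have h1 := congrFun hxy v
    simp only [hσ] at h1
    rw [if_pos ((hdm j x v).1 hv), if_pos ((hdm j y v).1 hv')] at h1
    exact Option.some.inj h1
  · intro j x hx y hy h
    obtain ⟨a1, a2, a3, -⟩ := hμ j x hx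
    obtain ⟨b1, b2, b3, -⟩ := hμ j y hy
    have hc : ∀ p ∈ μ j x, (p.1, !p.2) ∉ μ j y := by
      intro p hp hq
      have e1 := a2 p hp
      have e2 := b2 _ hq
      simp only at e2
      have e3 : x p.1 = y p.1 := by
        by_cases hE : p.1 ∈ E₀
        · exact hE₀ x hx y hy p.1 hE
        · exact h p.1 ((hdm j x p.1).2 ⟨hE, p, hp, rfl⟩) ((hdm j y p.1).2 ⟨hE, _, hq, rfl⟩)
      rw [e1, e2] at e3
      cases hb : p.2 <;> simp [hb] at e3
    have heq := minEq hun a1 a2 a3 b1 b2 b3 hc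
    funext v
    simp only [hσ]
    rw [heq]
    by_cases hv : v ∉ E₀ ∧ ∃ a ∈ μ j y, a.1 = v
    · rw [if_pos hv, if_pos hv]
      obtain ⟨-, a, ha, rfl⟩ := hv
      rw [b2 a ha, a2 a (by rw [heq]; exact ha)]
    · rw [if_neg hv, if_neg hv]
  · intro x hx j
    obtain ⟨a1, a2, a3, seg, hpre, hlen⟩ := hμ j x hx
    refine le_trans ?_ hlen
    calc (univ.filter (fun v => (σ j x v).isSome)).card
        ≤ (((seg.filter (fun a => decide (a.1 ∉ E₀))).map Prod.fst).toFinset).card := by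
          apply Finset.card_le_card
          intro v hv
          obtain ⟨h3, a, ha, hav⟩ := (hdm j x v).1 hv
          rw [List.mem_toFinset, List.mem_map]
          refine ⟨a, ?_, hav⟩
          rw [List.mem_filter]
          refine ⟨hpre.subset ha, ?_⟩
          rw [hav]
          simpa using h3
      _ ≤ ((seg.filter (fun a => decide (a.1 ∉ E₀))).map Prod.fst).length :=
          List.toFinset_card_le _
      _ = (seg.filter (fun a => decide (a.1 ∉ E₀))).length := List.length_map _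
  · rintro z ⟨x, hx, hzx⟩ hz
    obtain ⟨hxA, hxE, hxS, hxq⟩ := hFd x hx
    obtain ⟨_, hq0, hqa, _⟩ := hEq x hxA
    rw [hxq] at hq0 hqa
    obtain ⟨l, hl1, hl2⟩ := join' P z (r + 1) q₀ (by
      intro j
      obtain ⟨y, hy, hzy⟩ := hz j
      obtain ⟨b1, b2, -, -⟩ := hμ j y hy
      refine ⟨μ j y, b1, ?_⟩
      intro a ha
      by_cases haE : a.1 ∈ E₀
      · rw [hzx a.1 haE, hE₀ x hx y hy a.1 haE]
        exact b2 a ha
      · rw [hzy a.1 ((hdm j y a.1).2 ⟨haE, a, ha, rfl⟩)]
        exact b2 a ha)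
    rw [hq0] at hl1
    exact ⟨_, l, hqa, hl1, hl2⟩

end SRBP
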