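import Pool.Agent.Lib.MP_9dcf40_lc.DT.Pack
import Pool.Agent.Lib.MP_9dcf40_lc.LIN.Hyb

/-!
# Theorem DT (MP_9dcf40_lc): the rectangle
-/

namespace SRBP

open Finset

/-- An `s`-element subset, if there is one. -/
private noncomputable def ch {n : ℕ} (s : ℕ) (U : Finset (Fin n)) : Finset (Fin n) := by
  classical exact if h : s ≤ U.card then (exists_subset_card_eq h).choose else ∅

private theorem ch_sub {n s : ℕ} {U : Finset (Fin n)} (h : s ≤ U.card) : ch s U ⊆ U := by
  unfold ch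
  rw [dif_pos h]
  exact (exists_subset_card_eq h).choose_spec.1

private theorem ch_card {n s : ℕ} {U : Finset (Fin n)} (h : s ≤ U.card) : (ch s U).card = s := by
  unfold ch
  rw [dif_pos h]
  exact (exists_subset_card_eq h).choose_spec.2

open scoped Classical in
theorem rectD {n r : ℕ} {β : Type} {F : Finset (Fin n → Bool)}
    {sg : Fin r → (Fin n → Bool) → β} {dm : β → Finset (Fin n)} (h : DPS n r F sg dm)
    (J : Finset (Fin r)) (G : Finset (Fin n)) (s d : ℕ)
    (hs : ∀ x ∈ F, s ≤ ((univ \ DJ sg dm J x) \ G).card)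
    (hD : ∀ x ∈ F, (DJ sg dm Jᶜ x ∩ G).card ≤ d) (a b : ℝ) (ha : 0 ≤ a) (hb : 0 ≤ b)
    (hab : a * (2 ^ n * (G.powerset.filter (fun S => S.card ≤ d)).card / 2 ^ s) +
      b * (2 ^ n * n.choose s / 2 ^ (G.card - d)) < F.card) :
    Rect F sg dm (min a b) := by
  obtain ⟨bl, hbl⟩ : ∃ bl, bl = (G.powerset.filter (fun S => S.card ≤ d)).card := ⟨_, rfl⟩
  rw [← hbl] at hab
  let Vf : (Fin n → Bool) → Finset (Fin n) := fun x => ch s ((univ \ DJ sg dm J x) \ G)
  have hVs : ∀ x ∈ F, (Vf x).card = s := fun x hx => ch_card (hs x hx)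
  have hVsub : ∀ x ∈ F, Vf x ⊆ (univ \ DJ sg dm J x) \ G := fun x hx => ch_sub (hs x hx)
  have hVd : ∀ x ∈ F, Disjoint (Vf x) (DJ sg dm J x) := by
    intro x hx
    rw [disjoint_left]
    intro v hv
    exact (mem_sdiff.1 (mem_sdiff.1 (hVsub x hx hv)).1).2
  have hDJ : ∀ x y, (∀ j ∈ J, sg j x = sg j y) → DJ sg dm J x = DJ sg dm J y := by
    intro x y hxy
    unfold DJ
    exact biUnion_congr rfl (fun j hj => by rw [hxy j hj])
  have hVc : ∀ x y, (∀ j ∈ J, sg j x = sg j y) → Vf x = Vf y := by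
    intro x y hxy
    show ch s _ = ch s _
    rw [hDJ x y hxy]
  -- keys
  let κ₁ : (Fin n → Bool) → (Fin r → Option β) × (Fin n → Option Bool) × Finset (Fin n) :=
    fun x => (fun j => if j ∈ J then some (sg j x) else none,
      fun v => if v ∈ Vf x then none else some (x v), DJ sg dm Jᶜ x ∩ G)
  let κ₂ : (Fin n → Bool) → (Fin r → Option β) × (Fin n → Option Bool) × Finset (Fin n) :=
    fun x => (fun j => if j ∈ J then none else some (sg j x),
      fun v => if v ∈ G then none else some (x v), Vf x)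
  have k1 : ∀ x y, κ₁ x = κ₁ y → (∀ j ∈ J, sg j x = sg j y) ∧ (∀ v, v ∉ Vf x → x v = y v) ∧
      DJ sg dm Jᶜ x ∩ G = DJ sg dm Jᶜ y ∩ G := by
    intro x y hxy
    obtain ⟨e1, e2⟩ := Prod.mk.inj hxy
    obtain ⟨e2, e3⟩ := Prod.mk.inj e2
    have hsg : ∀ j ∈ J, sg j x = sg j y := by
      intro j hj
      have := congrFun e1 j
      simp only [if_pos hj] at this
      exact Option.some.inj this
    refine ⟨hsg, fun v hv => ?_, e3⟩
    have := congrFun e2 v
    simp only [if_neg hv, if_neg (show v ∉ Vf y by rw [← hVc x y hsg]; exact hv)] at this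
    exact Option.some.inj this
  have k2 : ∀ x y, κ₂ x = κ₂ y → (∀ j, j ∉ J → sg j x = sg j y) ∧ (∀ v, v ∉ G → x v = y v) ∧
      Vf x = Vf y := by
    intro x y hxy
    obtain ⟨e1, e2⟩ := Prod.mk.inj hxy
    obtain ⟨e2, e3⟩ := Prod.mk.inj e2
    refine ⟨fun j hj => ?_, fun v hv => ?_, e3⟩
    · have := congrFun e1 j
      simp only [if_neg hj] at this
      exact Option.some.inj this
    · have := congrFun e2 v
      simp only [if_neg hv] at this
      exact Option.some.inj this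
  -- poor elements
  have p1 := poor_le F κ₁ a (2 ^ n * bl / 2 ^ s) ha (by
    intro R hRF hR
    rw [Nat.le_div_iff_mul_le (by positivity), hbl]
    exact pack_rows h J G Vf s d hVs hVd (fun x _ y _ => hVc x y) hD R hRF (by
      intro x hx y hy h1 h2 h3
      refine hR (mem_coe.2 hx) (mem_coe.2 hy) ?_
      have hV := hVc x y h1
      refine Prod.ext ?_ (Prod.ext ?_ h3)
      · funext j
        by_cases hj : j ∈ J
        · simp only [κ₁, if_pos hj, h1 j hj]
        · simp only [κ₁, if_neg hj]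
      · funext v
        by_cases hv : v ∈ Vf x
        · simp only [κ₁, if_pos hv, if_pos (show v ∈ Vf y by rw [← hV]; exact hv)]
        · simp only [κ₁, if_neg hv, if_neg (show v ∉ Vf y by rw [← hV]; exact hv), h2 v hv]))
  have p2 := poor_le F κ₂ b (2 ^ n * n.choose s / 2 ^ (G.card - d)) hb (by
    intro R hRF hR
    rw [Nat.le_div_iff_mul_le (by positivity)]
    exact pack_cols h J G Vf s d hVs hD R hRF (by
      intro x hx y hy h1 h2 h3
      refine hR (mem_coe.2 hx) (mem_coe.2 hy) ?_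
      refine Prod.ext ?_ (Prod.ext ?_ h3)
      · funext j
        by_cases hj : j ∈ J
        · simp only [κ₂, if_pos hj]
        · simp only [κ₂, if_neg hj, h1 j hj]
      · funext v
        by_cases hv : v ∈ G
        · simp only [κ₂, if_pos hv]
        · simp only [κ₂, if_neg hv, h2 v hv]))
  set P₁ := F.filter (fun x => ((F.filter (fun y => κ₁ y = κ₁ x)).card : ℝ) < a) with hP1
  set P₂ := F.filter (fun x => ((F.filter (fun y => κ₂ y = κ₂ x)).card : ℝ) < b) with hP2
  have p1' : (P₁.card : ℝ) ≤ a * (2 ^ n * bl / 2 ^ s) := by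
    have p1'' : (((2 ^ n * bl / 2 ^ s : ℕ)) : ℝ) ≤ 2 ^ n * bl / 2 ^ s := by
      refine Nat.cast_div_le.trans (le_of_eq ?_)
      push_cast
      ring
    refine le_trans (le_of_eq ?_) (p1.trans (mul_le_mul_of_nonneg_left p1'' ha))
    rw [hP1]
    congr!
  have p2' : (P₂.card : ℝ) ≤ b * (2 ^ n * n.choose s / 2 ^ (G.card - d)) := by
    have p2'' : (((2 ^ n * n.choose s / 2 ^ (G.card - d) : ℕ)) : ℝ) ≤
        2 ^ n * n.choose s / 2 ^ (G.card - d) := by
      refine Nat.cast_div_le.trans (le_of_eq ?_)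
      push_cast
      ring
    refine le_trans (le_of_eq ?_) (p2.trans (mul_le_mul_of_nonneg_left p2'' hb))
    rw [hP2]
    congr!
  have hex : ∃ x ∈ F, x ∉ P₁ ∧ x ∉ P₂ := by
    by_contra hcon
    push Not at hcon
    have h1 : F ⊆ P₁ ∪ P₂ := by
      intro x hx
      rw [mem_union]
      by_cases hx1 : x ∈ P₁
      · exact Or.inl hx1
      · exact Or.inr (hcon x hx hx1)
    have h2 : (F.card : ℝ) ≤ P₁.card + P₂.card := by
      exact_mod_cast (card_le_card h1).trans (card_union_le _ _)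
    linarith
  obtain ⟨x, hx, hx1, hx2⟩ := hex
  have hx1' : a ≤ ((F.filter (fun y => κ₁ y = κ₁ x)).card : ℝ) := by
    by_contra hc
    exact hx1 (mem_filter.2 ⟨hx, not_le.1 hc⟩)
  have hx2' : b ≤ ((F.filter (fun y => κ₂ y = κ₂ x)).card : ℝ) := by
    by_contra hc
    exact hx2 (mem_filter.2 ⟨hx, not_le.1 hc⟩)
  have hω : ((x, Vf x) : (Fin n → Bool) × Finset (Fin n)) ∈ Om F univ G := by
    unfold Om
    rw [mem_product, mem_powerset]
    refine ⟨hx, fun v hv => ?_⟩
    have := hVsub x hx hv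
    exact mem_sdiff.2 ⟨mem_univ _, (mem_sdiff.1 this).2⟩
  obtain ⟨H1, H2, H3⟩ := tHyb n r β F sg dm univ G J h.cps (x, Vf x) hω
  have hrow : (F.filter (fun y => κ₁ y = κ₁ x)) ⊆ rows F G sg dm J (x, Vf x) := by
    intro y hy
    obtain ⟨hyF, hy⟩ := mem_filter.1 hy
    obtain ⟨e1, e2, e3⟩ := k1 y x hy
    unfold rows
    rw [mem_filter]
    refine ⟨hyF, fun v hv => e2 v ?_, e1, e3⟩
    rw [hVc y x e1]
    exact hv
  have hcol : (F.filter (fun y => κ₂ y = κ₂ x)) ⊆ cols F G sg dm J (x, Vf x) := by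
    intro y hy
    obtain ⟨hyF, hy⟩ := mem_filter.1 hy
    obtain ⟨e1, e2, e3⟩ := k2 y x hy
    unfold cols
    rw [mem_filter]
    refine ⟨hyF, e2, e1, ?_⟩
    show Disjoint (Vf x) _
    rw [← e3]
    exact hVd y hyF
  refine ⟨x, hx, J, Vf x, rows F G sg dm J (x, Vf x), fun y hy => (H1 y hy).1,
    cols F G sg dm J (x, Vf x), fun y hy => (H2 y hy).1, ?_, ?_, fun y hy => (H1 y hy).2,
    fun y hy => (H2 y hy).2, H3⟩
  · exact (min_le_left _ _).trans (hx1'.trans (by exact_mod_cast card_le_card hrow))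
  · exact (min_le_right _ _).trans (hx2'.trans (by exact_mod_cast card_le_card hcol))

/-- The rectangle property is inherited upwards. -/
theorem Rect.mono {n r : ℕ} {β : Type} {F F' : Finset (Fin n → Bool)}
    {sg : Fin r → (Fin n → Bool) → β} {dm : β → Finset (Fin n)} {t t' : ℝ}
    (h : Rect F' sg dm t') (hF : F' ⊆ F) (ht : t ≤ t') : Rect F sg dm t := by
  obtain ⟨x, hx, J, V, A, hA, B, hB, h1, h2, h3⟩ := h
  exact ⟨x, hF hx, J, V, A, hA.trans hF, B, hB.trans hF, ht.trans h1, ht.trans h2, h3⟩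

end SRBP
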