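import Pool.Agent.Lib.MP_9dcf40_lc.DT.Spec2

/-!
# Theorem DT (MP_9dcf40_lc): constants in unambiguous programs (S_ResD)
-/

set_option autoImplicit false

namespace SRBP

open Finset

namespace DResAux

theorem subl_nil {κ ι : Type} (σ : κ → Bool ⊕ ι) : subl σ [] = [] := rfl

theorem subl_inl {κ ι : Type} (σ : κ → Bool ⊕ ι) (a : κ) (b c : Bool)
    (l : List (κ × Bool)) (h : σ a = Sum.inl c) : subl σ ((a, b) :: l) = subl σ l := by
  unfold subl
  rw [List.filterMap_cons]
  simp only [h, Sum.elim_inl]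

theorem subl_inr {κ ι : Type} (σ : κ → Bool ⊕ ι) (a : κ) (b : Bool) (i : ι)
    (l : List (κ × Bool)) (h : σ a = Sum.inr i) :
    subl σ ((a, b) :: l) = (i, b) :: subl σ l := by
  unfold subl
  rw [List.filterMap_cons]
  simp only [h, Sum.elim_inr]

theorem mem_subl {κ ι : Type} (σ : κ → Bool ⊕ ι) (i : ι) (b : Bool)
    (l : List (κ × Bool)) : (i, b) ∈ subl σ l ↔ ∃ a, σ a = Sum.inr i ∧ (a, b) ∈ l := by
  unfold subl
  rw [List.mem_filterMap]
  constructor
  · rintro ⟨⟨a, b'⟩, hq, h⟩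
    rcases hs : σ a with c | i'
    · simp only [hs, Sum.elim_inl] at h
      exact absurd h.symm (Option.some_ne_none _)
    · simp only [hs, Sum.elim_inr, Option.some.injEq, Prod.mk.injEq] at h
      obtain ⟨h1, h2⟩ := h
      subst h1
      subst h2
      exact ⟨a, hs, hq⟩
  · rintro ⟨a, ha, hl⟩
    exact ⟨(a, b), hl, by simp only [ha, Sum.elim_inr]⟩

/-- the program after the substitution -/
def sub' {κ ι : Type} (P : NBP κ) (σ : κ → Bool ⊕ ι) : NBP ι where
  V := P.V
  fin := P.fin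
  edge := fun u o v => match o with
    | none => P.edge u none v ∨ ∃ a b, σ a = Sum.inl b ∧ P.edge u (some (a, b)) v
    | some (i, b) => ∃ a, σ a = Sum.inr i ∧ P.edge u (some (a, b)) v
  start := P.start
  acc := P.acc

theorem walkA {κ ι : Type} (P : NBP κ) (σ : κ → Bool ⊕ ι) (y : ι → Bool) {u w : P.V}
    {l : List (κ × Bool)} (h : Walk P u l w)
    (hc : Consistent (fun a => Sum.elim id y (σ a)) l) :
    Walk (sub' P σ) u (subl σ l) w ∧ Consistent y (subl σ l) := by
  induction h with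
  | nil u => exact ⟨Walk.nil (P := sub' P σ) u, fun p hp => absurd hp List.not_mem_nil⟩
  | free he _ ih =>
    obtain ⟨h1, h2⟩ := ih hc
    exact ⟨Walk.free (P := sub' P σ) (Or.inl he) h1, h2⟩
  | read a b he _ ih =>
    obtain ⟨h1, h2⟩ := ih fun p hp => hc p (List.mem_cons_of_mem _ hp)
    have hab : Sum.elim id y (σ a) = b := hc (a, b) List.mem_cons_self
    rcases hs : σ a with c | i
    · rw [subl_inl σ a b c _ hs]
      rw [hs, Sum.elim_inl] at hab
      have hcb : c = b := hab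
      refine ⟨Walk.free (P := sub' P σ) (Or.inr ⟨a, b, ?_, he⟩) h1, h2⟩
      rw [hs, hcb]
    · rw [subl_inr σ a b i _ hs]
      rw [hs, Sum.elim_inr] at hab
      refine ⟨Walk.read (P := sub' P σ) i b ⟨a, hs, he⟩ h1, ?_⟩
      intro p hp
      rcases List.mem_cons.1 hp with rfl | hp
      · exact hab
      · exact h2 p hp

theorem walkB {κ ι : Type} (P : NBP κ) (σ : κ → Bool ⊕ ι) {u w : (sub' P σ).V}
    {l' : List (ι × Bool)} (h : Walk (sub' P σ) u l' w) :
    ∃ l, Walk P u l w ∧ subl σ l = l' ∧ ∀ p ∈ l, ∀ c, σ p.1 = Sum.inl c → p.2 = c := by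
  induction h with
  | nil u => exact ⟨[], Walk.nil (P := P) u, rfl, fun p hp => absurd hp List.not_mem_nil⟩
  | free he _ ih =>
    obtain ⟨l, h1, h2, h3⟩ := ih
    rcases he with he | ⟨a, b, hab, he⟩
    · exact ⟨l, Walk.free (P := P) he h1, h2, h3⟩
    · refine ⟨(a, b) :: l, Walk.read (P := P) a b he h1, ?_, ?_⟩
      · rw [subl_inl σ a b b l hab, h2]
      · intro p hp c hpc
        rcases List.mem_cons.1 hp with rfl | hp
        · rw [hab] at hpc
          exact Sum.inl_injective hpc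
        · exact h3 p hp c hpc
  | read i b he _ ih =>
    obtain ⟨l, h1, h2, h3⟩ := ih
    obtain ⟨a, ha, he⟩ := he
    refine ⟨(a, b) :: l, Walk.read (P := P) a b he h1, ?_, ?_⟩
    · rw [subl_inr σ a b i l ha, h2]
    · intro p hp c hpc
      rcases List.mem_cons.1 hp with rfl | hp
      · rw [ha] at hpc
        exact absurd hpc Sum.inr_ne_inl
      · exact h3 p hp c hpc

theorem consB {κ ι : Type} (σ : κ → Bool ⊕ ι) (y : ι → Bool) (l : List (κ × Bool))
    (h3 : ∀ p ∈ l, ∀ c, σ p.1 = Sum.inl c → p.2 = c) (hc : Consistent y (subl σ l)) :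
    Consistent (fun a => Sum.elim id y (σ a)) l := by
  intro p hp
  change Sum.elim id y (σ p.1) = p.2
  rcases hs : σ p.1 with c | i
  · rw [Sum.elim_inl]
    exact (h3 p hp c hs).symm
  · rw [Sum.elim_inr]
    exact hc (i, p.2) ((mem_subl σ i p.2 l).2 ⟨p.1, hs, hp⟩)

end DResAux

open DResAux in
theorem tResD : S_ResD := by
  intro κ ι _ _ _ _ P σ hun
  refine ⟨sub' P σ, rfl, ?_, ?_, ?_⟩
  · intro u v l₁' l₂' hw₁ hw₂ hc
    obtain ⟨l₁, h1, h2, h3⟩ := walkB P σ hw₁
    obtain ⟨l₂, k1, k2, k3⟩ := walkB P σ hw₂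
    subst h2
    subst k2
    rcases hun u v l₁ l₂ h1 k1 (by
      intro p hp hq
      rcases hs : σ p.1 with c | i
      · have e1 := h3 p hp c hs
        have e2 := k3 _ hq c hs
        simp only at e2
        rw [← e1] at e2
        cases hb : p.2 <;> simp [hb] at e2
      · exact hc (i, p.2) ((mem_subl σ i p.2 l₁).2 ⟨p.1, hs, hp⟩)
          ((mem_subl σ i (!p.2) l₂).2 ⟨p.1, hs, hq⟩)) with h | h
    · exact Or.inl (h.filterMap _)
    · exact Or.inr (h.filterMap _)
  · intro y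
    constructor
    · rintro ⟨v, l', hv, hw, hc⟩
      obtain ⟨l, h1, h2, h3⟩ := walkB P σ hw
      subst h2
      exact ⟨v, l, hv, h1, consB σ y l h3 hc⟩
    · rintro ⟨v, l, hv, hw, hc⟩
      obtain ⟨h1, h2⟩ := walkA P σ y hw hc
      exact ⟨v, subl σ l, hv, h1, h2⟩
  · intro y v l hv hw hc
    obtain ⟨h1, h2⟩ := walkA P σ y hw hc
    exact ⟨v, hv, h1, h2⟩

end SRBP
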