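import Pool.Agent.Lib.MP_9dcf40_lc.DT.Spec3
import Pool.Agent.Lib.MP_9dcf40_lc.DT.Res

/-!
# Theorem DT (MP_9dcf40_lc): constants in deterministic programs (S_ResT)
-/

set_option autoImplicit false

namespace SRBP

open Finset

open DResAux in
theorem tResT : S_ResT := by
  intro κ ι _ _ _ _ P σ hdet
  refine ⟨sub' P σ, rfl, ?_, ?_⟩
  · intro u a v a' v' h1 h2
    rcases a with _ | ⟨i, b⟩
    · rcases a' with _ | ⟨i', b'⟩
      · refine Or.inl ⟨rfl, ?_⟩
        rcases h1 with h1 | ⟨c, b, hc, h1⟩
        · rcases h2 with h2 | ⟨c', b', hc', h2⟩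
          · rcases hdet _ _ _ _ _ h1 h2 with ⟨-, h⟩ | ⟨j, b0, h, -⟩
            · exact h
            · cases h
          · rcases hdet _ _ _ _ _ h1 h2 with ⟨h, -⟩ | ⟨j, b0, h, -⟩
            · cases h
            · cases h
        · rcases h2 with h2 | ⟨c', b', hc', h2⟩
          · rcases hdet _ _ _ _ _ h1 h2 with ⟨h, -⟩ | ⟨j, b0, -, h⟩
            · cases h
            · cases h
          · rcases hdet _ _ _ _ _ h1 h2 with ⟨-, h⟩ | ⟨j, b0, h, h'⟩
            · exact h
            · simp only [Option.some.injEq, Prod.mk.injEq] at h h'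
              obtain ⟨rfl, rfl⟩ := h
              obtain ⟨rfl, rfl⟩ := h'
              rw [hc] at hc'
              have h5 := Sum.inl_injective hc'
              exact absurd h5 (by cases b <;> simp)
      · obtain ⟨c', hc', h2⟩ := h2
        rcases h1 with h1 | ⟨c, b, hc, h1⟩
        · rcases hdet _ _ _ _ _ h1 h2 with ⟨h, -⟩ | ⟨j, b0, h, -⟩
          · cases h
          · cases h
        · rcases hdet _ _ _ _ _ h1 h2 with ⟨h, -⟩ | ⟨j, b0, h, h'⟩
          · simp only [Option.some.injEq, Prod.mk.injEq] at h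
            obtain ⟨rfl, -⟩ := h
            rw [hc] at hc'
            exact absurd hc' Sum.inl_ne_inr
          · simp only [Option.some.injEq, Prod.mk.injEq] at h h'
            obtain ⟨rfl, -⟩ := h
            obtain ⟨rfl, -⟩ := h'
            rw [hc] at hc'
            exact absurd hc' Sum.inl_ne_inr
    · obtain ⟨c, hc, h1⟩ := h1
      rcases a' with _ | ⟨i', b'⟩
      · rcases h2 with h2 | ⟨c', b', hc', h2⟩
        · rcases hdet _ _ _ _ _ h1 h2 with ⟨h, -⟩ | ⟨j, b0, -, h⟩
          · cases h
          · cases h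
        · rcases hdet _ _ _ _ _ h1 h2 with ⟨h, -⟩ | ⟨j, b0, h, h'⟩
          · simp only [Option.some.injEq, Prod.mk.injEq] at h
            obtain ⟨rfl, -⟩ := h
            rw [hc] at hc'
            exact absurd hc' Sum.inr_ne_inl
          · simp only [Option.some.injEq, Prod.mk.injEq] at h h'
            obtain ⟨rfl, -⟩ := h
            obtain ⟨rfl, -⟩ := h'
            rw [hc] at hc'
            exact absurd hc' Sum.inr_ne_inl
      · obtain ⟨c', hc', h2⟩ := h2
        rcases hdet _ _ _ _ _ h1 h2 with ⟨h, h'⟩ | ⟨j, b0, h, h'⟩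
        · simp only [Option.some.injEq, Prod.mk.injEq] at h
          obtain ⟨rfl, rfl⟩ := h
          rw [hc] at hc'
          have h5 := Sum.inr_injective hc'
          subst h5
          exact Or.inl ⟨rfl, h'⟩
        · simp only [Option.some.injEq, Prod.mk.injEq] at h h'
          obtain ⟨rfl, rfl⟩ := h
          obtain ⟨rfl, rfl⟩ := h'
          rw [hc] at hc'
          have h5 := Sum.inr_injective hc'
          subst h5
          exact Or.inr ⟨_, _, rfl, rfl⟩
  · intro y R
    constructor
    · rintro ⟨v, l', hv, hw, hc, hR⟩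
      obtain ⟨l, h1, h2, h3⟩ := walkB P σ hw
      subst h2
      exact ⟨v, l, hv, h1, consB σ y l h3 hc, hR⟩
    · rintro ⟨v, l, hv, hw, hc, hR⟩
      obtain ⟨h1, h2⟩ := walkA P σ y hw hc
      exact ⟨v, subl σ l, hv, h1, h2, hR⟩

end SRBP
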