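import Pool.Agent.Lib.MP_9dcf40_lc.DT.Spec3

/-!
# Theorem DT (MP_9dcf40_lc): the inputs with given states at given times
-/

namespace SRBP

open Finset

theorem Tr.at_zero {n : ℕ} (Q : Tr n) (y : Fin n → Bool) : Q.at y 0 = Q.start := rfl

theorem Tr.at_succ {n : ℕ} (Q : Tr n) (y : Fin n → Bool) (i : ℕ) :
    Q.at y (i + 1) = Q.step y (Q.at y i) := by
  unfold Tr.at
  rw [Function.iterate_succ_apply']

theorem Tr.step_congr {n : ℕ} (Q : Tr n) (x y : Fin n → Bool) (u : Q.V)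
    (h : ∀ v, Q.tst u = some v → x v = y v) : Q.step x u = Q.step y u := by
  unfold Tr.step
  cases hu : Q.tst u with
  | none => rfl
  | some v => simp only [h v hu]

theorem Tr.step_none {n : ℕ} (Q : Tr n) (y : Fin n → Bool) (u : Q.V) (h : Q.tst u = none) :
    Q.step y u = u := by
  unfold Tr.step
  rw [h]

theorem Tr.at_stay {n : ℕ} (Q : Tr n) (y : Fin n → Bool) (u : Q.V) (h : Q.tst u = none) (i j : ℕ)
    (hij : i ≤ j) (hi : Q.at y i = u) : Q.at y j = u := by
  induction j, hij using Nat.le_induction with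
  | base => exact hi
  | succ j _ ih => rw [Q.at_succ, ih, Q.step_none y u h]

/-- Two computations in the same state which read the same. -/
private theorem at_congr {n : ℕ} (Q : Tr n) (x y : Fin n → Bool) (a b : ℕ)
    (h0 : Q.at x a = Q.at y a)
    (h : ∀ i, a ≤ i → i < b → ∀ v, Q.tst (Q.at x i) = some v → Q.tst (Q.at y i) = some v →
      x v = y v) : ∀ i, a ≤ i → i ≤ b → Q.at x i = Q.at y i := by
  intro i hi
  induction i, hi using Nat.le_induction with
  | base => exact fun _ => h0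
  | succ i hi ih =>
    intro hib
    have e := ih (by omega)
    rw [Q.at_succ, Q.at_succ, ← e]
    refine Q.step_congr x y _ (fun v hv => h i hi (by omega) v hv ?_)
    rw [← e]
    exact hv

open scoped Classical in
/-- The variables read between the times `a` and `b`. -/
private noncomputable def Dv {n : ℕ} (Q : Tr n) (a b : ℕ) (y : Fin n → Bool) : Finset (Fin n) :=
  univ.filter (fun v => ∃ i, a ≤ i ∧ i < b ∧ Q.tst (Q.at y i) = some v)

private theorem mem_Dv {n : ℕ} (Q : Tr n) (a b : ℕ) (y : Fin n → Bool) (v : Fin n) :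
    v ∈ Dv Q a b y ↔ ∃ i, a ≤ i ∧ i < b ∧ Q.tst (Q.at y i) = some v := by
  simp only [Dv, mem_filter, mem_univ, true_and]

private theorem card_Dv {n : ℕ} (Q : Tr n) (a b ℓ : ℕ) (h : b ≤ a + ℓ) (y : Fin n → Bool) :
    (Dv Q a b y).card ≤ ℓ := by
  classical
  have h1 : (Dv Q a b y).map Function.Embedding.some ⊆
      (Finset.Ico a b).image (fun i => Q.tst (Q.at y i)) := by
    intro o ho
    rw [mem_map] at ho
    obtain ⟨v, hv, rfl⟩ := ho
    obtain ⟨i, h2, h3, h4⟩ := (mem_Dv Q a b y v).1 hv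
    exact mem_image.2 ⟨i, mem_Ico.2 ⟨h2, h3⟩, h4⟩
  have h2 := (card_le_card h1).trans card_image_le
  rw [card_map, Nat.card_Ico] at h2
  omega

theorem tSeg {n r ℓ : ℕ} (Q : Tr n) (τ : ℕ → ℕ) (hτ0 : τ 0 = 0) (hτ : ∀ j, τ j ≤ τ (j + 1))
    (hτℓ : ∀ j, τ (j + 1) ≤ τ j + ℓ) (hr : 1 ≤ r) (q : Fin (r + 1) → Q.V)
    (F : Finset (Fin n → Bool)) (hF : ∀ y, y ∈ F ↔ ∀ j : Fin (r + 1), Q.at y (τ j) = q j) :
    ∃ (sg : Fin r → (Fin n → Bool) → (Fin n → Option Bool)) (dm : (Fin n → Option Bool) →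
      Finset (Fin n)), DPS n r F sg dm ∧ Clo F sg dm ∧ ∀ x ∈ F, ∀ j, (dm (sg j x)).card ≤ ℓ := by
  classical
  obtain ⟨sg, hsg⟩ : ∃ sg : Fin r → (Fin n → Bool) → (Fin n → Option Bool), sg = fun (j : Fin r) y v =>
    if v ∈ Dv Q (τ j) (τ (j + 1)) y then some (y v) else none := ⟨_, rfl⟩
  obtain ⟨dm, hdm⟩ : ∃ dm : (Fin n → Option Bool) → Finset (Fin n), dm = fun b =>
    univ.filter (fun v => (b v).isSome) := ⟨_, rfl⟩
  have hD : ∀ j y, dm (sg j y) = Dv Q (τ j) (τ (j + 1)) y := by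
    intro j y
    ext v
    rw [hdm, hsg, mem_filter]
    by_cases hv : v ∈ Dv Q (τ j) (τ (j + 1)) y
    · simp [hv]
    · simp [hv]
  have hlab : ∀ j x y, (∀ i, τ j ≤ i → i ≤ τ (j + 1) → Q.at x i = Q.at y i) →
      (∀ v ∈ Dv Q (τ j) (τ (j + 1)) x, v ∈ Dv Q (τ j) (τ (j + 1)) y → x v = y v) →
      ∀ (jj : Fin r), (jj : ℕ) = j → sg jj x = sg jj y := by
    intro j x y h1 h2 jj hjj
    subst hjj
    have h3 : Dv Q (τ jj) (τ (jj + 1)) x = Dv Q (τ jj) (τ (jj + 1)) y := by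
      ext v
      rw [mem_Dv, mem_Dv]
      constructor
      · rintro ⟨i, h4, h5, h6⟩
        exact ⟨i, h4, h5, by rw [← h1 i h4 h5.le]; exact h6⟩
      · rintro ⟨i, h4, h5, h6⟩
        exact ⟨i, h4, h5, by rw [h1 i h4 h5.le]; exact h6⟩
    rw [hsg]
    funext v
    show (if v ∈ Dv Q (τ jj) (τ (jj + 1)) x then some (x v) else none) =
      (if v ∈ Dv Q (τ jj) (τ (jj + 1)) y then some (y v) else none)
    by_cases hv : v ∈ Dv Q (τ jj) (τ (jj + 1)) x
    · rw [if_pos hv, if_pos (by rw [← h3]; exact hv), h2 v hv (by rw [← h3]; exact hv)]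
    · rw [if_neg hv, if_neg (by rw [← h3]; exact hv)]
  refine ⟨sg, dm, ⟨?_, ?_⟩, ?_, ?_⟩
  · intro j x _ y _ hxy v hv
    have hv1 := hv
    rw [hD] at hv
    rw [hxy, hD] at hv1
    have := congrFun hxy v
    rw [hsg] at this
    simp only [if_pos hv, if_pos hv1] at this
    exact Option.some.inj this
  · intro j x hx y hy hxy
    have h0 : Q.at x (τ j) = Q.at y (τ j) := by
      have e1 := (hF x).1 hx j.castSucc
      have e2 := (hF y).1 hy j.castSucc
      rw [Fin.val_castSucc] at e1 e2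
      rw [e1, e2]
    have h1 := at_congr Q x y (τ j) (τ (j + 1)) h0 (by
      intro i h2 h3 v h4 h5
      refine hxy v ?_ ?_
      · rw [hD, mem_Dv]
        exact ⟨i, h2, h3, h4⟩
      · rw [hD, mem_Dv]
        exact ⟨i, h2, h3, h5⟩)
    refine hlab j x y h1 (fun v hv hv' => hxy v ?_ ?_) j rfl
    · rw [hD]
      exact hv
    · rw [hD]
      exact hv'
  · intro z hz
    rw [hF]
    have key : ∀ j : ℕ, ∀ hj : j < r + 1, Q.at z (τ j) = q ⟨j, hj⟩ := by
      intro j
      induction j with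
      | zero =>
        intro hj
        obtain ⟨y, hy, -⟩ := hz ⟨0, by omega⟩
        have e1 := (hF y).1 hy ⟨0, hj⟩
        rw [← e1]
        show Q.at z (τ 0) = Q.at y (τ 0)
        rw [hτ0, Q.at_zero, Q.at_zero]
      | succ j ih =>
        intro hj
        obtain ⟨y, hy, hzy⟩ := hz ⟨j, by omega⟩
        have e0 := (hF y).1 hy ⟨j, by omega⟩
        have e1 := (hF y).1 hy ⟨j + 1, hj⟩
        rw [← e1]
        have h0 : Q.at z (τ j) = Q.at y (τ j) := by
          rw [ih (by omega)]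
          exact e0.symm
        refine at_congr Q z y (τ j) (τ (j + 1)) h0 ?_ (τ (j + 1)) (hτ j) le_rfl
        intro i h2 h3 v _ h5
        refine hzy v ?_
        rw [hD, mem_Dv]
        exact ⟨i, h2, h3, h5⟩
    intro j
    exact key j j.2
  · intro x _ j
    rw [hD]
    exact card_Dv Q _ _ ℓ (hτℓ j) x

end SRBP
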