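import Pool.Agent.Lib.MP_9dcf40_lc.LIN.SpecQ2
import Pool.Agent.Lib.MP_9dcf40_lc.DT.Model

/-!
# Theorem DT (MP_9dcf40_lc): deterministic programs, statements of the modules
-/

namespace SRBP

open Finset

/-- A deterministic system: `sg j x` is the label of the segment `j` of `x`, `dm` of a label the set of
variables read in it (`val`: the label determines the values of `x` on this set; `det`: if two inputs agree
on the variables read by both they have the same label). -/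
structure DPS {β : Type} (n r : ℕ) (F : Finset (Fin n → Bool)) (sg : Fin r → (Fin n → Bool) → β)
    (dm : β → Finset (Fin n)) : Prop where
  val : ∀ j, ∀ x ∈ F, ∀ y ∈ F, sg j x = sg j y → ∀ v ∈ dm (sg j x), x v = y v
  det : ∀ j, ∀ x ∈ F, ∀ y ∈ F, (∀ v ∈ dm (sg j x), v ∈ dm (sg j y) → x v = y v) → sg j x = sg j y

theorem DPS.cps {β : Type} {n r : ℕ} {F : Finset (Fin n → Bool)} {sg : Fin r → (Fin n → Bool) → β}
    {dm : β → Finset (Fin n)} (h : DPS n r F sg dm) : CPS n r F sg dm :=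
  ⟨h.val, fun j x hx y hy h1 _ => h.det j x hx y hy (fun v hv _ => h1 v hv)⟩

theorem DPS.mono {β : Type} {n r : ℕ} {F F' : Finset (Fin n → Bool)}
    {sg : Fin r → (Fin n → Bool) → β} {dm : β → Finset (Fin n)} (h : DPS n r F sg dm) (hF : F' ⊆ F) :
    DPS n r F' sg dm :=
  ⟨fun j x hx y hy => h.val j x (hF hx) y (hF hy), fun j x hx y hy => h.det j x (hF hx) y (hF hy)⟩

/-- CORE. -/
def S_CoreD : Prop := ∃ B : ℕ, 1 ≤ B ∧ ∀ k : ℕ, 2 ≤ k → ∃ r : ℕ, 1 ≤ r ∧ (r : ℝ) ≤ (k : ℝ) ^ B ∧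
  ∀ n : ℕ, (k : ℝ) ^ (B * k) ≤ n →
  ∀ (β : Type) (F : Finset (Fin n → Bool)) (sg : Fin r → (Fin n → Bool) → β)
    (dm : β → Finset (Fin n)), DPS n r F sg dm → F.Nonempty →
  (∀ x ∈ F, ∀ j, (dm (sg j x)).card ≤ k * n / r + 1) →
  n * Real.log 2 - Real.log F.card ≤ n / (k : ℝ) ^ (B * k) →
  Rect F sg dm (Real.exp (n / (k : ℝ) ^ (B * k)))

/-- PROG: from deterministic programs to deterministic systems. -/
def S_ProgD : Prop := ∀ (n r k s ℓ : ℕ) (P : NBP (Fin n)) (A : Finset (Fin n → Bool)), Unamb P → 1 ≤ r →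
  k * n ≤ r * ℓ → A.Nonempty →
  (∀ y ∈ A, ∃ (v : P.V) (l : List (Fin n × Bool)) (E : Finset (Fin n)), P.acc v ∧
    Walk P P.start l v ∧ Consistent y l ∧ E.card ≤ s ∧
    ((l.map Prod.fst).filter (fun i => i ∉ E)).length ≤ k * n) →
  ∃ F ⊆ A, F.Nonempty ∧ (A.card : ℝ) ≤ ball n s * 2 ^ s * (Fintype.card P.V : ℝ) ^ (r + 1) * F.card ∧
    ∃ (sg : Fin r → (Fin n → Bool) → (Fin n → Option Bool)) (dm : (Fin n → Option Bool) →
      Finset (Fin n)), DPS n r F sg dm ∧ (∀ x ∈ F, ∀ j, (dm (sg j x)).card ≤ ℓ) ∧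
      ∃ E : Finset (Fin n), (∀ x ∈ F, ∀ y ∈ F, ∀ v ∈ E, x v = y v) ∧
      ∀ z : Fin n → Bool, (∃ x ∈ F, ∀ v ∈ E, z v = x v) →
        (∀ j, ∃ y ∈ F, ∀ v ∈ dm (sg j y), z v = y v) → Accepts P z

/-- TOPD: the theorem for quartic polynomials. -/
def S_TopD : Prop := ∃ A N : ℕ, 1 ≤ A ∧ ∀ n ≥ N, ∃ c : Coef n → Bool,
  (∃ B : Finset (Fin n → Bool), (∀ y ∈ B, fq c y) ∧ 2 ^ (n - 2) ≤ B.card) ∧
  ∀ k : ℕ, 2 ≤ k → (k : ℝ) ^ (A * k) ≤ n →
  ∀ (P : NBP (Fin n)) (s : ℕ), Unamb P → (s : ℝ) ≤ n / (k : ℝ) ^ (A * k) →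
  (∀ y, Accepts P y → fq c y) → ∀ A' : Finset (Fin n → Bool),
  (∀ y ∈ A', ∃ (v : P.V) (l : List (Fin n × Bool)) (E : Finset (Fin n)), P.acc v ∧
    Walk P P.start l v ∧ Consistent y l ∧ E.card ≤ s ∧
    ((l.map Prod.fst).filter (fun i => i ∉ E)).length ≤ k * n) →
  (2 : ℝ) ^ n * Real.exp (-(n / (k : ℝ) ^ (A * k))) ≤ A'.card →
  Real.exp (n / (k : ℝ) ^ (A * k)) ≤ Fintype.card P.V

end SRBP
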