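import Pool.Agent.Lib.MP_9dcf40_lc.DT.Spec
import Pool.Agent.Lib.MP_9dcf40_lc.SR.Spec

/-!
# Theorem DT (MP_9dcf40_lc): circuits, statements of the modules
-/

namespace SRBP

open Finset

/-- RESD: constants in unambiguous programs. PROOF. The program `sub'` of `SR/Res.lean` (own private copy of `sub'`,
`walkA`, `walkB`, `consB`, `mem_subl`); `Unamb`: two walks of the new program with the same ends come from walks
`l₁`, `l₂` of `P` (`walkB`) whose tests of constants have the values of `σ`; if the images do not contradict each other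
then `l₁`, `l₂` do not (`mem_subl`), so one is an initial part of the other, and `subl σ` (a `filterMap`) keeps this. -/
def S_ResD : Prop := ∀ (κ ι : Type) [Fintype κ] [Fintype ι] [DecidableEq κ] [DecidableEq ι] (P : NBP κ)
    (σ : κ → Bool ⊕ ι), Unamb P →
  ∃ P' : NBP ι, Fintype.card P'.V = Fintype.card P.V ∧ Unamb P' ∧
    (∀ y, Accepts P' y ↔ Accepts P (fun a => Sum.elim id y (σ a))) ∧
    ∀ y v l, P.acc v → Walk P P.start l v → Consistent (fun a => Sum.elim id y (σ a)) l →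
      ∃ v', P'.acc v' ∧ Walk P' P'.start (subl σ l) v' ∧ Consistent y (subl σ l)

/-- SHD. PROOF. As `short_core` (`LIN/TopC.lean`) and `tShQ` (`LIN/TotQ.lean`), with `S_ResD` for `S_Res`. -/
def S_ShD : Prop := ∃ A N : ℕ, 1 ≤ A ∧ ∀ n ≥ N, ∀ m ≥ 9 * (n + 1) ^ 4, ∃ c : CBits n m → Bool,
  2 ^ (n - 2) ≤ Nat.card {y // Val n m c y} ∧
  ∀ k : ℕ, 2 ≤ k → (k : ℝ) ^ (A * k) ≤ n →
  ∀ (P : NBP (CBits n m ⊕ Fin n)) (s : ℕ), Unamb P → (s : ℝ) ≤ n / (k : ℝ) ^ (A * k) →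
    (∀ y, Accepts P (Sum.elim c y) → Val n m c y) →
    (2 : ℝ) ^ n * Real.exp (-(n / (k : ℝ) ^ (A * k))) ≤
      Nat.card {y // Short P (k * n) s (Sum.elim c y)} →
    Real.exp (n / (k : ℝ) ^ (A * k)) ≤ Fintype.card P.V

/-- TOTD. PROOF. As `tTotQ` (`LIN/TotQ.lean`), with `S_ResD` for `S_Res`: from `S_TopD` (exponent `A₀`) for
`k' = 4 k + 1 ≤ k ^ 4`, `A = 18 A₀ + 2`: `k' ^ (A₀ k') ≤ k ^ (4 A₀ (4 k + 1)) ≤ k ^ (18 A₀ k)`, so
`n / k' ^ (A₀ k') ≥ n / k ^ (18 A₀ k) ≥ k ^ (2 k) ≥ 7`. -/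
def S_TotD : Prop := ∃ A N : ℕ, 1 ≤ A ∧ ∀ n ≥ N, ∀ m ≥ 9 * (n + 1) ^ 4,
  ∀ k : ℕ, 2 ≤ k → (k : ℝ) ^ (A * k) ≤ n → ∀ t : ℕ,
  Fintype.card (CBits n m) ≤ t * n → ∀ P : NBP (CBits n m ⊕ Fin t × Fin n), Unamb P →
  (∀ z, Accepts P z → MVal n m t z) →
  (∀ z, MVal n m t z → ∃ v l, P.acc v ∧ Walk P P.start l v ∧ Consistent z l ∧
    l.length ≤ k * Fintype.card (CBits n m ⊕ Fin t × Fin n)) →
  Real.exp (n / (k : ℝ) ^ (A * k)) ≤ Fintype.card P.V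

end SRBP
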