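import Pool.Agent.Lib.MP_9dcf40_lc.DT.Spec

/-!
# Theorem DT (MP_9dcf40_lc): the theorem for quartic polynomials
-/

namespace SRBP

open Finset

private theorem numsT (x y : ℝ) (r : ℕ) (hx : 4 ≤ x) (hy : x ^ 8 ≤ y) (hr : (r : ℝ) ≤ x) :
    2 * Real.sqrt y⁻¹ + ((r : ℝ) + 3) * y⁻¹ ≤ x⁻¹ := by
  have hx0 : 0 < x := by linarith
  have hy0 : 0 < y := lt_of_lt_of_le (by positivity) hy
  have e1 : y⁻¹ ≤ (x ^ 8)⁻¹ := inv_anti₀ (by positivity) hy
  have e2 : Real.sqrt y⁻¹ ≤ (x ^ 4)⁻¹ := by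
    rw [Real.sqrt_le_iff]
    refine ⟨by positivity, e1.trans (le_of_eq ?_)⟩
    rw [← inv_pow, ← inv_pow, ← pow_mul]
  have e3 : (x ^ 4)⁻¹ ≤ x⁻¹ / 4 := by
    rw [inv_le_comm₀ (by positivity) (by positivity)]
    have : (x⁻¹ / 4)⁻¹ = 4 * x := by field_simp
    rw [this]
    have h2 : 16 ≤ x ^ 2 := by nlinarith
    have h3 : 4 * x ≤ x ^ 2 := by nlinarith
    nlinarith
  have e4 : ((r : ℝ) + 3) * y⁻¹ ≤ x⁻¹ / 4 := by
    calc ((r : ℝ) + 3) * y⁻¹ ≤ (2 * x) * (x ^ 8)⁻¹ :=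
          mul_le_mul (by linarith) e1 (by positivity) (by positivity)
      _ = 2 * (x ^ 4)⁻¹ * (x ^ 3)⁻¹ := by
          field_simp
      _ ≤ 2 * (x ^ 4)⁻¹ * (1 / 2) := by
          refine mul_le_mul_of_nonneg_left ?_ (by positivity)
          rw [one_div]
          refine inv_anti₀ (by norm_num) ?_
          calc (2 : ℝ) ≤ 4 ^ 3 := by norm_num
            _ ≤ x ^ 3 := pow_le_pow_left₀ (by norm_num) hx 3
      _ = (x ^ 4)⁻¹ := by ring
      _ ≤ _ := e3
  have e5 : 0 < x⁻¹ := by positivity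
  linarith

theorem tTopD (h1 : S_CoreD) (h2 : S_ProgD) (h3 : S_QuaQ) (h4 : S_BalQ) : S_TopD := by
  classical
  obtain ⟨B, hB, hCore⟩ := h1
  obtain ⟨N3, hQ⟩ := h3
  refine ⟨8 * B, max N3 1, by omega, ?_⟩
  intro n hn
  have n1 : N3 ≤ n := le_trans (le_max_left _ _) hn
  have n0 : 1 ≤ n := le_trans (le_max_right _ _) hn
  have hnR : (0 : ℝ) < n := by exact_mod_cast (by omega : 0 < n)
  obtain ⟨cc, hcc, hNR⟩ := hQ n n1
  refine ⟨cc, ⟨(univ : Finset (Fin n → Bool)).filter (fun y => fq cc y), by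
        intro y hy
        exact (mem_filter.1 hy).2, by
        refine le_trans hcc (le_of_eq ?_)
        congr⟩, ?_⟩
  intro k hk hkn P s hdet hs hf A' hA' hAcard
  obtain ⟨r, hr, hrB, hCr⟩ := hCore k hk
  have hkR : (2 : ℝ) ≤ k := by exact_mod_cast hk
  obtain ⟨x, hx⟩ : ∃ x : ℝ, x = (k : ℝ) ^ (B * k) := ⟨_, rfl⟩
  obtain ⟨y, hy⟩ : ∃ y : ℝ, y = (k : ℝ) ^ (8 * B * k) := ⟨_, rfl⟩
  have hxy : x ^ 8 = y := by
    rw [hx, hy, ← pow_mul]
    congr 1
    ring
  have hx4 : 4 ≤ x := by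
    calc (4 : ℝ) = 2 ^ 2 := by norm_num
      _ ≤ (k : ℝ) ^ 2 := pow_le_pow_left₀ (by norm_num) hkR 2
      _ ≤ x := by
          rw [hx]
          refine pow_le_pow_right₀ (by linarith) ?_
          nlinarith
  have hrx : (r : ℝ) ≤ x := by
    refine hrB.trans ?_
    rw [hx]
    refine pow_le_pow_right₀ (by linarith) ?_
    nlinarith
  rw [← hy] at hkn hs hAcard ⊢
  rw [← hx] at hCr
  obtain ⟨ε, hε⟩ : ∃ ε : ℝ, ε = y⁻¹ := ⟨_, rfl⟩
  obtain ⟨c, hc⟩ : ∃ c : ℝ, c = x⁻¹ := ⟨_, rfl⟩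
  have hε' : (n : ℝ) / y = ε * n := by rw [hε]; ring
  have hc' : ∀ z : ℝ, z / x = c * z := by
    intro z
    rw [hc]
    ring
  rw [hε'] at hs hAcard ⊢
  simp only [hc'] at hCr
  have hn3 : 2 * Real.sqrt ε + ((r : ℝ) + 3) * ε ≤ c := by
    rw [hε, hc]
    exact numsT x y r hx4 hxy.le hrx
  by_contra hV
  rw [not_le] at hV
  have hy0 : 0 < y := by rw [← hxy]; positivity
  have hy1 : 1 ≤ y := by
    rw [← hxy]
    exact one_le_pow₀ (by linarith)
  have hε0 : 0 < ε := by rw [hε]; positivity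
  have hc0 : 0 < c := by rw [hc]; positivity
  have hε1 : ε ≤ 1 := by
    rw [hε]
    exact inv_le_one_of_one_le₀ hy1
  have hApos : (0 : ℝ) < A'.card := lt_of_lt_of_le (by positivity) hAcard
  have hAne : A'.Nonempty := by
    rw [← card_pos]
    exact_mod_cast hApos
  have hkl : k * n ≤ r * (k * n / r + 1) := (Nat.lt_mul_div_succ (k * n) hr).le
  obtain ⟨F, hFA, hFne, hFc, sg, dm, hDPS, hdm, E, hE, hacc⟩ :=
    h2 n r k s (k * n / r + 1) P A' hdet hr hkl hAne hA'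
  have hball := h4 ε hε0.le hε1 n s hs
  have hballpos : (0 : ℝ) < ball n s := by
    have : 0 < ball n s := by
      unfold ball
      refine card_pos.2 ⟨∅, ?_⟩
      simp
    exact_mod_cast this
  have hVpos : (0 : ℝ) < Fintype.card P.V := by
    have : 0 < Fintype.card P.V := Fintype.card_pos_iff.2 ⟨P.start⟩
    exact_mod_cast this
  have hFpos : (0 : ℝ) < F.card := by exact_mod_cast hFne.card_pos
  have hdef : n * Real.log 2 - Real.log F.card ≤ c * n := by
    have g1 := Real.log_le_log (by positivity) hAcard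
    rw [Real.log_mul (by positivity) (Real.exp_pos _).ne', Real.log_pow, Real.log_exp] at g1
    have g2 := Real.log_le_log hApos hFc
    rw [Real.log_mul (by positivity) hFpos.ne', Real.log_mul (by positivity) (by positivity),
      Real.log_mul hballpos.ne' (by positivity), Real.log_pow, Real.log_pow] at g2
    have g3 : Real.log (Fintype.card P.V : ℝ) ≤ ε * n := by
      rw [Real.log_le_iff_le_exp hVpos]
      exact hV.le
    have g4 : ((r + 1 : ℕ) : ℝ) * Real.log (Fintype.card P.V : ℝ) ≤ ((r + 1 : ℕ) : ℝ) * (ε * n) :=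
      mul_le_mul_of_nonneg_left g3 (Nat.cast_nonneg _)
    have g5 : (s : ℝ) * Real.log 2 ≤ s * 1 := by
      apply mul_le_mul_of_nonneg_left _ (Nat.cast_nonneg _)
      have := Real.log_two_lt_d9
      linarith
    have g6 : (2 * Real.sqrt ε + ((r : ℝ) + 3) * ε) * n ≤ c * n :=
      mul_le_mul_of_nonneg_right hn3 hnR.le
    push_cast at g2 g4
    linarith
  have hnk : x ≤ n := by
    refine le_trans ?_ hkn
    rw [← hxy]
    calc x = x ^ 1 := (pow_one _).symm
      _ ≤ x ^ 8 := pow_le_pow_right₀ (by linarith) (by norm_num)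
  obtain ⟨x₀, hx₀, J, V, A1, hA1, B1, hB1, hAt, hBt, hAx, hBx, hyb⟩ :=
    hCr n hnk _ F sg dm hDPS hFne hdm hdef
  -- the threshold
  set t : ℕ := ⌈Real.exp ((n : ℝ) ^ (3 / 4 : ℝ))⌉₊ with ht
  have htb : (t : ℝ) ≤ Real.exp (c * n) := by
    have hlx : 1 ≤ Real.log x := by
      rw [Real.le_log_iff_exp_le (by linarith)]
      linarith [Real.exp_one_lt_d9]
    have hln : 8 * Real.log x ≤ Real.log n := by
      have := Real.log_le_log (by positivity) (hxy.le.trans hkn)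
      rw [Real.log_pow] at this
      exact_mod_cast this
    have p1 : (n : ℝ) ^ (3 / 4 : ℝ) = Real.exp (Real.log n * (3 / 4)) := by
      rw [Real.rpow_def_of_pos hnR]
    have p2 : Real.exp (Real.log n * (7 / 8)) ≤ c * n := by
      calc Real.exp (Real.log n * (7 / 8)) ≤ Real.exp (-Real.log x + Real.log n) :=
            Real.exp_le_exp.2 (by linarith)
        _ = c * n := by rw [Real.exp_add, Real.exp_log hnR, Real.exp_neg, Real.exp_log (by linarith),
            hc]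
    have p3 : 2 * Real.exp (Real.log n * (3 / 4)) ≤ Real.exp (Real.log n * (7 / 8)) := by
      have q1 : (2 : ℝ) ≤ Real.exp (Real.log n * (1 / 8)) := by
        have := Real.add_one_le_exp (Real.log n * (1 / 8))
        linarith
      calc 2 * Real.exp (Real.log n * (3 / 4))
          ≤ Real.exp (Real.log n * (1 / 8)) * Real.exp (Real.log n * (3 / 4)) :=
            mul_le_mul_of_nonneg_right q1 (Real.exp_pos _).le
        _ = Real.exp (Real.log n * (7 / 8)) := by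
            rw [← Real.exp_add]
            congr 1
            ring
    have p4 : 1 ≤ Real.exp (Real.log n * (3 / 4)) := Real.one_le_exp (by linarith)
    have p5 : (n : ℝ) ^ (3 / 4 : ℝ) + 1 ≤ c * n := by
      rw [p1]
      linarith
    have h : (t : ℝ) ≤ Real.exp ((n : ℝ) ^ (3 / 4 : ℝ)) + 1 :=
      (Nat.ceil_lt_add_one (Real.exp_pos _).le).le
    have hone : (1 : ℝ) ≤ Real.exp ((n : ℝ) ^ (3 / 4 : ℝ)) := Real.one_le_exp (by positivity)
    have h2e : (2 : ℝ) ≤ Real.exp 1 := by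
      have := Real.add_one_le_exp (1 : ℝ)
      linarith
    calc (t : ℝ) ≤ 2 * Real.exp ((n : ℝ) ^ (3 / 4 : ℝ)) := by linarith
      _ ≤ Real.exp 1 * Real.exp ((n : ℝ) ^ (3 / 4 : ℝ)) :=
          mul_le_mul_of_nonneg_right h2e (Real.exp_pos _).le
      _ = Real.exp (1 + (n : ℝ) ^ (3 / 4 : ℝ)) := (Real.exp_add _ _).symm
      _ ≤ Real.exp (c * n) := by
          refine Real.exp_le_exp.2 ?_
          linarith
  obtain ⟨a, ha, b, hb, hab⟩ := hNR t (Nat.le_ceil _) V A1 B1 (by exact_mod_cast htb.trans hAt)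
    (by exact_mod_cast htb.trans hBt)
    (fun a ha a' ha' v hv => (hAx a ha v hv).trans (hAx a' ha' v hv).symm)
    (fun b hb b' hb' v hv => (hBx b hb v hv).trans (hBx b' hb' v hv).symm)
  apply hab
  apply hf
  apply hacc
  · refine ⟨x₀, hx₀, fun v hv => ?_⟩
    unfold glue
    split_ifs
    · exact hE a (hA1 ha) x₀ hx₀ v hv
    · exact hE b (hB1 hb) x₀ hx₀ v hv
  · intro j
    by_cases hj : j ∈ J
    · exact ⟨b, hB1 hb, fun v hv => (hyb a ha b hb).1 j hj v hv⟩
    · exact ⟨a, hA1 ha, fun v hv => (hyb a ha b hb).2 j hj v hv⟩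

end SRBP
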