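import Pool.Agent.Lib.MP_9dcf40_lc.DT.Wgt
import Pool.Agent.Lib.MP_9dcf40_lc.DT.Seg
import Pool.Agent.Lib.MP_9dcf40_lc.DT.Num2

/-!
# Theorem DT (MP_9dcf40_lc): two-sided error for programs in normal form
-/

namespace SRBP

open Finset

theorem cls_fin {n k h K : ℕ} (hk : 2 ≤ k) (hh : 1 ≤ h) (hKdef : K = k * h)
    (hn : (K : ℝ) ^ (40000 * K) ≤ n) {β : Type} {F : Finset (Fin n → Bool)}
    {sg : Fin (K ^ 60) → (Fin n → Bool) → β} {dm : β → Finset (Fin n)}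
    (hD : DPS n (K ^ 60) F sg dm) (hc : Clo F sg dm)
    (hℓ : ∀ x ∈ F, ∀ j, (dm (sg j x)).card ≤ k * n / K ^ 60 + 1)
    (f : (Fin n → Bool) → Prop) (t : ℕ) (η : ℝ) (hη : 0 ≤ η) (hf : LowDisc f t η) :
    |∑ x ∈ F, chi f x| ≤ F.card / (4 * h) + (K ^ (1920 * K + 120) : ℕ) * (η * F.card +
      t * (2 * (2 ^ n * Real.exp (-((n / (K ^ (1920 * K + 120) : ℕ)) / (100 * K)))))) := by
  have hK : 2 ≤ K := by
    rw [hKdef]
    calc 2 = 2 * 1 := rfl
      _ ≤ k * h := Nat.mul_le_mul hk hh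
  have hhK : h ≤ K := by
    rw [hKdef]
    exact Nat.le_mul_of_pos_left h (by omega)
  have hkK : k ≤ K := by
    rw [hKdef]
    exact Nat.le_mul_of_pos_right k (by omega)
  obtain ⟨M, hM⟩ : ∃ M : ℕ, M = K ^ (1920 * K + 120) := ⟨_, rfl⟩
  obtain ⟨Bn, hBn⟩ : ∃ Bn : ℕ, Bn = K ^ (1920 * K + 106) := ⟨_, rfl⟩
  obtain ⟨Y, hY⟩ : ∃ Y : ℝ, Y = (K : ℝ) ^ (2000 * K) := ⟨_, rfl⟩
  obtain ⟨hM0, hB0, hnB, hKn, hHB, hlM, hY1, hY2, hY3, hY4, hY5, -⟩ :=
    pows2 K h n hK hhK hh hn M Bn hM hBn Y hY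
  rw [← hM]
  have hM0' : 0 < M := by exact_mod_cast hM0
  have hB0' : 0 < Bn := by exact_mod_cast hB0
  have hKR : (2 : ℝ) ≤ K := by exact_mod_cast hK
  have hK0 : (0 : ℝ) < K := by linarith
  have hhR : (1 : ℝ) ≤ h := by exact_mod_cast hh
  have hnpos : 0 < n := lt_of_lt_of_le (by positivity) hKn
  have hnR : (0 : ℝ) < n := by exact_mod_cast hnpos
  obtain ⟨W, hW⟩ : ∃ W : ℝ, W = n / M := ⟨_, rfl⟩
  rw [← hW] at hnB ⊢
  have hWK : 1000 * (K : ℝ) ^ 2 ≤ W := by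
    rw [hW, le_div_iff₀ hM0]
    have hK60 : (K : ℝ) ^ 2 ≤ K ^ 60 := pow_le_pow_right₀ (by linarith) (by norm_num)
    have h1 : (M : ℝ) ≤ Y := by nlinarith
    calc 1000 * (K : ℝ) ^ 2 * M ≤ Y * Y * Y := by
          refine mul_le_mul (mul_le_mul hY4 (hK60.trans hY3) (by positivity) (by linarith)) h1
            (by positivity) (by positivity)
      _ = Y ^ 3 := by ring
      _ ≤ Y ^ 20 := pow_le_pow_right₀ (by linarith) (by norm_num)
      _ ≤ n := hY5
  obtain ⟨s, hs⟩ : ∃ s, s = n / (2 * (16 * h) * M) := ⟨_, rfl⟩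
  obtain ⟨q, hq⟩ : ∃ q, q = n / Bn := ⟨_, rfl⟩
  obtain ⟨ℓ, hℓd⟩ : ∃ ℓ, ℓ = k * n / K ^ 60 + 1 := ⟨_, rfl⟩
  rw [← hℓd] at hℓ
  obtain ⟨d, hd⟩ : ∃ d, d = 16 * h * (32 * K * ℓ) / Bn := ⟨_, rfl⟩
  have h2pos : 0 < 2 * (16 * h) * M := by positivity
  have hr60 : 2 ≤ K ^ 60 := by
    calc 2 ≤ 2 ^ 60 := by norm_num
      _ ≤ K ^ 60 := Nat.pow_le_pow_left hK 60
  have hWs : (n : ℝ) / (2 * (16 * h) * M : ℕ) = W / (32 * h) := by
    rw [hW]
    push_cast
    field_simp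
    ring
  have hW0 : 0 < W := lt_of_lt_of_le (by positivity) hWK
  have hhKR : (h : ℝ) ≤ K := by exact_mod_cast hhK
  have hs1 : W / (32 * K) - 1 ≤ s := by
    have h1 := div_ge' n (2 * (16 * h) * M) h2pos
    rw [← hs, hWs] at h1
    have h2 : W / (32 * K) ≤ W / (32 * h) :=
      div_le_div_of_nonneg_left hW0.le (by positivity) (by linarith)
    linarith
  have hs2 : (s : ℝ) ≤ W / 32 := by
    have h1 : (s : ℝ) ≤ W / (32 * h) := by
      rw [hs, ← hWs]
      exact Nat.cast_div_le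
    have h2 : W / (32 * h) ≤ W / 32 :=
      div_le_div_of_nonneg_left hW0.le (by positivity) (by linarith)
    linarith
  have hq1 : W * (K : ℝ) ^ 14 - 1 ≤ q := by
    rw [← hnB, hq]
    exact div_ge' n Bn hB0'
  have hq2 : (q : ℝ) ≤ W * (K : ℝ) ^ 14 := by
    rw [← hnB, hq]
    exact Nat.cast_div_le
  have hdR : (d : ℝ) ≤ W / (K : ℝ) ^ 33 := by
    refine d_le2 (K : ℝ) W n Bn ((16 * h * (32 * K * ℓ) : ℕ) : ℝ) d hKR hB0
      (by exact_mod_cast hKn) hnB ?_ ?_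
    · have h1 : ((k * n / K ^ 60 : ℕ) : ℝ) ≤ ((k * n : ℕ) : ℝ) / ((K ^ 60 : ℕ) : ℝ) :=
        Nat.cast_div_le
      rw [hℓd]
      push_cast at h1 ⊢
      have h2 : (K : ℝ) = k * h := by
        rw [hKdef]
        push_cast
        rfl
      have h3 : (h : ℝ) * (((k * n / K ^ 60 : ℕ) : ℝ) + 1) ≤ K * n / K ^ 60 + K := by
        calc (h : ℝ) * (((k * n / K ^ 60 : ℕ) : ℝ) + 1) ≤ h * (k * n / K ^ 60 + 1) :=
              mul_le_mul_of_nonneg_left (by linarith) (by linarith)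
          _ = (k * h) * n / K ^ 60 + h := by ring
          _ ≤ K * n / K ^ 60 + K := by
              rw [← h2]
              linarith
      calc 16 * (h : ℝ) * (32 * K * (((k * n / K ^ 60 : ℕ) : ℝ) + 1)) =
          512 * K * (h * (((k * n / K ^ 60 : ℕ) : ℝ) + 1)) := by ring
        _ ≤ _ := mul_le_mul_of_nonneg_left h3 (by positivity)
    · rw [hd]
      exact Nat.cast_div_le
  have hballM : ball (K ^ 60) (32 * K) ≤ M := by
    refine (ball_le_pow _ _ hr60).trans (le_of_eq ?_)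
    rw [hM, ← pow_mul]
    congr 1
    ring
  have hsn : s ≤ n := by
    rw [hs]
    exact Nat.div_le_self _ _
  have hmain := cls_bal hD hc ℓ (32 * K) (16 * h) M Bn q s d hℓ (by omega) hHB
    (by rw [hq]; exact Nat.mul_div_le n Bn) hnpos (by
      have h1 : K ^ 60 * (k * n / K ^ 60) ≤ k * n := Nat.mul_div_le _ _
      have h2 : K ^ 60 * ℓ ≤ 2 * (k * n) := by
        rw [hℓd, mul_add, mul_one]
        have : n ≤ k * n := Nat.le_mul_of_pos_left n (by omega)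
        omega
      calc 16 * h * (K ^ 60 * ℓ) ≤ 16 * h * (2 * (k * n)) := Nat.mul_le_mul_left _ h2
        _ = 32 * K * n := by
            rw [hKdef]
            ring
        _ ≤ (32 * K + 1) * n := Nat.mul_le_mul_right _ (Nat.le_succ _))
    hballM (by
      rw [hs]
      exact Nat.mul_div_le _ _) (by
      intro c hc
      rw [hd, Nat.le_div_iff_mul_le hB0', mul_comm]
      exact hc)
    f t η (2 * (2 ^ n * Real.exp (-(W / (100 * K))))) hη hf (by
      intro G hG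
      exact xbound K n M s q d W hK hM0 hW hWK hlM hsn hs1 hs2 hdR hq1 hq2 G hG)
  refine hmain.trans (le_of_eq ?_)
  congr 1
  push_cast
  field_simp
  ring

/-- The last estimate. -/
private theorem num_fin (K h n M r : ℕ) (Y V t : ℝ) (hn0 : 0 < n) (hK : 2 ≤ K) (hh : 1 ≤ h)
    (hM0 : (0 : ℝ) < M)
    (hY1 : 24 * (h : ℝ) * M ≤ Y) (hY2 : 100000 * (K : ℝ) * M ≤ Y) (hY3 : (r : ℝ) ≤ Y)
    (hY4 : 1000 ≤ Y) (hY5 : Y ^ 20 ≤ n) (hV0 : 0 ≤ V) (hV : V ≤ Real.exp (n / Y ^ 20) + 2)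
    (ht0 : 0 ≤ t) (ht : t ≤ Real.exp ((n : ℝ) ^ (3 / 4 : ℝ)) + 1) :
    V ^ (r + 1) * (M * (t * (2 * Real.exp (-((n / M) / (100 * K)))))) ≤ 1 / (8 * h) ∧
    M * (3 * (n : ℝ) ^ (-(1 / 16) : ℝ)) ≤ 1 / (8 * h) := by
  have hnR : (0 : ℝ) < n := by exact_mod_cast hn0
  have hKR : (2 : ℝ) ≤ K := by exact_mod_cast hK
  have hhR : (1 : ℝ) ≤ h := by exact_mod_cast hh
  have hY0 : 0 < Y := by linarith
  have hpow : ∀ a : ℕ, a ≤ 20 → Y ^ a ≤ n := fun a ha =>
    (pow_le_pow_right₀ (by linarith) ha).trans hY5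
  constructor
  · have he1 : (2 : ℝ) ≤ Real.exp 1 := by
      have := Real.add_one_le_exp (1 : ℝ)
      linarith
    have he2 : (3 : ℝ) ≤ Real.exp 2 := by
      have := Real.add_one_le_exp (2 : ℝ)
      linarith
    have v1 : V ≤ Real.exp (n / Y ^ 20 + 2) := by
      have h1 : 1 ≤ Real.exp (n / Y ^ 20) := Real.one_le_exp (by positivity)
      rw [Real.exp_add]
      nlinarith
    have v2 : V ^ (r + 1) ≤ Real.exp ((r + 1) * (n / Y ^ 20 + 2)) := by
      calc V ^ (r + 1) ≤ Real.exp (n / Y ^ 20 + 2) ^ (r + 1) := pow_le_pow_left₀ hV0 v1 _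
        _ = _ := by
            rw [← Real.exp_nat_mul]
            push_cast
            rfl
    have t1 : t ≤ Real.exp ((n : ℝ) ^ (3 / 4 : ℝ) + 1) := by
      have h1 : 1 ≤ Real.exp ((n : ℝ) ^ (3 / 4 : ℝ)) := Real.one_le_exp (by positivity)
      rw [Real.exp_add]
      nlinarith
    have m1 : (M : ℝ) ≤ Real.exp Y := by
      have h1 := Real.add_one_le_exp Y
      nlinarith
    have h8 : (8 * h : ℝ) ≤ Real.exp Y := by
      have h1 := Real.add_one_le_exp Y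
      have h2 : (1 : ℝ) ≤ M := by
        have : 0 < M := by exact_mod_cast hM0
        exact_mod_cast this
      nlinarith
    have x1 : 1000 * (n / Y) ≤ (n / M) / (100 * K) := by
      rw [div_div, mul_div_assoc', div_le_div_iff₀ hY0 (by positivity)]
      calc 1000 * (n : ℝ) * (M * (100 * K)) = n * (100000 * K * M) := by ring
        _ ≤ n * Y := mul_le_mul_of_nonneg_left hY2 hnR.le
    have x2 : (r + 1) * (n / Y ^ 20 + 2) ≤ n / Y + 4 * Y := by
      have h1 : (r : ℝ) + 1 ≤ 2 * Y := by linarith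
      have h2 : 2 * Y * (n / Y ^ 20) ≤ n / Y := by
        have h3 : 2 * Y * (n / Y ^ 20) = (n / Y) * (2 / Y ^ 18) := by
          field_simp
        rw [h3]
        have h4 : 2 / Y ^ 18 ≤ 1 := by
          rw [div_le_one (by positivity)]
          calc (2 : ℝ) ≤ Y := by linarith
            _ = Y ^ 1 := (pow_one Y).symm
            _ ≤ Y ^ 18 := pow_le_pow_right₀ (by linarith) (by norm_num)
        calc (n / Y) * (2 / Y ^ 18) ≤ (n / Y) * 1 := mul_le_mul_of_nonneg_left h4 (by positivity)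
          _ = n / Y := mul_one _
      calc ((r : ℝ) + 1) * (n / Y ^ 20 + 2) ≤ (2 * Y) * (n / Y ^ 20 + 2) :=
            mul_le_mul_of_nonneg_right h1 (by positivity)
        _ = 2 * Y * (n / Y ^ 20) + 4 * Y := by ring
        _ ≤ _ := by linarith
    have x3 : (n : ℝ) ^ (3 / 4 : ℝ) ≤ n / Y := by
      rw [le_div_iff₀ hY0]
      have h1 : Y ≤ (n : ℝ) ^ (1 / 4 : ℝ) := by
        have h2 : Y = (Y ^ 4) ^ (1 / 4 : ℝ) := by
          rw [← Real.rpow_natCast, ← Real.rpow_mul hY0.le]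
          norm_num
        rw [h2]
        exact Real.rpow_le_rpow (by positivity) (hpow 4 (by norm_num)) (by norm_num)
      calc (n : ℝ) ^ (3 / 4 : ℝ) * Y ≤ (n : ℝ) ^ (3 / 4 : ℝ) * (n : ℝ) ^ (1 / 4 : ℝ) :=
            mul_le_mul_of_nonneg_left h1 (by positivity)
        _ = n := by
            rw [← Real.rpow_add hnR]
            norm_num
    have x4 : 8 * Y ≤ n / Y := by
      rw [le_div_iff₀ hY0]
      calc 8 * Y * Y ≤ Y * Y * Y := by
            refine mul_le_mul_of_nonneg_right (mul_le_mul_of_nonneg_right ?_ hY0.le) hY0.le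
            linarith
        _ = Y ^ 3 := by ring
        _ ≤ n := hpow 3 (by norm_num)
    have x5 : 1 ≤ Y := by linarith
    rw [le_div_iff₀ (by positivity)]
    calc V ^ (r + 1) * (M * (t * (2 * Real.exp (-((n / M) / (100 * K)))))) * (8 * h) ≤
        Real.exp ((r + 1) * (n / Y ^ 20 + 2)) * (Real.exp Y * (Real.exp ((n : ℝ) ^ (3 / 4 : ℝ) + 1) *
          (Real.exp 1 * Real.exp (-((n / M) / (100 * K)))))) * Real.exp Y := by
          gcongr
      _ = Real.exp ((r + 1) * (n / Y ^ 20 + 2) + (Y + (((n : ℝ) ^ (3 / 4 : ℝ) + 1) +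
          (1 + -((n / M) / (100 * K))))) + Y) := by
          simp only [Real.exp_add]
      _ ≤ Real.exp 0 := Real.exp_le_exp.2 (by linarith)
      _ = 1 := Real.exp_zero
  · have h1 : Y ≤ (n : ℝ) ^ (1 / 16 : ℝ) := by
      have h2 : Y = (Y ^ 16) ^ (1 / 16 : ℝ) := by
        rw [← Real.rpow_natCast, ← Real.rpow_mul hY0.le]
        norm_num
      rw [h2]
      exact Real.rpow_le_rpow (by positivity) (hpow 16 (by norm_num)) (by norm_num)
    rw [Real.rpow_neg hnR.le, ← div_eq_mul_inv, ← mul_div_assoc, div_le_div_iff₀ (by positivity)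
      (by positivity)]
    calc (M : ℝ) * 3 * (8 * h) = 24 * h * M := by ring
      _ ≤ Y := hY1
      _ ≤ _ := by
          rw [one_mul]
          exact h1

theorem tTwoN {n k h K : ℕ} (hk : 2 ≤ k) (hh : 1 ≤ h) (hKdef : K = k * h)
    (hn : (K : ℝ) ^ (40000 * K) ≤ n) (f : (Fin n → Bool) → Prop)
    (hf : ∀ t : ℕ, Real.exp ((n : ℝ) ^ (3 / 4 : ℝ)) ≤ t →
      LowDisc f t (3 * (n : ℝ) ^ (-(1 / 16) : ℝ)))
    (Q : Tr n) (hQ : (Fintype.card Q.V : ℝ) ≤ Real.exp (n / (K : ℝ) ^ (40000 * K)) + 2)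
    (Acc : Finset (Fin n → Bool)) (hAcc : ∀ y, y ∈ Acc ↔ Q.at y (k * n) = Q.acc) :
    |∑ y ∈ Acc, chi f y| ≤ 2 ^ n / (2 * h) := by
  classical
  have hK : 2 ≤ K := by
    rw [hKdef]
    calc 2 = 2 * 1 := rfl
      _ ≤ k * h := Nat.mul_le_mul hk hh
  have hhK : h ≤ K := by
    rw [hKdef]
    exact Nat.le_mul_of_pos_left h (by omega)
  obtain ⟨M, hM⟩ : ∃ M : ℕ, M = K ^ (1920 * K + 120) := ⟨_, rfl⟩
  obtain ⟨Bn, hBn⟩ : ∃ Bn : ℕ, Bn = K ^ (1920 * K + 106) := ⟨_, rfl⟩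
  obtain ⟨Y, hY⟩ : ∃ Y : ℝ, Y = (K : ℝ) ^ (2000 * K) := ⟨_, rfl⟩
  obtain ⟨hM0, hB0, hnB, hKn, hHB, hlM, hY1, hY2, hY3, hY4, hY5, hY6⟩ :=
    pows2 K h n hK hhK hh hn M Bn hM hBn Y hY
  rw [hY6] at hQ
  have hnpos : 0 < n := lt_of_lt_of_le (by positivity) hKn
  have hhR : (1 : ℝ) ≤ h := by exact_mod_cast hh
  obtain ⟨ℓ, hℓd⟩ : ∃ ℓ, ℓ = k * n / K ^ 60 + 1 := ⟨_, rfl⟩
  obtain ⟨τ, hτ⟩ : ∃ τ : ℕ → ℕ, τ = fun j => min (j * ℓ) (k * n) := ⟨_, rfl⟩
  have hτ0 : τ 0 = 0 := by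
    rw [hτ]
    simp
  have hτ1 : ∀ j, τ j ≤ τ (j + 1) := by
    intro j
    rw [hτ]
    exact min_le_min_right _ (Nat.mul_le_mul_right ℓ (Nat.le_succ j))
  have hτ2 : ∀ j, τ (j + 1) ≤ τ j + ℓ := by
    intro j
    rw [hτ]
    show min ((j + 1) * ℓ) (k * n) ≤ min (j * ℓ) (k * n) + ℓ
    rw [add_mul, one_mul]
    omega
  have hr60 : 1 ≤ K ^ 60 := Nat.one_le_pow _ _ (by omega)
  have hτr : τ (K ^ 60) = k * n := by
    rw [hτ]
    refine min_eq_right ?_
    rw [hℓd]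
    exact (Nat.lt_mul_div_succ (k * n) hr60).le
  obtain ⟨cut, hcut⟩ : ∃ cut : (Fin n → Bool) → Fin (K ^ 60 + 1) → Q.V,
    cut = fun y (j : Fin (K ^ 60 + 1)) => Q.at y (τ j) := ⟨_, rfl⟩
  obtain ⟨t, ht⟩ : ∃ t : ℕ, t = ⌈Real.exp ((n : ℝ) ^ (3 / 4 : ℝ))⌉₊ := ⟨_, rfl⟩
  obtain ⟨η, hη⟩ : ∃ η : ℝ, η = 3 * (n : ℝ) ^ (-(1 / 16) : ℝ) := ⟨_, rfl⟩
  have hη0 : 0 ≤ η := by
    rw [hη]
    positivity
  obtain ⟨X, hX⟩ : ∃ X : ℝ, X = 2 * (2 ^ n * Real.exp (-((n / M) / (100 * K)))) := ⟨_, rfl⟩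
  have hX0 : 0 ≤ X := by
    rw [hX]
    positivity
  have hld := hf t (by
    rw [ht]
    exact Nat.le_ceil _)
  rw [← hη] at hld
  have hcls : ∀ q : Fin (K ^ 60 + 1) → Q.V, |∑ y ∈ Acc.filter (fun y => cut y = q), chi f y| ≤
      ((Acc.filter (fun y => cut y = q)).card : ℝ) / (4 * h) +
      M * (η * (Acc.filter (fun y => cut y = q)).card + t * X) := by
    intro q
    by_cases hq : q (Fin.last (K ^ 60)) = Q.acc
    · have hF : ∀ y, y ∈ Acc.filter (fun y => cut y = q) ↔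
          ∀ j : Fin (K ^ 60 + 1), Q.at y (τ j) = q j := by
        intro y
        rw [mem_filter, hAcc]
        constructor
        · rintro ⟨-, h2⟩ j
          rw [← h2, hcut]
        · intro h1
          refine ⟨?_, ?_⟩
          · have := h1 (Fin.last (K ^ 60))
            rw [Fin.val_last, hτr, hq] at this
            exact this
          · rw [hcut]
            funext j
            exact h1 j
      obtain ⟨sg, dm, hD, hc, hℓ⟩ := tSeg Q τ hτ0 hτ1 hτ2 hr60 q _ hF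
      rw [hℓd] at hℓ
      have := cls_fin hk hh hKdef hn hD hc hℓ f t η hη0 hld
      rw [← hM, ← hX] at this
      exact this
    · have hF : Acc.filter (fun y => cut y = q) = ∅ := by
        rw [filter_eq_empty_iff]
        intro y hy h2
        apply hq
        rw [← h2, hcut]
        show Q.at y (τ (Fin.last (K ^ 60) : Fin (K ^ 60 + 1))) = Q.acc
        rw [Fin.val_last, hτr]
        exact (hAcc y).1 hy
      rw [hF, sum_empty, abs_zero, card_empty]
      positivity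
  have hsum : ∑ y ∈ Acc, chi f y =
      ∑ q : Fin (K ^ 60 + 1) → Q.V, ∑ y ∈ Acc.filter (fun y => cut y = q), chi f y := by
    rw [sum_fiberwise]
  have hcard : ∑ q : Fin (K ^ 60 + 1) → Q.V, ((Acc.filter (fun y => cut y = q)).card : ℝ) =
      Acc.card := by
    have := sum_fiberwise Acc cut (fun _ => (1 : ℝ))
    simpa only [sum_const, nsmul_eq_mul, mul_one] using this
  have hA : (Acc.card : ℝ) ≤ 2 ^ n := by
    have := card_le_univ Acc
    rw [Fintype.card_fun, Fintype.card_bool, Fintype.card_fin] at this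
    exact_mod_cast this
  obtain ⟨hfin1, hfin2⟩ := num_fin K h n M (K ^ 60) Y (Fintype.card Q.V) t hnpos hK hh hM0 hY1 hY2
    (by push_cast; exact hY3) hY4 hY5 (Nat.cast_nonneg _) hQ (Nat.cast_nonneg _) (by
      rw [ht]
      exact (Nat.ceil_lt_add_one (Real.exp_pos _).le).le)
  rw [← hη] at hfin2
  rw [hsum]
  calc |∑ q : Fin (K ^ 60 + 1) → Q.V, ∑ y ∈ Acc.filter (fun y => cut y = q), chi f y| ≤
      ∑ q : Fin (K ^ 60 + 1) → Q.V, (((Acc.filter (fun y => cut y = q)).card : ℝ) / (4 * h) +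
      M * (η * (Acc.filter (fun y => cut y = q)).card + t * X)) :=
        (abs_sum_le_sum_abs _ _).trans (sum_le_sum (fun q _ => hcls q))
    _ = (Acc.card : ℝ) / (4 * h) + M * η * Acc.card +
        (Fintype.card Q.V : ℝ) ^ (K ^ 60 + 1) * (M * (t * X)) := by
        have e1 : ∀ q : Fin (K ^ 60 + 1) → Q.V,
            ((Acc.filter (fun y => cut y = q)).card : ℝ) / (4 * h) +
            M * (η * (Acc.filter (fun y => cut y = q)).card + t * X) =
            (1 / (4 * h) + M * η) * (Acc.filter (fun y => cut y = q)).card + M * (t * X) := by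
          intro q
          ring
        rw [sum_congr rfl (fun q _ => e1 q), sum_add_distrib, ← mul_sum, hcard, sum_const,
          card_univ, Fintype.card_fun, Fintype.card_fin, nsmul_eq_mul]
        push_cast
        ring
    _ ≤ 2 ^ n / (4 * h) + 1 / (8 * h) * 2 ^ n + 2 ^ n * (1 / (8 * h)) := by
        have a1 : (Acc.card : ℝ) / (4 * h) ≤ 2 ^ n / (4 * h) :=
          div_le_div_of_nonneg_right hA (by positivity)
        have a2 : M * η * Acc.card ≤ 1 / (8 * h) * 2 ^ n :=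
          mul_le_mul hfin2 hA (Nat.cast_nonneg _) (by positivity)
        have a3 : (Fintype.card Q.V : ℝ) ^ (K ^ 60 + 1) * (M * (t * X)) ≤
            2 ^ n * (1 / (8 * h)) := by
          calc (Fintype.card Q.V : ℝ) ^ (K ^ 60 + 1) * (M * (t * X)) =
              2 ^ n * ((Fintype.card Q.V : ℝ) ^ (K ^ 60 + 1) *
              (M * (t * (2 * Real.exp (-((n / M) / (100 * K))))))) := by
                rw [hX]
                ring
            _ ≤ _ := mul_le_mul_of_nonneg_left hfin1 (by positivity)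
        linarith
    _ = 2 ^ n / (2 * h) := by
        field_simp
        ring

end SRBP
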