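import Pool.Agent.Lib.MP_9dcf40_lc.DT.Part

/-!
# Theorem DT (MP_9dcf40_lc): the weights
-/

namespace SRBP

open Finset

/-- The blocks. -/
private def blG (n q b : ℕ) : Finset (Fin n) :=
  univ.filter (fun v : Fin n => b * q ≤ v.1 ∧ v.1 < (b + 1) * q)

private theorem blG_card (n q b B : ℕ) (hb : b < B) (hq : B * q ≤ n) : (blG n q b).card = q := by
  have h1 : (blG n q b).map Fin.valEmbedding = Ico (b * q) ((b + 1) * q) := by
    ext v
    rw [mem_map, mem_Ico]
    unfold blG
    constructor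
    · rintro ⟨w, hw, rfl⟩
      exact (mem_filter.1 hw).2
    · rintro ⟨h1, h2⟩
      have h3 : (b + 1) * q ≤ B * q := Nat.mul_le_mul_right q hb
      exact ⟨⟨v, by omega⟩, mem_filter.2 ⟨mem_univ _, h1, h2⟩, rfl⟩
  rw [← card_map Fin.valEmbedding, h1, Nat.card_Ico]
  rw [add_mul, one_mul]
  omega

private theorem blG_disj (n q b b' : ℕ) (h : b ≠ b') : Disjoint (blG n q b) (blG n q b') := by
  rw [disjoint_left]
  intro v hv hv'
  unfold blG at hv hv'
  obtain ⟨-, h1, h2⟩ := mem_filter.1 hv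
  obtain ⟨-, h3, h4⟩ := mem_filter.1 hv'
  rcases lt_or_gt_of_ne h with h | h
  · have : (b + 1) * q ≤ b' * q := Nat.mul_le_mul_right q h
    omega
  · have : (b' + 1) * q ≤ b * q := Nat.mul_le_mul_right q h
    omega

private theorem bl_sum {n q : ℕ} (S : Finset ℕ) (W : Finset (Fin n)) :
    ∑ b ∈ S, (W ∩ blG n q b).card ≤ W.card := by
  rw [← card_biUnion]
  · refine card_le_card ?_
    intro v hv
    obtain ⟨b, -, hb⟩ := mem_biUnion.1 hv
    exact (mem_inter.1 hb).1
  · intro b _ b' _ hbb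
    exact (blG_disj n q b b' hbb).mono inter_subset_right inter_subset_right

/-- Most blocks are good. -/
private theorem good_bl {n : ℕ} (U D : Finset (Fin n)) (B q t0 H : ℕ) (hH : 1 ≤ H) (hB : H ≤ B)
    (hD : D.card ≤ t0) :
    (1 - 2 / (H : ℝ)) * B ≤ ((range B).filter (fun b =>
      2 * (U ∩ blG n q b).card ≤ U.card ∧ B * (D ∩ blG n q b).card ≤ H * t0)).card := by
  obtain ⟨b1, hb1⟩ : ∃ b1, b1 = (range B).filter (fun b =>
    U.card < 2 * (U ∩ blG n q b).card) := ⟨_, rfl⟩
  obtain ⟨b2, hb2⟩ : ∃ b2, b2 = (range B).filter (fun b =>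
    H * t0 < B * (D ∩ blG n q b).card) := ⟨_, rfl⟩
  have c1 : b1.card ≤ 1 := by
    rw [card_le_one]
    intro a ha b hb
    by_contra hab
    rw [hb1, mem_filter] at ha hb
    have h1 := bl_sum (q := q) {a, b} U
    rw [sum_pair hab] at h1
    omega
  have c2 : H * b2.card ≤ B := by
    have h1 : b2.card * (H * t0 + 1) ≤ B * t0 := by
      calc b2.card * (H * t0 + 1) = ∑ b ∈ b2, (H * t0 + 1) := by rw [sum_const, smul_eq_mul]
        _ ≤ ∑ b ∈ b2, B * (D ∩ blG n q b).card := by
            refine sum_le_sum (fun b hb => ?_)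
            rw [hb2, mem_filter] at hb
            exact hb.2
        _ = B * ∑ b ∈ b2, (D ∩ blG n q b).card := by rw [mul_sum]
        _ ≤ B * t0 := Nat.mul_le_mul_left _ ((bl_sum b2 D).trans hD)
    rcases Nat.eq_zero_or_pos t0 with h0 | h0
    · subst h0
      have : b2.card = 0 := by simpa using h1
      rw [this]
      omega
    · have h2 : (H * b2.card) * t0 ≤ B * t0 := by
        have : b2.card * (H * t0 + 1) = H * b2.card * t0 + b2.card := by ring
        omega
      exact Nat.le_of_mul_le_mul_right h2 h0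
  have c3 : range B ⊆ ((range B).filter (fun b =>
    2 * (U ∩ blG n q b).card ≤ U.card ∧ B * (D ∩ blG n q b).card ≤ H * t0)) ∪ (b1 ∪ b2) := by
    intro b hb
    rw [mem_union, mem_union, hb1, hb2, mem_filter, mem_filter, mem_filter]
    by_cases h1 : 2 * (U ∩ blG n q b).card ≤ U.card
    · by_cases h2 : B * (D ∩ blG n q b).card ≤ H * t0
      · exact Or.inl ⟨hb, h1, h2⟩
      · exact Or.inr (Or.inr ⟨hb, not_le.1 h2⟩)
    · exact Or.inr (Or.inl ⟨hb, not_le.1 h1⟩)
  have c4 := card_le_card c3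
  have c5 := card_union_le ((range B).filter (fun b =>
    2 * (U ∩ blG n q b).card ≤ U.card ∧ B * (D ∩ blG n q b).card ≤ H * t0)) (b1 ∪ b2)
  have c6 := card_union_le b1 b2
  rw [card_range] at c4
  have c7 : (B : ℝ) ≤ (((range B).filter (fun b =>
    2 * (U ∩ blG n q b).card ≤ U.card ∧ B * (D ∩ blG n q b).card ≤ H * t0)).card : ℝ) +
      (1 + b2.card) := by
    have : B ≤ ((range B).filter (fun b =>
      2 * (U ∩ blG n q b).card ≤ U.card ∧ B * (D ∩ blG n q b).card ≤ H * t0)).card +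
      (1 + b2.card) := by omega
    exact_mod_cast this
  have hHR : (0 : ℝ) < H := by exact_mod_cast hH
  have c8 : (b2.card : ℝ) ≤ B / H := by
    rw [le_div_iff₀ hHR, mul_comm]
    exact_mod_cast c2
  have c9 : (1 : ℝ) ≤ B / H := by
    rw [le_div_iff₀ hHR, one_mul]
    exact_mod_cast hB
  have c10 : (1 - 2 / (H : ℝ)) * B = B - B / H - B / H := by ring
  rw [c10]
  linarith

open scoped Classical in
/-- The readers of `v`. -/
private noncomputable def Rd {n r : ℕ} (D : Fin r → Finset (Fin n)) (v : Fin n) : Finset (Fin r) :=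
  univ.filter (fun j => v ∈ D j)

private theorem mem_rd {n r : ℕ} (D : Fin r → Finset (Fin n)) (v : Fin n) (j : Fin r) :
    j ∈ Rd D v ↔ v ∈ D j := by
  unfold Rd
  rw [mem_filter]
  exact ⟨fun h => h.2, fun h => ⟨mem_univ _, h⟩⟩

private theorem rd_sum {n r : ℕ} (D : Fin r → Finset (Fin n)) :
    ∑ v : Fin n, (Rd D v).card = ∑ j, (D j).card := by
  unfold Rd
  simp_rw [card_filter]
  rw [sum_comm]
  refine sum_congr rfl (fun j _ => ?_)
  rw [← card_filter]
  congr 1
  ext v
  simp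

open scoped Classical in
/-- Most variables are good. -/
private theorem good_v {n r : ℕ} (D : Fin r → Finset (Fin n)) (m ℓ H M : ℕ) (hH : 1 ≤ H)
    (hℓ : ∀ j, (D j).card ≤ ℓ) (hm : H * (r * ℓ) ≤ (m + 1) * n) (hM : ball r m ≤ M) :
    (1 - 2 / (H : ℝ)) * n ≤ (univ.filter (fun v : Fin n => (Rd D v).card ≤ m ∧
      n ≤ H * M * (univ \ (Rd D v)ᶜ.biUnion D).card)).card := by
  obtain ⟨TT, hTT⟩ : ∃ TT, TT = (univ : Finset (Finset (Fin r))).filter (fun S => S.card ≤ m) :=
    ⟨_, rfl⟩
  have hMT : TT.card ≤ M := by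
    rw [hTT]
    exact hM
  obtain ⟨v1, hv1⟩ : ∃ v1, v1 = univ.filter (fun v : Fin n => m < (Rd D v).card) := ⟨_, rfl⟩
  obtain ⟨v2, hv2⟩ : ∃ v2, v2 = univ.filter (fun v : Fin n => (Rd D v).card ≤ m ∧
    H * M * (univ \ (Rd D v)ᶜ.biUnion D).card < n) := ⟨_, rfl⟩
  have c1 : H * v1.card ≤ n := by
    have h1 : v1.card * (m + 1) ≤ r * ℓ := by
      calc v1.card * (m + 1) = ∑ v ∈ v1, (m + 1) := by rw [sum_const, smul_eq_mul]
        _ ≤ ∑ v ∈ v1, (Rd D v).card := by
            refine sum_le_sum (fun v hv => ?_)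
            rw [hv1, mem_filter] at hv
            exact hv.2
        _ ≤ ∑ v, (Rd D v).card := sum_le_univ_sum_of_nonneg (fun _ => Nat.zero_le _)
        _ = ∑ j, (D j).card := rd_sum D
        _ ≤ ∑ _j : Fin r, ℓ := sum_le_sum (fun j _ => hℓ j)
        _ = r * ℓ := by rw [sum_const, card_univ, Fintype.card_fin, smul_eq_mul]
    have h2 : (m + 1) * (H * v1.card) ≤ (m + 1) * n := by
      calc (m + 1) * (H * v1.card) = H * (v1.card * (m + 1)) := by ring
        _ ≤ H * (r * ℓ) := Nat.mul_le_mul_left _ h1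
        _ ≤ _ := hm
    exact Nat.le_of_mul_le_mul_left h2 (Nat.succ_pos m)
  have c2 : H * v2.card ≤ n := by
    rcases Nat.eq_zero_or_pos M with h0 | hM0
    · have h1 : TT.Nonempty := ⟨∅, by rw [hTT, mem_filter]; simp⟩
      have := h1.card_pos
      omega
    have h1 : v2 ⊆ (TT.filter (fun T => H * M * (univ \ Tᶜ.biUnion D).card < n)).biUnion
        (fun T => univ \ Tᶜ.biUnion D) := by
      intro v hv
      rw [hv2, mem_filter] at hv
      rw [mem_biUnion]
      refine ⟨Rd D v, ?_, ?_⟩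
      · rw [mem_filter, hTT, mem_filter]
        exact ⟨⟨mem_univ _, hv.2.1⟩, hv.2.2⟩
      · rw [mem_sdiff, mem_biUnion]
        refine ⟨mem_univ _, ?_⟩
        rintro ⟨j, hj, hvj⟩
        rw [mem_compl] at hj
        exact hj (mem_filter.2 ⟨mem_univ _, hvj⟩)
    have h2 : v2.card ≤ ∑ T ∈ TT.filter (fun T => H * M * (univ \ Tᶜ.biUnion D).card < n),
        (univ \ Tᶜ.biUnion D).card := (card_le_card h1).trans card_biUnion_le
    have h3 : M * (H * v2.card) ≤ M * n := by
      calc M * (H * v2.card) = H * M * v2.card := by ring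
        _ ≤ H * M * ∑ T ∈ TT.filter (fun T => H * M * (univ \ Tᶜ.biUnion D).card < n),
            (univ \ Tᶜ.biUnion D).card := Nat.mul_le_mul_left _ h2
        _ = ∑ T ∈ TT.filter (fun T => H * M * (univ \ Tᶜ.biUnion D).card < n),
            H * M * (univ \ Tᶜ.biUnion D).card := by rw [mul_sum]
        _ ≤ ∑ T ∈ TT.filter (fun T => H * M * (univ \ Tᶜ.biUnion D).card < n), n :=
            sum_le_sum (fun T hT => (mem_filter.1 hT).2.le)
        _ ≤ TT.card * n := by
            rw [sum_const, smul_eq_mul]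
            exact Nat.mul_le_mul_right _ (card_le_card (filter_subset _ _))
        _ ≤ M * n := Nat.mul_le_mul_right _ hMT
    exact Nat.le_of_mul_le_mul_left h3 hM0
  have c3 : (univ : Finset (Fin n)) ⊆ (univ.filter (fun v : Fin n => (Rd D v).card ≤ m ∧
      n ≤ H * M * (univ \ (Rd D v)ᶜ.biUnion D).card)) ∪ (v1 ∪ v2) := by
    intro v _
    rw [mem_union, mem_union, hv1, hv2, mem_filter, mem_filter, mem_filter]
    by_cases h1 : (Rd D v).card ≤ m
    · by_cases h2 : n ≤ H * M * (univ \ (Rd D v)ᶜ.biUnion D).card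
      · exact Or.inl ⟨mem_univ _, h1, h2⟩
      · exact Or.inr (Or.inr ⟨mem_univ _, h1, not_le.1 h2⟩)
    · exact Or.inr (Or.inl ⟨mem_univ _, not_le.1 h1⟩)
  have c4 := (card_le_card c3).trans (card_union_le _ _)
  have c6 := card_union_le v1 v2
  rw [card_univ, Fintype.card_fin] at c4
  have c7 : (n : ℝ) ≤ ((univ.filter (fun v : Fin n => (Rd D v).card ≤ m ∧
      n ≤ H * M * (univ \ (Rd D v)ᶜ.biUnion D).card)).card : ℝ) + (v1.card + v2.card) := by
    exact_mod_cast c4.trans (Nat.add_le_add_left c6 _)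
  have hHR : (0 : ℝ) < H := by exact_mod_cast hH
  have c8 : (v2.card : ℝ) ≤ n / H := by
    rw [le_div_iff₀ hHR, mul_comm]
    exact_mod_cast c2
  have c9 : (v1.card : ℝ) ≤ n / H := by
    rw [le_div_iff₀ hHR, mul_comm]
    exact_mod_cast c1
  have c10 : (1 - 2 / (H : ℝ)) * n = n - n / H - n / H := by ring
  rw [c10]
  linarith

/-- The condition on `x` for the segments `T`, the block `b` and the variable `v`. -/
private def Cnd {n r : ℕ} {β : Type} (sg : Fin r → (Fin n → Bool) → β) (dm : β → Finset (Fin n))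
    (m ℓ H M B q : ℕ) (T : Finset (Fin r)) (b : ℕ) (v : Fin n) (x : Fin n → Bool) : Prop :=
  (n ≤ H * M * (univ \ DJ sg dm Tᶜ x).card ∧
    2 * ((univ \ DJ sg dm Tᶜ x) ∩ blG n q b).card ≤ (univ \ DJ sg dm Tᶜ x).card) ∧
  B * (DJ sg dm T x ∩ blG n q b).card ≤ H * (m * ℓ) ∧ Rd (fun j => dm (sg j x)) v = T

private theorem abs_chi {n : ℕ} (f : (Fin n → Bool) → Prop) (x : Fin n → Bool) : |chi f x| = 1 := by
  unfold chi
  split_ifs <;> simp

open scoped Classical in
theorem cls_bal {n r : ℕ} {β : Type} {F : Finset (Fin n → Bool)}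
    {sg : Fin r → (Fin n → Bool) → β} {dm : β → Finset (Fin n)} (h : DPS n r F sg dm)
    (hc : Clo F sg dm) (ℓ m H M B q s d : ℕ) (hℓ : ∀ x ∈ F, ∀ j, (dm (sg j x)).card ≤ ℓ)
    (hH : 4 ≤ H) (hB : H ≤ B) (hq : B * q ≤ n) (hn : 0 < n)
    (hm : H * (r * ℓ) ≤ (m + 1) * n) (hM : ball r m ≤ M)
    (hs : 2 * H * M * s ≤ n) (hd : ∀ c, B * c ≤ H * (m * ℓ) → c ≤ d)
    (f : (Fin n → Bool) → Prop) (t : ℕ) (η X : ℝ) (hη : 0 ≤ η) (hf : LowDisc f t η)
    (hX : ∀ G : Finset (Fin n), G.card = q →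
      (2 ^ n * (G.powerset.filter (fun S => S.card ≤ d)).card / 2 ^ s +
        2 ^ n * n.choose s / 2 ^ (q - d) : ℝ) ≤ X) :
    |∑ x ∈ F, chi f x| ≤ (4 / (H : ℝ)) * F.card + M * (η * F.card + t * X) := by
  obtain ⟨TT, hTT⟩ : ∃ TT, TT = (univ : Finset (Finset (Fin r))).filter (fun S => S.card ≤ m) :=
    ⟨_, rfl⟩
  have hMT : TT.card ≤ M := by
    rw [hTT]
    exact hM
  have hTTm : ∀ T ∈ TT, T.card ≤ m := fun T hT => by
    rw [hTT] at hT
    exact (mem_filter.1 hT).2
  have hM0 : 0 < M := by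
    have h1 : TT.Nonempty := ⟨∅, by rw [hTT, mem_filter]; simp⟩
    have := h1.card_pos
    omega
  have hDJ : ∀ (I : Finset (Fin r)) x y, (∀ j ∈ I, sg j x = sg j y) →
      DJ sg dm I x = DJ sg dm I y := by
    intro I x y hxy
    unfold DJ
    exact biUnion_congr rfl (fun j hj => by rw [hxy j hj])
  have hX0 : 0 ≤ X := by
    have hqn : q ≤ (univ : Finset (Fin n)).card := by
      rw [card_univ, Fintype.card_fin]
      calc q = 1 * q := (one_mul q).symm
        _ ≤ B * q := Nat.mul_le_mul_right q (by omega)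
        _ ≤ n := hq
    obtain ⟨G, -, hG⟩ := exists_subset_card_eq hqn
    exact le_trans (by positivity) (hX G hG)
  have hHR : (4 : ℝ) ≤ H := by exact_mod_cast hH
  have hnR : (0 : ℝ) < n := by exact_mod_cast hn
  have hBR : (0 : ℝ) < B := by exact_mod_cast (by omega : 0 < B)
  -- one set of inputs
  have h1 : ∀ T ∈ TT, ∀ b ∈ range B, ∀ v : Fin n,
      |∑ x ∈ F.filter (Cnd sg dm m ℓ H M B q T b v), chi f x| ≤ η * F.card + t * X := by
    intro T _ b hb v
    have hb' : (blG n q b).card = q := blG_card n q b B (mem_range.1 hb) hq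
    have hpb := part_bound h hc (filter_subset (Cnd sg dm m ℓ H M B q T b v) F) Tᶜ (blG n q b) s d
      (by
        intro y hy y' hy' z hz e1 e2
        obtain ⟨-, hy1, hy2, hy3⟩ := mem_filter.1 hy
        obtain ⟨-, hy1', hy2', hy3'⟩ := mem_filter.1 hy'
        refine mem_filter.2 ⟨hz, ?_, ?_, ?_⟩
        · rw [hDJ Tᶜ z y' e1]
          exact hy1'
        · rw [hDJ T z y (fun j hj => e2 j (fun h => mem_compl.1 h hj))]
          exact hy2
        · ext j
          rw [mem_rd]
          by_cases hj : j ∈ T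
          · show v ∈ dm (sg j z) ↔ j ∈ T
            rw [e2 j (fun h => mem_compl.1 h hj)]
            refine ⟨fun _ => hj, fun _ => ?_⟩
            rw [← hy3, mem_rd] at hj
            exact hj
          · show v ∈ dm (sg j z) ↔ j ∈ T
            rw [e1 j (mem_compl.2 hj)]
            refine ⟨fun hv => ?_, fun h => absurd h hj⟩
            rw [← hy3', mem_rd]
            exact hv)
      (by
        intro x hx
        obtain ⟨-, ⟨hx1, hx1'⟩, -, -⟩ := mem_filter.1 hx
        have h3 := card_sdiff_add_card_inter (univ \ DJ sg dm Tᶜ x) (blG n q b)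
        have h4 : H * M * (univ \ DJ sg dm Tᶜ x).card ≤
            H * M * (2 * ((univ \ DJ sg dm Tᶜ x) \ blG n q b).card) :=
          Nat.mul_le_mul_left _ (by omega)
        have h5 : (2 * H * M) * s ≤
            (2 * H * M) * ((univ \ DJ sg dm Tᶜ x) \ blG n q b).card := by
          calc (2 * H * M) * s ≤ n := hs
            _ ≤ _ := hx1
            _ ≤ _ := h4
            _ = _ := by ring
        exact Nat.le_of_mul_le_mul_left h5 (by positivity))
      (by
        intro x hx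
        obtain ⟨-, -, hx2, -⟩ := mem_filter.1 hx
        rw [compl_compl]
        exact hd _ hx2)
      f t η hη hf
    rw [hb'] at hpb
    refine hpb.trans (add_le_add (mul_le_mul_of_nonneg_left ?_ hη)
      (mul_le_mul_of_nonneg_left (hX _ hb') (Nat.cast_nonneg t)))
    exact_mod_cast card_le_card (filter_subset _ _)
  -- the weights
  obtain ⟨Nf, hNf⟩ : ∃ Nf : (Fin n → Bool) → ℝ, Nf = fun x => ∑ T ∈ TT, ∑ b ∈ range B,
      ∑ v : Fin n, (if Cnd sg dm m ℓ H M B q T b v x then (1 : ℝ) else 0) := ⟨_, rfl⟩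
  have hNf' : ∀ x, Nf x = ∑ b ∈ range B, ∑ v : Fin n, ∑ T ∈ TT,
      (if Cnd sg dm m ℓ H M B q T b v x then (1 : ℝ) else 0) := by
    intro x
    simp only [hNf]
    rw [sum_comm]
    refine sum_congr rfl (fun b _ => ?_)
    rw [sum_comm]
  have h2 : ∀ x, Nf x ≤ n * B := by
    intro x
    rw [hNf']
    calc ∑ b ∈ range B, ∑ v : Fin n, ∑ T ∈ TT,
        (if Cnd sg dm m ℓ H M B q T b v x then (1 : ℝ) else 0) ≤
        ∑ b ∈ range B, ∑ v : Fin n, (1 : ℝ) := by
          refine sum_le_sum (fun b _ => sum_le_sum (fun v _ => ?_))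
          calc ∑ T ∈ TT, (if Cnd sg dm m ℓ H M B q T b v x then (1 : ℝ) else 0) ≤
              ∑ T ∈ TT, (if Rd (fun j => dm (sg j x)) v = T then (1 : ℝ) else 0) := by
                refine sum_le_sum (fun T _ => ?_)
                by_cases h3 : Cnd sg dm m ℓ H M B q T b v x
                · rw [if_pos h3, if_pos h3.2.2]
                · rw [if_neg h3]
                  split_ifs <;> norm_num
            _ ≤ 1 := by
                rw [sum_ite_eq]
                split_ifs <;> norm_num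
      _ = n * B := by
          rw [sum_const, sum_const, card_range, card_univ, Fintype.card_fin, nsmul_eq_mul,
            nsmul_eq_mul, mul_one, mul_comm]
  have h3 : ∀ x ∈ F, (1 - 4 / (H : ℝ)) * (n * B) ≤ Nf x := by
    intro x hx
    obtain ⟨Vg, hVg⟩ : ∃ Vg, Vg = univ.filter (fun v : Fin n =>
        (Rd (fun j => dm (sg j x)) v).card ≤ m ∧
        n ≤ H * M * (univ \ (Rd (fun j => dm (sg j x)) v)ᶜ.biUnion (fun j => dm (sg j x))).card) :=
      ⟨_, rfl⟩
    have hv := good_v (fun j => dm (sg j x)) m ℓ H M (by omega) (hℓ x hx) hm hM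
    rw [← hVg] at hv
    have h4 : ∀ v ∈ Vg, (1 - 2 / (H : ℝ)) * B ≤ ∑ b ∈ range B, ∑ T ∈ TT,
        (if Cnd sg dm m ℓ H M B q T b v x then (1 : ℝ) else 0) := by
      intro v hvV
      rw [hVg, mem_filter] at hvV
      have hTm : Rd (fun j => dm (sg j x)) v ∈ TT := by
        rw [hTT, mem_filter]
        exact ⟨mem_univ _, hvV.2.1⟩
      have h5 := good_bl (univ \ DJ sg dm (Rd (fun j => dm (sg j x)) v)ᶜ x)
        (DJ sg dm (Rd (fun j => dm (sg j x)) v) x) B q (m * ℓ) H (by omega) hB (by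
          unfold DJ
          refine card_biUnion_le.trans ?_
          calc ∑ j ∈ Rd (fun j => dm (sg j x)) v, (dm (sg j x)).card ≤
              ∑ _j ∈ Rd (fun j => dm (sg j x)) v, ℓ := sum_le_sum (fun j _ => hℓ x hx j)
            _ = (Rd (fun j => dm (sg j x)) v).card * ℓ := by rw [sum_const, smul_eq_mul]
            _ ≤ _ := Nat.mul_le_mul_right _ hvV.2.1)
      refine h5.trans ?_
      rw [card_filter]
      push_cast
      refine sum_le_sum (fun b _ => ?_)
      have h6 : (if Cnd sg dm m ℓ H M B q (Rd (fun j => dm (sg j x)) v) b v x then (1 : ℝ) else 0) ≤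
          ∑ T ∈ TT, (if Cnd sg dm m ℓ H M B q T b v x then (1 : ℝ) else 0) :=
        single_le_sum (f := fun T => (if Cnd sg dm m ℓ H M B q T b v x then (1 : ℝ) else 0))
          (fun T _ => by
            show (0 : ℝ) ≤ if Cnd sg dm m ℓ H M B q T b v x then (1 : ℝ) else 0
            split_ifs <;> norm_num) hTm
      refine le_trans ?_ h6
      split_ifs with h7 h8
      · exact le_refl _
      · exact absurd ⟨⟨hvV.2.2, h7.1⟩, h7.2, rfl⟩ h8
      · norm_num
      · exact le_refl _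
    have h7 : (1 - 2 / (H : ℝ)) * n * ((1 - 2 / (H : ℝ)) * B) ≤ Nf x := by
      have h8 : 0 ≤ 1 - 2 / (H : ℝ) := by
        have : 2 / (H : ℝ) ≤ 1 := by
          rw [div_le_one (by linarith)]
          linarith
        linarith
      calc (1 - 2 / (H : ℝ)) * n * ((1 - 2 / (H : ℝ)) * B) ≤ Vg.card * ((1 - 2 / (H : ℝ)) * B) :=
            mul_le_mul_of_nonneg_right hv (by positivity)
        _ = ∑ v ∈ Vg, (1 - 2 / (H : ℝ)) * B := by rw [sum_const, nsmul_eq_mul]
        _ ≤ ∑ v ∈ Vg, ∑ b ∈ range B, ∑ T ∈ TT,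
            (if Cnd sg dm m ℓ H M B q T b v x then (1 : ℝ) else 0) := sum_le_sum h4
        _ ≤ ∑ v : Fin n, ∑ b ∈ range B, ∑ T ∈ TT,
            (if Cnd sg dm m ℓ H M B q T b v x then (1 : ℝ) else 0) :=
            sum_le_univ_sum_of_nonneg (fun v => sum_nonneg (fun b _ => sum_nonneg (fun T _ => by
              split_ifs <;> norm_num)))
        _ = Nf x := by
            rw [hNf', sum_comm]
    refine le_trans ?_ h7
    have h9 : (1 - 2 / (H : ℝ)) * n * ((1 - 2 / (H : ℝ)) * B) - (1 - 4 / (H : ℝ)) * (n * B) =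
        (2 / (H : ℝ)) ^ 2 * (n * B) := by ring
    have h10 : 0 ≤ (2 / (H : ℝ)) ^ 2 * (n * B) := by positivity
    linarith
  -- the sum
  have h4 : ∑ x ∈ F, chi f x * Nf x = ∑ T ∈ TT, ∑ b ∈ range B, ∑ v : Fin n,
      ∑ x ∈ F.filter (Cnd sg dm m ℓ H M B q T b v), chi f x := by
    calc ∑ x ∈ F, chi f x * Nf x = ∑ x ∈ F, ∑ T ∈ TT, ∑ b ∈ range B, ∑ v : Fin n,
          (if Cnd sg dm m ℓ H M B q T b v x then chi f x else 0) := by
          refine sum_congr rfl (fun x _ => ?_)
          rw [hNf]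
          simp only [mul_sum]
          refine sum_congr rfl (fun T _ => sum_congr rfl (fun b _ => sum_congr rfl (fun v _ => ?_)))
          split_ifs <;> simp
      _ = ∑ T ∈ TT, ∑ b ∈ range B, ∑ v : Fin n, ∑ x ∈ F,
          (if Cnd sg dm m ℓ H M B q T b v x then chi f x else 0) := by
          rw [sum_comm]
          refine sum_congr rfl (fun T _ => ?_)
          rw [sum_comm]
          refine sum_congr rfl (fun b _ => ?_)
          rw [sum_comm]
      _ = _ := by
          refine sum_congr rfl (fun T _ => sum_congr rfl (fun b _ => sum_congr rfl (fun v _ => ?_)))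
          rw [sum_filter]
  have h5 : |∑ x ∈ F, chi f x * Nf x| ≤ M * (n * B) * (η * F.card + t * X) := by
    have h0 : 0 ≤ η * F.card + t * X := by positivity
    rw [h4]
    calc |∑ T ∈ TT, ∑ b ∈ range B, ∑ v : Fin n,
          ∑ x ∈ F.filter (Cnd sg dm m ℓ H M B q T b v), chi f x| ≤
        ∑ T ∈ TT, ∑ b ∈ range B, ∑ v : Fin n, (η * F.card + t * X) := by
          refine (abs_sum_le_sum_abs _ _).trans (sum_le_sum (fun T hT => ?_))
          refine (abs_sum_le_sum_abs _ _).trans (sum_le_sum (fun b hb => ?_))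
          refine (abs_sum_le_sum_abs _ _).trans (sum_le_sum (fun v _ => ?_))
          exact h1 T hT b hb v
      _ = TT.card * (n * B) * (η * F.card + t * X) := by
          rw [sum_const, sum_const, sum_const, card_range, card_univ, Fintype.card_fin,
            nsmul_eq_mul, nsmul_eq_mul, nsmul_eq_mul]
          ring
      _ ≤ _ := by
          refine mul_le_mul_of_nonneg_right (mul_le_mul_of_nonneg_right ?_ (by positivity)) h0
          exact_mod_cast hMT
  have h6 : |∑ x ∈ F, chi f x * (n * B - Nf x)| ≤ F.card * (4 / (H : ℝ) * (n * B)) := by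
    refine (abs_sum_le_sum_abs _ _).trans ?_
    calc ∑ x ∈ F, |chi f x * (n * B - Nf x)| ≤ ∑ _x ∈ F, 4 / (H : ℝ) * (n * B) := by
          refine sum_le_sum (fun x hx => ?_)
          rw [abs_mul, abs_chi, one_mul, abs_of_nonneg (by linarith [h2 x])]
          have := h3 x hx
          linarith
      _ = _ := by rw [sum_const, nsmul_eq_mul]
  have h7 : (n * B : ℝ) * ∑ x ∈ F, chi f x =
      ∑ x ∈ F, chi f x * Nf x + ∑ x ∈ F, chi f x * (n * B - Nf x) := by
    rw [← sum_add_distrib, mul_sum]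
    refine sum_congr rfl (fun x _ => ?_)
    ring
  have h8 : (n * B : ℝ) * |∑ x ∈ F, chi f x| ≤
      (n * B : ℝ) * ((4 / (H : ℝ)) * F.card + M * (η * F.card + t * X)) := by
    have hnB : (0 : ℝ) ≤ n * B := by positivity
    calc (n * B : ℝ) * |∑ x ∈ F, chi f x| = |(n * B : ℝ) * ∑ x ∈ F, chi f x| := by
          rw [abs_mul, abs_of_nonneg hnB]
      _ ≤ |∑ x ∈ F, chi f x * Nf x| + |∑ x ∈ F, chi f x * (n * B - Nf x)| := by
          rw [h7]
          exact abs_add_le _ _
      _ ≤ M * (n * B) * (η * F.card + t * X) + F.card * (4 / (H : ℝ) * (n * B)) := add_le_add h5 h6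
      _ = _ := by ring
  exact le_of_mul_le_mul_left h8 (by positivity)

end SRBP
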